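import Pool.Agent.N871.P15G.C2

/-!
# P15G: the divisor sums `S_C2ii`, `S_C2io`, `S_C2L`, `S_C2D`
-/

set_option autoImplicit false

namespace Pool.Agent.N871.G15

open Finset
open Pool.Agent.Z700 (hh fac)
open Pool.Agent.Y574.Z7 (chp dvd_fac)
open Pool.Agent.N969.P15 (Ev tw tb ep2 psp psp2)
open Pool.Agent.N969.P17G (sgnE sgn)
open Pool.Agent.N295.P15 (Ff dvd_cn dvd_iff' fac_ST fac4 pf_four mem_ST)
open Pool.Agent.N295.P15.E (kq pq eT eS eT_sq eS_sq pf_prime pf_dvd)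
open Pool.Agent.N833.P21 (L2 M2 tw_A tw_B M2_even e2_eq)
open Pool.Agent.N871.G21 (FF FF_of lq lq_eq wa wb DS hh_eq mem_er hh_four fac_four hh_ST facg_eq
  one_zero hl hl_sq hl_nd eS_nd sT Lc Lc_R Lc_L Lc_nd Lc_out eT_odd eT_two v00 v10 v01 v11 Lc_R00
  Lc_R01 Lc_L11 Lc_O00 Lc_S10 Lc_S01 Lc_I10 Lc_I01 z_fac M2_dt M2_tb M2_tw Fn_mul Fn_two Fn_odd
  hl_hh sdiff_m sdiff_A sT_out p3 Fn_ne Wd_DS)
open Pool.Agent.N877.P21G (Fn dt)
open Pool.Agent.N973.P15G (Ng Aii Aio N15 N3 Nsi Nis Ass W0 W03 W3 WD l3 sg kr)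

variable {n : ℕ}

/-! ### the density -/

theorem prod_F5 (hF : FF n) {S T : ℕ} (hS : S ≠ 0) (hT : T ≠ 0) :
    ∏ l ∈ ((4 * (S * T)).primeFactors.erase 2).erase 3, fac n (4 * (S * T)) l =
      Ff n S T 5 * Fs n S T := by
  have hST0 := mul_ne_zero hS hT
  have h4 : 4 * (S * T) ≠ 0 := mul_ne_zero (by norm_num) hST0
  rw [Fs_eq, ← R1_four hF hST0]
  unfold R1 Ff
  by_cases h5 : 5 ∈ (S * T).primeFactors
  · have h5' : 5 ∈ ((4 * (S * T)).primeFactors.erase 2).erase 3 :=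
      Finset.mem_erase.2 ⟨by norm_num, Finset.mem_erase.2 ⟨by norm_num,
        Nat.mem_primeFactors.2 ⟨p5, (Nat.dvd_of_mem_primeFactors h5).mul_left 4, h4⟩⟩⟩
    rw [if_pos h5, ← Finset.mul_prod_erase _ _ h5', fac_four hF hST0 p5 (by norm_num)]
  · have h5' : 5 ∉ ((4 * (S * T)).primeFactors.erase 2).erase 3 := by
      intro h
      apply h5
      have h6 := Nat.dvd_of_mem_primeFactors (Finset.mem_of_mem_erase (Finset.mem_of_mem_erase h))
      refine Nat.mem_primeFactors.2 ⟨p5, ?_, hST0⟩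
      exact (p5.dvd_mul.1 h6).resolve_left (by norm_num)
    rw [if_neg h5, one_mul, Finset.erase_eq_of_notMem h5']

theorem l3_val {S T : ℕ} (h : Fn n) (hS : S ≠ 0) (hT : T ≠ 0) (hST : S + T = 1 * n)
    (h3 : 3 ∣ n) (hT3 : 3 ∣ T) :
    l3 n T = (1 - hl n S T 3) * (M2 n S T * (Ff n S T 5 * Fs n S T)) := by
  have hF := FF_of h
  have hS' : n - T = S := by omega
  have hb : (T : ℤ) - (S : ℤ) = 2 * T - (n : ℕ) := by
    have : (S : ℤ) + T = n := by
      have := hST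
      rw [one_mul] at this
      exact_mod_cast this
    linarith
  have hD3 : 3 ∣ 4 * S * T := hT3.mul_left _
  have h3' : 3 ∈ n.primeFactors := (hF.mem p3).2 h3
  have hh3 := hl_hh hF hS hT (by norm_num) h3'
  have hM := M2_dt h hS hT hST
  unfold dt at hM
  unfold N973.P15G.l3 N877.P21.loc3E N877.P21.loc3
  rw [hS', if_pos hD3, if_pos hD3, hh3]
  have hP : ∏ l ∈ ((4 * S * T).primeFactors.erase 2).erase 3, fac n (4 * S * T) l =
      Ff n S T 5 * Fs n S T := by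
    rw [mul_assoc]
    exact prod_F5 hF hS hT
  rw [hP, hb, hM]
  split_ifs <;> rfl

/-! ### the sums -/

theorem W0_DS {A m : ℕ} (hA : A ≠ 0) (hm : m ≠ 0) (hc : Nat.Coprime A m) (S T : ℕ) :
    W0 A m S T = DS (fun _ => True) (15 ∣ ·) (A * m) A.primeFactors S T := by
  rw [← Wd_DS (fun _ => True) (15 ∣ ·) hA hm hc S T]
  unfold N973.P15G.W0 N877.P21G.Wd
  rw [Finset.filter_true]
  rfl

theorem W03_DS {A m : ℕ} (hA : A ≠ 0) (hm : m ≠ 0) (hc : Nat.Coprime A m) (S T : ℕ) :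
    W03 A m S T = DS (fun a => ¬ 5 ∣ a) (fun a' => 3 ∣ a' ∧ ¬ 5 ∣ a') (A * m)
      A.primeFactors S T :=
  Wd_DS (fun a => ¬ 5 ∣ a) (fun a' => 3 ∣ a' ∧ ¬ 5 ∣ a') hA hm hc S T

theorem WD_DS {A : ℕ} (hA : A ≠ 0) (hc : Nat.Coprime 3 A) (S T : ℕ) :
    WD A S T = DS (fun a => 3 ∣ a ∧ ¬ 5 ∣ a) (fun a' => 3 ∣ a' ∧ ¬ 5 ∣ a') (3 * A)
      (Nat.primeFactors 3) S T :=
  Wd_DS (fun a => 3 ∣ a ∧ ¬ 5 ∣ a) (fun a' => 3 ∣ a' ∧ ¬ 5 ∣ a') (by norm_num) hA hc S T

theorem lev_15 : Lev (fun _ => True) (15 ∣ ·) v01 v01 := by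
  intro a a' ha ha'
  unfold v01
  simp only [← dvd_fac p5 ha', ← dvd_fac p3 ha']
  have : 15 ∣ a' ↔ 3 ∣ a' ∧ 5 ∣ a' := by omega
  simp only [this, if_true]
  by_cases h1 : 3 ∣ a' <;> by_cases h2 : 5 ∣ a' <;> simp [h1, h2]

theorem lev_03 : Lev (fun a => ¬ 5 ∣ a) (fun a' => 3 ∣ a' ∧ ¬ 5 ∣ a') v01 v00 := by
  intro a a' ha ha'
  unfold v00 v01
  simp only [z_fac p5 ha, z_fac p5 ha', ← dvd_fac p3 ha']
  by_cases h1 : 5 ∣ a <;> by_cases h2 : 5 ∣ a' <;> by_cases h3 : 3 ∣ a' <;> simp [h1, h2, h3]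

theorem lev_D : Lev (fun a => 3 ∣ a ∧ ¬ 5 ∣ a) (fun a' => 3 ∣ a' ∧ ¬ 5 ∣ a') v11 v00 := by
  intro a a' ha ha'
  unfold v00 v11
  simp only [z_fac p5 ha, z_fac p5 ha', ← dvd_fac p3 ha', ← dvd_fac p3 ha]
  by_cases h1 : 5 ∣ a <;> by_cases h2 : 5 ∣ a' <;> by_cases h3 : 3 ∣ a' <;>
    by_cases h4 : 3 ∣ a <;> simp [h1, h2, h3, h4]

/-- the local sum at `5 ∣ n` without a level condition -/
theorem Lc_5n (h : FF n) {B : Finset ℕ} {c S T : ℕ} (hS : S ≠ 0) (hT : T ≠ 0)
    (hST : S + T = c * n) (hlP : 5 ∈ n.primeFactors) :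
    Lc (fun _ _ => 1) n B S T 5 = Ff n S T 5 * sT n B T 5 := by
  have hlP' : 5 ∈ n.primeFactors.erase 2 := Finset.mem_erase.2 ⟨by norm_num, hlP⟩
  have hd := dvd_iff' hST hlP
  have hD' : 5 ∈ (S * T).primeFactors ↔ 5 ∣ T := by rw [mem_ST hS hT p5, hd, or_self]
  unfold Ff
  simp only [hD']
  by_cases h1 : 5 ∣ T
  · rw [if_pos h1]
    have c1 := eT_sq (n := n) p5 hT
    have e0 : fac n (S * T) 5 = 1 + eS n S 5 * eT n T 5 := by
      unfold fac
      rw [if_pos (pf_dvd hlP), hh_ST h hS hT hlP']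
    unfold sT
    by_cases hB : 5 ∈ B
    · rw [Lc_L hS hT hST hlP hB h1, if_neg (by tauto), e0]
      ring
    · rw [Lc_R hS hT hST hlP hB h1, if_pos ⟨hlP, hB⟩, e0]
      linear_combination (-(eS n S 5)) * c1
  · rw [if_neg h1, Lc_nd hST hlP h1]

/-- left kernel, `a'` divisible by `p` -/
theorem Lc_L01 {B : Finset ℕ} {c S T p : ℕ} (hS : S ≠ 0) (hT : T ≠ 0) (hST : S + T = c * n)
    (hp : p ∈ n.primeFactors) (hB : p ∈ B) (h1 : p ∣ T) :
    Lc v01 n B S T p = hl n S T p * sT n B T p := by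
  have hpp := pf_prime hp
  have t1 := (dvd_fac hpp hT).1 h1
  rw [Lc_L hS hT hST hp hB h1]
  unfold v01 sT hl
  rw [if_neg (by omega), if_pos t1, if_pos hp, if_neg (by tauto)]
  ring

/-! ### `Aii × N15` -/

theorem dl_one (h3 : 3 ∈ n.primeFactors) (h5 : 5 ∈ n.primeFactors) (T : ℕ) : dl n T = 1 := by
  unfold dl
  rw [if_pos h3, if_pos h5, one_mul]

theorem Ff5_nd {S T : ℕ} (hS : ¬ 5 ∣ S) (hT : ¬ 5 ∣ T) : Ff n S T 5 = 1 := by
  unfold Ff
  rw [if_neg]
  intro h
  rcases p5.dvd_mul.1 (Nat.dvd_of_mem_primeFactors h) with h | h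
  · exact hS h
  · exact hT h

theorem t_C2ii : N973.P15G.S_C2ii := by
  intro A m hA hm hcop T hT0 hTn hT3
  obtain ⟨hmF, hm15⟩ := hm
  have hmF : Fn m := hmF
  have hm3 : 3 ∣ m := (by norm_num : 3 ∣ 15).trans hm15
  have hm5 : 5 ∣ m := (by norm_num : 5 ∣ 15).trans hm15
  have hAF := Ps_Fd hA.1
  obtain ⟨hF, _⟩ := Fn_mul hAF hmF hcop
  have hFF := FF_of hF
  have hA0 : A ≠ 0 := by rintro rfl; exact hFF.n0 (by rw [zero_mul])
  have hm0 : m ≠ 0 := Fn_ne hmF
  have hA3 : ¬ 3 ∣ A := by have := hA.2.1; omega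
  have hA5 : ¬ 5 ∣ A := by have := hA.2.2; omega
  have h3n : 3 ∈ (A * m).primeFactors := (hFF.mem p3).2 (hm3.mul_left A)
  have h5n : 5 ∈ (A * m).primeFactors := (hFF.mem p5).2 (hm5.mul_left A)
  have h3B : 3 ∉ A.primeFactors := fun h => hA3 (pf_dvd h)
  have h5B : 5 ∉ A.primeFactors := fun h => hA5 (pf_dvd h)
  obtain ⟨S, hSdef⟩ : ∃ S, S = A * m - T := ⟨_, rfl⟩
  rw [← hSdef]
  have hST : S + T = 1 * (A * m) := by omega
  have hS : S ≠ 0 := by omega
  have hT : T ≠ 0 := by omega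
  rw [W03_DS hA0 hm0 hcop, DS_val lev_03 hFF (Or.inl rfl) hS hT hST
    (Lc_R01 hS hT hST h3n h3B) (Lc_R00 hS hT hST h5n h5B), sdiff_m hA0 hm0 hcop,
    sg_eq (dvd_mul_right A m) hFF.n0]
  constructor
  · intro h5
    rw [if_pos h5]
    ring
  · intro h5
    have hS5 : ¬ 5 ∣ S := fun h => h5 ((dvd_iff' hST h5n).1 h)
    rw [if_pos hT3, if_neg h5, l3_val hF hS hT hST (hm3.mul_left A) hT3, Ff5_nd hS5 h5]
    have m1 := main_m hAF hmF hcop (Or.inl rfl) hS hT hST (fun h => absurd h hA3)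
      (fun h => absurd h hA5)
    have m2 := main_2 hF (Or.inl rfl) hS hT hST
    rw [dl_one h3n h5n] at m1 m2
    rw [dl_one h3n h5n, hl_nd (p := 5) hT hST (by norm_num) h5] at m2
    unfold Fs at *
    generalize ∏ l ∈ m.primeFactors, eT (A * m) T l = a at *
    generalize ∏ l ∈ Q' (A * m) S T, Ff (A * m) S T l = F at *
    linear_combination 2 * m1 - sgnE 1 A (A * m) T * m2

theorem t_C2D : N973.P15G.S_C2D := by
  intro A hA T hT0 hTn hT3
  have h3F : Fn 3 := Or.inl ⟨Nat.prime_three.squarefree, by norm_num⟩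
  have hAF := Ps_Fd hA.1
  have hcop : Nat.Coprime A 3 := by
    rw [Nat.coprime_comm]
    exact (Nat.Prime.coprime_iff_not_dvd p3).2 (by have := hA.2.1; omega)
  obtain ⟨hF, _⟩ := Fn_mul hAF h3F hcop
  have hFF := FF_of hF
  have hA0 : A ≠ 0 := by rintro rfl; exact hFF.n0 (by rw [zero_mul])
  have h3n : 3 ∈ (A * 3).primeFactors := (hFF.mem p3).2 (dvd_mul_left 3 A)
  have h5n : 5 ∈ (A * 3).primeFactors := (hFF.mem p5).2 (hA.2.2.mul_right 3)
  have h3B : 3 ∈ Nat.primeFactors 3 := Nat.mem_primeFactors.2 ⟨p3, dvd_refl 3, by norm_num⟩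
  have h5B : 5 ∉ Nat.primeFactors 3 := fun h => by
    have := pf_dvd h
    omega
  obtain ⟨S, hSdef⟩ : ∃ S, S = 3 * A - T := ⟨_, rfl⟩
  rw [← hSdef]
  have hST : S + T = 1 * (A * 3) := by omega
  have hS : S ≠ 0 := by omega
  have hT : T ≠ 0 := by omega
  rw [WD_DS hA0 hcop.symm, mul_comm 3 A, DS_val lev_D hFF (Or.inl rfl) hS hT hST
    (Lc_L11 hS hT hST h3n h3B) (Lc_R00 hS hT hST h5n h5B), sdiff_A hA0 (by norm_num) hcop,
    sg_eq (dvd_mul_right A 3) hFF.n0]
  constructor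
  · intro h5
    rw [if_pos h5]
    ring
  · intro h5
    have hS5 : ¬ 5 ∣ S := fun h => h5 ((dvd_iff' hST h5n).1 h)
    rw [if_pos hT3, if_neg h5, l3_val hF hS hT hST (dvd_mul_left 3 A) hT3, Ff5_nd hS5 h5]
    have m1 := main_A hAF h3F hcop (Or.inl rfl) hS hT hST
      (fun h => absurd h (by have := hA.2.1; omega)) (fun _ => h5)
    have m2 := main_2 hF (Or.inl rfl) hS hT hST
    rw [dl_one h3n h5n, dl_one h3n h5n, hl_nd (p := 5) hT hST (by norm_num) h5] at m2
    have q3 := hl_sq (n := A * 3) (l := 3) hS hT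
    unfold Fs at *
    generalize ∏ l ∈ A.primeFactors, eT (A * 3) T l = a at *
    generalize ∏ l ∈ Q' (A * 3) S T, Ff (A * 3) S T l = F at *
    generalize hl (A * 3) S T 3 = x at *
    linear_combination 2 * x * m1 + sgnE 1 A (A * 3) T * x * m2 -
      (sgnE 1 A (A * 3) T * M2 (A * 3) S T * F) * q3

/-! ### exchanging `S` and `T` -/

theorem hl_symm (n S T l : ℕ) : hl n T S l = hl n S T l := by
  unfold hl eS eT
  split_ifs <;> ring

theorem Q'_symm (n S T : ℕ) : Q' n T S = Q' n S T := by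
  unfold Q' QQ
  rw [mul_comm T S]

theorem Ff_symm (n S T l : ℕ) : Ff n T S l = Ff n S T l := by
  unfold Ff
  rw [mul_comm T S]

theorem Fs_symm (n S T : ℕ) : Fs n T S = Fs n S T := by
  unfold Fs
  rw [Q'_symm]
  exact Finset.prod_congr rfl fun l _ => Ff_symm n S T l

theorem L2_symm {c S T : ℕ} (hST : S + T = c * n) : L2 n T S = L2 n S T := by
  unfold L2
  by_cases h2 : 2 ∈ n.primeFactors
  · rw [if_pos h2, if_pos h2]
    have hd := dvd_iff' hST h2
    by_cases h : 2 ∣ T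
    · rw [if_pos h, if_pos (hd.2 h)]
      unfold eS eT
      ring
    · rw [if_neg h, if_neg (fun h1 => h (hd.1 h1))]
  · rw [if_neg h2, if_neg h2, mul_comm]

/-- the factor of a set of primes in the exchange -/
def ka (n S T m : ℕ) : ℤ := (if 2 ∈ m.primeFactors then hl n S T 2 else 1) *
  (if 3 ∈ m.primeFactors then hl n S T 3 else 1) * (if 5 ∈ m.primeFactors then hl n S T 5 else 1)

theorem prod_swap {A m : ℕ} (hA : A = 1 ∨ N969.RQ.Fd A) (hm : Fn m) (hcop : Nat.Coprime A m)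
    {S T : ℕ} (hS : S ≠ 0) (hT : T ≠ 0) (hST : S + T = 1 * (A * m))
    (hF' : ∀ l ∈ Q' (A * m) S T, Ff (A * m) S T l ≠ 0) :
    ∏ l ∈ m.primeFactors, eT (A * m) S l =
      -(ka (A * m) S T m * ∏ l ∈ m.primeFactors, eT (A * m) T l) := by
  obtain ⟨hF, hk⟩ := Fn_mul hA hm hcop
  have hFF := FF_of hF
  have hA0 : A ≠ 0 := by
    rintro rfl
    exact hFF.n0 (by rw [zero_mul])
  have hm0 : m ≠ 0 := Fn_ne hm
  have hsub : m.primeFactors ⊆ (A * m).primeFactors :=
    Nat.primeFactors_mono (Dvd.intro_left A rfl) (Nat.mul_ne_zero hA0 hm0)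
  have hkm : ∏ l ∈ m.primeFactors, kq (A * m) l = -1 := by
    have := hFF.kprod
    rw [Nat.primeFactors_mul hA0 hm0, Finset.prod_union hcop.disjoint_primeFactors, hk,
      one_mul] at this
    exact this
  have e1 : ∀ l ∈ m.primeFactors, eT (A * m) S l = kq (A * m) l *
      (((if l = 2 then hl (A * m) S T 2 else 1) * (if l = 3 then hl (A * m) S T 3 else 1) *
        (if l = 5 then hl (A * m) S T 5 else 1)) * eT (A * m) T l) := by
    intro l hlm
    have hln := hsub hlm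
    have hlp := pf_prime hlm
    have c1 := eT_sq (n := A * m) hlp hT
    have e0 : eT (A * m) S l = kq (A * m) l * eS (A * m) S l := by
      unfold eT eS
      ring
    have e3 : hl (A * m) S T l = eS (A * m) S l * eT (A * m) T l := if_pos hln
    have e4 : eS (A * m) S l = hl (A * m) S T l * eT (A * m) T l := by
      rw [e3]
      linear_combination (-(eS (A * m) S l)) * c1
    rw [e0, e4]
    congr 2
    by_cases h2 : l = 2
    · subst h2
      rw [if_pos rfl, if_neg (by norm_num), if_neg (by norm_num), mul_one, mul_one]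
    by_cases h3 : l = 3
    · subst h3
      rw [if_pos rfl, if_neg (by norm_num), if_neg (by norm_num), one_mul, mul_one]
    by_cases h5 : l = 5
    · subst h5
      rw [if_pos rfl, if_neg (by norm_num), if_neg (by norm_num), one_mul, one_mul]
    rw [if_neg h2, if_neg h3, if_neg h5, e3, eS_eq hFF hS hT hST hF'
      (Finset.mem_erase.2 ⟨h2, hln⟩) h3 h5, c1]
    norm_num
  rw [Finset.prod_congr rfl e1, Finset.prod_mul_distrib, hkm, Finset.prod_mul_distrib,
    Finset.prod_mul_distrib, Finset.prod_mul_distrib,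
    Finset.prod_ite_eq' m.primeFactors 2 (fun _ => hl (A * m) S T 2),
    Finset.prod_ite_eq' m.primeFactors 3 (fun _ => hl (A * m) S T 3),
    Finset.prod_ite_eq' m.primeFactors 5 (fun _ => hl (A * m) S T 5)]
  unfold ka
  ring

/-- the cases of the factor at `2` -/
theorem L2_cases (h : Fn n) {c S T : ℕ} (hT : T ≠ 0) (hST : S + T = c * n) :
    (2 ∉ n.primeFactors ∧ L2 n S T = M2 n S T ∧ hl n S T 2 = 1) ∨
    (2 ∈ n.primeFactors ∧ L2 n S T = 1 + hl n S T 2 ∧ M2 n S T = 2) ∨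
    (2 ∈ n.primeFactors ∧ L2 n S T = 1 ∧ M2 n S T = 1 ∧ hl n S T 2 = 1) := by
  unfold L2 M2
  by_cases h2 : 2 ∈ n.primeFactors
  · have e6 : hl n S T 2 = eS n S 2 * eT n T 2 := if_pos h2
    right
    by_cases hT2 : 2 ∣ T
    · left
      rw [if_pos h2, if_pos h2, if_pos hT2, if_pos hT2, e6]
      exact ⟨h2, rfl, rfl⟩
    · right
      rw [if_pos h2, if_pos h2, if_neg hT2, if_neg hT2, e6,
        e2_eq ⟨Fn_two h (pf_dvd h2)⟩ hST hT2, eT_sq Nat.prime_two hT]
      exact ⟨h2, rfl, rfl, rfl⟩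
  · left
    rw [if_neg h2, if_neg h2]
    exact ⟨h2, rfl, if_neg h2⟩

/-- the algebra: `h5 = 1` -/
theorem alg_one {A m S T : ℕ} (hF : Fn (A * m)) (hA0 : A ≠ 0)
    (hS : S ≠ 0) (hT : T ≠ 0) (hST : S + T = 1 * (A * m))
    (hL : 2 ∉ (A * m).primeFactors → L2 (A * m) S T ≠ 0)
    (hF' : ∀ l ∈ Q' (A * m) S T, Ff (A * m) S T l ≠ 0)
    (hm3 : 3 ∈ m.primeFactors) (h15 : 5 ∈ (A * m).primeFactors)
    (h5 : hl (A * m) S T 5 = 1) :
    L2 (A * m) S T * (1 - ka (A * m) S T m) = (1 - hl (A * m) S T 3) * M2 (A * m) S T := by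
  have hFF := FF_of hF
  have hm0 : m ≠ 0 := by
    rintro rfl
    exact hFF.n0 (by rw [mul_zero])
  have h3n : 3 ∈ (A * m).primeFactors := by
    rw [Nat.primeFactors_mul hA0 hm0]
    exact Finset.mem_union_right _ hm3
  have e3 := s_rel hFF (Or.inl rfl) hS hT hST hL hF'
  rw [dl_one h3n h15, dl_one h3n h15, h5] at e3
  have q2 := hl_sq (n := A * m) (l := 2) hS hT
  have q3 := hl_sq (n := A * m) (l := 3) hS hT
  unfold ka
  rw [if_pos hm3, h5, ite_self, mul_one]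
  rcases L2_cases hF hT hST with ⟨h2, h6, h7⟩ | ⟨h2, h6, h7⟩ | ⟨h2, h6, h7, h8⟩
  · have h2m : 2 ∉ m.primeFactors := fun h => h2 (by
      rw [Nat.primeFactors_mul hA0 hm0]
      exact Finset.mem_union_right _ h)
    rw [h7] at e3
    have h9 : hl (A * m) S T 3 = -1 := by linarith
    rw [if_neg h2m, h6, h9]
    ring
  · rw [h6, h7]
    rcases mul_self_eq_one_iff.1 q2 with a | a <;> rcases mul_self_eq_one_iff.1 q3 with b | b <;>
      rw [a, b] at e3 <;> norm_num at e3 <;> rw [a, b] <;> split_ifs <;> norm_num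
  · rw [h8] at e3
    have h9 : hl (A * m) S T 3 = -1 := by linarith
    rw [h6, h7, h8, h9, ite_self]
    ring

theorem t_C2L : N973.P15G.S_C2L := by
  intro A m hA hm hcop hA3 h15 T hT0 hTn hT3
  have hm : Fn m := hm
  have hAF := Ps_Fd hA
  obtain ⟨hF, _⟩ := Fn_mul hAF hm hcop
  have hFF := FF_of hF
  have hA0 : A ≠ 0 := by rintro rfl; exact hFF.n0 (by rw [zero_mul])
  have hm0 : m ≠ 0 := Fn_ne hm
  have hm3 : 3 ∣ m := by
    have h1 : 3 ∣ A * m := (by norm_num : 3 ∣ 15).trans h15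
    exact (p3.dvd_mul.1 h1).resolve_left hA3
  have h5' : 5 ∣ A * m := (by norm_num : 5 ∣ 15).trans h15
  have h3n : 3 ∈ (A * m).primeFactors := (hFF.mem p3).2 (hm3.mul_left A)
  have h5n : 5 ∈ (A * m).primeFactors := (hFF.mem p5).2 h5'
  have h3m : 3 ∈ m.primeFactors := Nat.mem_primeFactors.2 ⟨p3, hm3, hm0⟩
  have h3B : 3 ∉ A.primeFactors := fun h => hA3 (pf_dvd h)
  obtain ⟨S, hSdef⟩ : ∃ S, S = A * m - T := ⟨_, rfl⟩
  rw [← hSdef]
  have hST : S + T = 1 * (A * m) := by omega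
  have hTS : T + S = 1 * (A * m) := by omega
  have hS : S ≠ 0 := by omega
  have hT : T ≠ 0 := by omega
  have hS3 : 3 ∣ S := (dvd_iff' hST h3n).2 hT3
  rw [W3_DS hA0 hm0 hcop, W3_DS hA0 hm0 hcop, DS_val lev_3 hFF (Or.inl rfl) hS hT hST
    (Lc_R01 hS hT hST h3n h3B) (Lc_5n hFF hS hT hST h5n),
    DS_val lev_3 hFF (Or.inl rfl) hT hS hTS
    (Lc_R01 hT hS hTS h3n h3B) (Lc_5n hFF hT hS hTS h5n), sdiff_m hA0 hm0 hcop,
    sg_eq (dvd_mul_right A m) hFF.n0, if_pos hT3, if_pos hS3,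
    l3_val hF hS hT hST (hm3.mul_left A) hT3, L2_symm hST, Ff_symm (A * m) S T 5,
    Q'_symm (A * m) S T,
    Finset.prod_congr rfl fun l (_ : l ∈ Q' (A * m) S T) => Ff_symm (A * m) S T l]
  -- the vanishing cases
  by_cases hz5 : Ff (A * m) S T 5 = 0
  · rw [hz5]; ring
  rcases nv_or (A * m) S T with ⟨hF', hL⟩ | ⟨h1, h2⟩
  swap
  · unfold Fs at *
    linear_combination (Ff (A * m) S T 5 * ((∏ l ∈ m.primeFactors, eT (A * m) T l) +
      ∏ l ∈ m.primeFactors, eT (A * m) S l)) * h1 + (sgnE 1 A (A * m) T *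
        (1 - hl (A * m) S T 3) * Ff (A * m) S T 5) * h2
  have h5 : hl (A * m) S T 5 = 1 := by
    by_cases hT5 : 5 ∣ T
    · unfold Ff fac at hz5
      rw [if_pos ((mem_ST hS hT p5).2 (Or.inr hT5)), if_pos h5',
        hh_ST hFF hS hT (Finset.mem_erase.2 ⟨by norm_num, h5n⟩)] at hz5
      have e : hl (A * m) S T 5 = eS (A * m) S 5 * eT (A * m) T 5 := if_pos h5n
      rw [← e] at hz5
      rcases mul_self_eq_one_iff.1 (hl_sq (n := A * m) (l := 5) hS hT) with h | h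
      · exact h
      · rw [h] at hz5
        norm_num at hz5
    · exact hl_nd hT hST (by norm_num) hT5
  have k1 := alg_one hF hA0 hS hT hST hL hF' h3m h5n h5
  have k2 := prod_swap hAF hm hcop hS hT hST hF'
  -- the signs of `A`
  have k3 : ∏ l ∈ m.primeFactors, eT (A * m) T l = -sgnE 1 A (A * m) T := by
    have e1 := prod_eT hFF (Or.inl rfl) hS hT hST hL hF'
    rw [dl_one h3n h5n, Nat.primeFactors_mul hA0 hm0,
      Finset.prod_union hcop.disjoint_primeFactors] at e1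
    have e2 : ∏ p ∈ A.primeFactors, eT (A * m) T p = sgnE 1 A (A * m) T := by
      obtain ⟨_, hk⟩ := Fn_mul hAF hm hcop
      have hsub : A.primeFactors ⊆ (A * m).primeFactors :=
        Nat.primeFactors_mono (Dvd.intro m rfl) (Nat.mul_ne_zero hA0 hm0)
      have e : ∏ p ∈ A.primeFactors, eT (A * m) T p =
          (∏ p ∈ A.primeFactors, kq (A * m) p) * sgnE 1 A (A * m) T := by
        unfold sgnE
        rw [← Finset.prod_mul_distrib]
        refine Finset.prod_congr rfl fun p hp => ?_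
        have hTn' : T < 1 * (A * m) := by omega
        by_cases h2 : p = 2
        · subst h2
          rw [if_pos rfl, eT_two (Fn_two hF ((pf_dvd hp).mul_right m)) hT]
        · rw [if_neg h2]
          have hp' : p ∈ (A * m).primeFactors.erase 2 := Finset.mem_erase.2 ⟨h2, hsub hp⟩
          refine eT_odd hFF hT (Or.inl rfl) hTn' hp' fun hpT _ => ?_
          have hp3 : p ≠ 3 := by
            rintro rfl
            exact h3B hp
          have e3 : 1 * (A * m) - T = S := by omega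
          rw [e3]
          by_cases hp5 : p = 5
          · subst hp5
            have e : hl (A * m) S T 5 = eS (A * m) S 5 * eT (A * m) T 5 := if_pos h5n
            rw [← e, h5]
            norm_num
          · rw [eS_eq hFF hS hT hST hF' hp' hp3 hp5, eT_sq (pf_prime hp) hT]
            norm_num
      rw [e, hk, one_mul]
    have e3 : (∏ l ∈ A.primeFactors, eT (A * m) T l) * ∏ l ∈ A.primeFactors, eT (A * m) T l = 1 := by
      rw [← Finset.prod_mul_distrib]
      exact Finset.prod_eq_one fun l hl => eT_sq (pf_prime hl) hT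
    rw [e2] at e1 e3
    linear_combination (sgnE 1 A (A * m) T) * e1 - (∏ l ∈ m.primeFactors, eT (A * m) T l) * e3
  rw [k2, k3]
  unfold Fs at *
  generalize ∏ l ∈ Q' (A * m) S T, Ff (A * m) S T l = F at *
  linear_combination (-(sgnE 1 A (A * m) T * Ff (A * m) S T 5 * F)) * k1

theorem t_C2io : N973.P15G.S_C2io := by
  intro A m hA hm' hcop T hT0 hTn hT15
  obtain ⟨hm, hm3, hm5⟩ := hm'
  have hm : Fn m := hm
  have hAF := Ps_Fd hA.1
  obtain ⟨hF, hk⟩ := Fn_mul hAF hm hcop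
  have hFF := FF_of hF
  have hA0 : A ≠ 0 := by rintro rfl; exact hFF.n0 (by rw [zero_mul])
  have hm0 : m ≠ 0 := Fn_ne hm
  have hT3 : 3 ∣ T := (by norm_num : 3 ∣ 15).trans hT15
  have hT5 : 5 ∣ T := (by norm_num : 5 ∣ 15).trans hT15
  have hA5 : 5 ∣ A := hA.2.2
  have hA3 : ¬ 3 ∣ A := by have := hA.2.1; omega
  have h5' : 5 ∣ A * m := hA5.mul_right m
  have h3n : 3 ∈ (A * m).primeFactors := (hFF.mem p3).2 (hm3.mul_left A)
  have h5n : 5 ∈ (A * m).primeFactors := (hFF.mem p5).2 h5'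
  have h3m : 3 ∈ m.primeFactors := Nat.mem_primeFactors.2 ⟨p3, hm3, hm0⟩
  have h5m : 5 ∉ m.primeFactors := fun h => by have := pf_dvd h; omega
  have h3B : 3 ∉ A.primeFactors := fun h => hA3 (pf_dvd h)
  have h5B : 5 ∈ A.primeFactors := Nat.mem_primeFactors.2 ⟨p5, hA5, hA0⟩
  obtain ⟨S, hSdef⟩ : ∃ S, S = A * m - T := ⟨_, rfl⟩
  rw [← hSdef]
  have hST : S + T = 1 * (A * m) := by omega
  have hTS : T + S = 1 * (A * m) := by omega
  have hS : S ≠ 0 := by omega
  have hT : T ≠ 0 := by omega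
  have hS3 : 3 ∣ S := (dvd_iff' hST h3n).2 hT3
  have hS5 : 5 ∣ S := (dvd_iff' hST h5n).2 hT5
  have e5 : Ff (A * m) S T 5 = 1 + hl (A * m) S T 5 := by
    unfold Ff fac
    rw [if_pos ((mem_ST hS hT p5).2 (Or.inr hT5)), if_pos h5',
        hh_ST hFF hS hT (Finset.mem_erase.2 ⟨by norm_num, h5n⟩)]
    have e : hl (A * m) S T 5 = eS (A * m) S 5 * eT (A * m) T 5 := if_pos h5n
    rw [← e]
  rw [W0_DS hA0 hm0 hcop, W0_DS hA0 hm0 hcop, DS_val lev_15 hFF (Or.inl rfl) hS hT hST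
    (Lc_R01 hS hT hST h3n h3B) (Lc_L01 hS hT hST h5n h5B hT5),
    DS_val lev_15 hFF (Or.inl rfl) hT hS hTS
    (Lc_R01 hT hS hTS h3n h3B) (Lc_L01 hT hS hTS h5n h5B hS5), sdiff_m hA0 hm0 hcop,
    sg_eq (dvd_mul_right A m) hFF.n0, if_pos hT3, if_pos hS3,
    l3_val hF hS hT hST (hm3.mul_left A) hT3, L2_symm hST, Q'_symm (A * m) S T,
    hl_symm (A * m) S T 5, Finset.prod_congr rfl fun l (_ : l ∈ Q' (A * m) S T) => Ff_symm (A * m) S T l, e5]
  rcases nv_or (A * m) S T with ⟨hF', hL⟩ | ⟨h1, h2⟩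
  swap
  · unfold Fs at *
    linear_combination (2 * hl (A * m) S T 5 * ((∏ l ∈ m.primeFactors, eT (A * m) T l) +
      ∏ l ∈ m.primeFactors, eT (A * m) S l)) * h1 + (sgnE 1 A (A * m) T *
        (1 - hl (A * m) S T 3) * (1 + hl (A * m) S T 5)) * h2
  have k2 := prod_swap hAF hm hcop hS hT hST hF'
  rcases mul_self_eq_one_iff.1 (hl_sq (n := A * m) (l := 5) hS hT) with h5 | h5
  · have k1 := alg_one hF hA0 hS hT hST hL hF' h3m h5n h5
    have k3 : ∏ l ∈ m.primeFactors, eT (A * m) T l = -sgnE 1 A (A * m) T := by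
      have e1 := prod_eT hFF (Or.inl rfl) hS hT hST hL hF'
      rw [dl_one h3n h5n, Nat.primeFactors_mul hA0 hm0,
        Finset.prod_union hcop.disjoint_primeFactors] at e1
      have e2 : ∏ p ∈ A.primeFactors, eT (A * m) T p = sgnE 1 A (A * m) T := by
        have hsub : A.primeFactors ⊆ (A * m).primeFactors :=
          Nat.primeFactors_mono (Dvd.intro m rfl) (Nat.mul_ne_zero hA0 hm0)
        have e : ∏ p ∈ A.primeFactors, eT (A * m) T p =
            (∏ p ∈ A.primeFactors, kq (A * m) p) * sgnE 1 A (A * m) T := by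
          unfold sgnE
          rw [← Finset.prod_mul_distrib]
          refine Finset.prod_congr rfl fun p hp => ?_
          have hTn' : T < 1 * (A * m) := by omega
          by_cases h2 : p = 2
          · subst h2
            rw [if_pos rfl, eT_two (Fn_two hF ((pf_dvd hp).mul_right m)) hT]
          · rw [if_neg h2]
            have hp' : p ∈ (A * m).primeFactors.erase 2 := Finset.mem_erase.2 ⟨h2, hsub hp⟩
            refine eT_odd hFF hT (Or.inl rfl) hTn' hp' fun hpT _ => ?_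
            have hp3 : p ≠ 3 := by
              rintro rfl
              exact h3B hp
            have e3 : 1 * (A * m) - T = S := by omega
            rw [e3]
            by_cases hp5 : p = 5
            · subst hp5
              have e : hl (A * m) S T 5 = eS (A * m) S 5 * eT (A * m) T 5 := if_pos h5n
              rw [← e, h5]
              norm_num
            · rw [eS_eq hFF hS hT hST hF' hp' hp3 hp5, eT_sq (pf_prime hp) hT]
              norm_num
        rw [e, hk, one_mul]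
      have e3 : (∏ l ∈ A.primeFactors, eT (A * m) T l) *
          ∏ l ∈ A.primeFactors, eT (A * m) T l = 1 := by
        rw [← Finset.prod_mul_distrib]
        exact Finset.prod_eq_one fun l hl => eT_sq (pf_prime hl) hT
      rw [e2] at e1 e3
      linear_combination (sgnE 1 A (A * m) T) * e1 - (∏ l ∈ m.primeFactors, eT (A * m) T l) * e3
    rw [k2, k3, h5]
    unfold Fs at *
    generalize ∏ l ∈ Q' (A * m) S T, Ff (A * m) S T l = F at *
    linear_combination (-(2 * sgnE 1 A (A * m) T * F)) * k1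
  · -- everything vanishes
    have e3 := s_rel hFF (Or.inl rfl) hS hT hST hL hF'
    rw [dl_one h3n h5n, dl_one h3n h5n, h5] at e3
    have q2 := hl_sq (n := A * m) (l := 2) hS hT
    have q3 := hl_sq (n := A * m) (l := 3) hS hT
    have k1 : L2 (A * m) S T * (1 - ka (A * m) S T m) = 0 := by
      unfold ka
      rw [if_pos h3m, if_neg h5m, mul_one]
      rcases L2_cases hF hT hST with ⟨h2, h6, h7⟩ | ⟨h2, h6, h7⟩ | ⟨h2, h6, h7, h8⟩
      · have h2m : 2 ∉ m.primeFactors := fun h => h2 (by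
          rw [Nat.primeFactors_mul hA0 hm0]
          exact Finset.mem_union_right _ h)
        rw [if_neg h2m]
        rw [h7] at e3
        have h9 : hl (A * m) S T 3 = 1 := by linarith
        rw [h9]
        ring
      · rw [h6]
        rcases mul_self_eq_one_iff.1 q2 with a | a <;>
          rcases mul_self_eq_one_iff.1 q3 with b | b <;>
          rw [a, b] at e3 <;> norm_num at e3 <;> rw [a, b] <;> split_ifs <;> norm_num
      · rw [h6, h8]
        rw [h8] at e3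
        have h9 : hl (A * m) S T 3 = 1 := by linarith
        rw [h9, ite_self]
        ring
    rw [k2, h5]
    unfold Fs at *
    generalize ∏ l ∈ Q' (A * m) S T, Ff (A * m) S T l = F at *
    generalize ∏ l ∈ m.primeFactors, eT (A * m) T l = a at *
    linear_combination (-(2 * a * F)) * k1

end Pool.Agent.N871.G15
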