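import Pool.Agent.N871.P15G.Gen

/-!
# P15G: the divisor sums `S_C2M`, `S_C2W4`, `S_C2L4`
-/

set_option autoImplicit false

namespace Pool.Agent.N871.G15

open Finset
open Pool.Agent.Z700 (hh fac)
open Pool.Agent.Y574.Z7 (chp dvd_fac)
open Pool.Agent.N969.P15 (Ev tw tb ep2 psp psp2 WW WWe)
open Pool.Agent.N969.P17G (sgnE sgn)
open Pool.Agent.N295.P15 (Ff dvd_cn fac_ST fac4 pf_four)
open Pool.Agent.N295.P15.E (pq eT eS eT_sq eS_sq pf_prime pf_dvd)
open Pool.Agent.N833.P21 (L2 M2 tw_A tw_B M2_even)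
open Pool.Agent.N871.G21 (FF FF_of lq lq_eq wa wb DS hh_eq mem_er hh_four fac_four hh_ST facg_eq
  one_zero hl hl_sq hl_nd eS_nd sT Lc Lc_R Lc_L Lc_nd Lc_out eT_odd eT_two v00 v10 v01 v11 Lc_R00
  Lc_R01 Lc_L11 Lc_O00 Lc_S10 Lc_S01 Lc_I10 Lc_I01 z_fac M2_dt M2_tb M2_tw Fn_mul Fn_two Fn_odd
  hl_hh sdiff_m sdiff_A sT_out p3 Fn_ne Wd_DS)
open Pool.Agent.N877.P21G (Fn dt)
open Pool.Agent.N973.P15G (Ng Aii Aio N15 N3 Nsi Nis Ass W2 W3 l1 l5 sg kr)

variable {n : ℕ}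

abbrev Pch (n m : ℕ) : ℤ := Pool.Agent.N295.P15.E.Ps n m

/-! ### classes and characters -/

theorem Ps_Fd {A : ℕ} (h : N973.P15G.Ps A) : A = 1 ∨ N969.RQ.Fd A := by
  right
  rcases h with ⟨h1, h2, h3⟩ | ⟨M, h1, h2, h3⟩
  · exact ⟨h3, Or.inl ⟨h1, h2⟩⟩
  · exact ⟨by omega, Or.inr ⟨M, h1, h2, h3⟩⟩

theorem Ng_Fn {m : ℕ} (h : Ng m) : Fn m := h

theorem sg_eq {A n : ℕ} (h : A ∣ n) (hn : n ≠ 0) (T : ℤ) : sg A n T = sgnE 1 A n T := by
  unfold N973.P15G.sg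
  split_ifs with h2
  · rfl
  · unfold sgn sgnE
    refine Finset.prod_congr rfl fun p hp => ?_
    rw [if_neg]
    rintro rfl
    exact h2 ((pf_dvd hp).trans h)

theorem Ps3_inert (h : FF n) (h3 : n % 3 = 1) : 3 ∉ n.primeFactors ∧ Pch n 3 = -1 :=
  Pool.Agent.N871.G21.Ps3_of h h3

theorem Ps5_split (h : FF n) (h0 : n % 5 = 1 ∨ n % 5 = 4) :
    5 ∉ n.primeFactors ∧ Pch n 5 = 1 := by
  have h5 : 5 ∉ n.primeFactors := fun h1 => by
    have := pf_dvd h1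
    rcases h0 with h0 | h0 <;> omega
  refine ⟨h5, ?_⟩
  show Pool.Agent.N295.P15.E.Ps n 5 = 1
  rw [h.Ps_l 5 p5 (by norm_num) h5, jacobiSym.mod_left]
  rcases h0 with h0 | h0
  · have h1 : (-(n : ℤ)) % ((5 : ℕ) : ℤ) = 4 := by omega
    rw [h1]; norm_num
  · have h1 : (-(n : ℤ)) % ((5 : ℕ) : ℤ) = 1 := by omega
    rw [h1]; norm_num

/-! ### the level conditions -/

theorem lev_M : Lev (5 ∣ ·) (3 ∣ ·) v01 v10 := by
  intro a a' ha ha'
  unfold v01 v10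
  simp only [← dvd_fac p5 ha, ← dvd_fac p3 ha']
  split_ifs <;> norm_num

theorem lev_W : Lev (3 ∣ ·) (5 ∣ ·) v10 v01 := by
  intro a a' ha ha'
  unfold v01 v10
  simp only [← dvd_fac p3 ha, ← dvd_fac p5 ha']
  split_ifs <;> norm_num

theorem lev_3 : Lev (fun _ => True) (3 ∣ ·) v01 (fun _ _ => 1) := by
  intro a a' ha ha'
  unfold v01
  simp only [← dvd_fac p3 ha', if_true, one_mul]

/-- the local sum at `5` without a level condition -/
theorem Lc_5 (h : FF n) {B : Finset ℕ} {c S T : ℕ} (hc : c = 1 ∨ c = 2) (hS : S ≠ 0) (hT : T ≠ 0)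
    (hST : S + T = c * n) (hl : 5 ∉ n.primeFactors) :
    Lc (fun _ _ => 1) n B S T 5 = Ff n S T 5 * sT n B T 5 := by
  rw [sT_out hl, mul_one, Lc_out hl]
  simp only [mul_one]
  by_cases hm : 5 ∈ (S * T).primeFactors
  · unfold Ff
    rw [if_pos hm, facg_eq h hS hT p5 (by norm_num) hl]
    rcases one_zero h hc hS hT hST p5 (by norm_num) hl with h0 | h0
    · rw [h0, zero_add, Finset.sum_range_one, zero_add]
      exact Finset.sum_congr rfl fun j _ => by rw [zero_add]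
    · rw [h0, zero_add, add_zero]
      exact Finset.sum_congr rfl fun i _ => by rw [Finset.sum_range_one, add_zero]
  · have hd : ¬ 5 ∣ S * T := fun h => hm (Nat.mem_primeFactors.2 ⟨p5, h, mul_ne_zero hS hT⟩)
    have h1 : ¬ 5 ∣ S := fun h => hd (h.mul_right T)
    have h2 : ¬ 5 ∣ T := fun h => hd (h.mul_left S)
    unfold Ff
    rw [if_neg hm, Nat.factorization_eq_zero_of_not_dvd h1, Nat.factorization_eq_zero_of_not_dvd h2]
    simp

/-! ### the sums -/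

theorem W2_DS {A m : ℕ} (hA : A ≠ 0) (hm : m ≠ 0) (hc : Nat.Coprime A m) (S T : ℕ) :
    W2 A m S T = DS (5 ∣ ·) (3 ∣ ·) (A * m) A.primeFactors S T :=
  Wd_DS (5 ∣ ·) (3 ∣ ·) hA hm hc S T

theorem W3_DS {A m : ℕ} (hA : A ≠ 0) (hm : m ≠ 0) (hc : Nat.Coprime A m) (S T : ℕ) :
    W3 A m S T = DS (fun _ => True) (3 ∣ ·) (A * m) A.primeFactors S T := by
  rw [← Wd_DS (fun _ => True) (3 ∣ ·) hA hm hc S T]
  unfold N973.P15G.W3 N877.P21G.Wd
  rw [Finset.filter_true]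
  rfl

theorem WW_DS (h : Pool.Agent.N295.P15.Fd n) (S T : ℕ) :
    WW n S T = DS (3 ∣ ·) (5 ∣ ·) n ∅ S T := by
  unfold N969.P15.WW DS
  refine Finset.sum_congr rfl fun a _ => Finset.sum_congr rfl fun a' _ => ?_
  refine Finset.prod_congr rfl fun p hp => ?_
  rw [if_neg (Finset.notMem_empty p)]
  exact (if_neg (h.ne2 hp)).symm

theorem WWe_DS (h : Pool.Agent.N295.P15.E.Fd n) (S T : ℕ) :
    WWe n S T = DS (3 ∣ ·) (5 ∣ ·) n ∅ S T := by
  unfold N969.P15.WWe DS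
  refine Finset.sum_congr rfl fun a _ => Finset.sum_congr rfl fun a' _ => ?_
  rw [← Finset.mul_prod_erase _ _ h.mem2, if_neg (Finset.notMem_empty 2)]
  congr 1
  refine Finset.prod_congr rfl fun q hq => ?_
  rw [if_neg (Finset.notMem_empty q)]
  exact (if_neg (Finset.ne_of_mem_erase hq)).symm

/-! ### the densities -/

/-- the valuations -/
theorem vp4 {p S T : ℕ} (hp : p.Prime) (h2 : p ≠ 2) (hS : S ≠ 0) (hT : T ≠ 0) :
    (4 * (S * T)).factorization p = S.factorization p + T.factorization p := by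
  rw [fac4 (mul_ne_zero hS hT) hp h2, fac_ST hS hT]

theorem l5_val {S T : ℕ} {b : ℤ} (hF : FF n) (hS : S ≠ 0) (hT : T ≠ 0) :
    l5 n b (4 * S * T) = if Odd (S.factorization 3 + T.factorization 3) then
      ((S.factorization 5 + T.factorization 5 : ℕ) : ℤ) *
        (dt n b (4 * S * T) * Fs n S T) else 0 := by
  have hST0 := mul_ne_zero hS hT
  have e : l5 n b (4 * S * T) = if Odd ((4 * (S * T)).factorization 3) then
      ((4 * (S * T)).factorization 5 : ℤ) * (dt n b (4 * S * T) * R1 n (4 * (S * T))) else 0 := by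
    rw [mul_assoc 4 S T]
    rfl
  rw [e, vp4 p3 (by norm_num) hS hT, vp4 p5 (by norm_num) hS hT, R1_four hF hST0, ← Fs_eq]

theorem l5_val' {S T : ℕ} {b : ℤ} (hS : S ≠ 0) (hT : T ≠ 0) :
    l5 n b (S * T) = if Odd (S.factorization 3 + T.factorization 3) then
      ((S.factorization 5 + T.factorization 5 : ℕ) : ℤ) *
        (dt n b (S * T) * Fs n S T) else 0 := by
  have e : l5 n b (S * T) = if Odd ((S * T).factorization 3) then
      ((S * T).factorization 5 : ℤ) * (dt n b (S * T) * R1 n (S * T)) else 0 := rfl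
  rw [e, fac_ST hS hT, fac_ST hS hT, ← Fs_eq]

theorem l1_val {S T : ℕ} {b : ℤ} (hF : FF n) (hS : S ≠ 0) (hT : T ≠ 0) :
    l1 n b (4 * S * T) = if Odd (S.factorization 3 + T.factorization 3) then
      (dt n b (4 * S * T) * (Ff n S T 5 * Fs n S T)) else 0 := by
  have hST0 := mul_ne_zero hS hT
  have h4 : 4 * (S * T) ≠ 0 := mul_ne_zero (by norm_num) hST0
  have e1 : ∏ l ∈ ((4 * (S * T)).primeFactors.erase 2).erase 3, fac n (4 * (S * T)) l =
      Ff n S T 5 * Fs n S T := by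
    rw [Fs_eq, ← R1_four hF hST0]
    unfold R1 Ff
    by_cases h5 : 5 ∈ (S * T).primeFactors
    · have h5' : 5 ∈ ((4 * (S * T)).primeFactors.erase 2).erase 3 :=
        Finset.mem_erase.2 ⟨by norm_num, Finset.mem_erase.2 ⟨by norm_num,
          Nat.mem_primeFactors.2 ⟨p5, (Nat.dvd_of_mem_primeFactors h5).mul_left 4, h4⟩⟩⟩
      rw [if_pos h5, ← Finset.mul_prod_erase _ _ h5', fac_four hF hST0 p5 (by norm_num)]
    · have h5' : 5 ∉ ((4 * (S * T)).primeFactors.erase 2).erase 3 := by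
        intro h
        apply h5
        have h6 := Nat.dvd_of_mem_primeFactors (Finset.mem_of_mem_erase (Finset.mem_of_mem_erase h))
        refine Nat.mem_primeFactors.2 ⟨p5, ?_, hST0⟩
        exact (p5.dvd_mul.1 h6).resolve_left (by norm_num)
      rw [if_neg h5, one_mul, Finset.erase_eq_of_notMem h5']
  have e : l1 n b (4 * S * T) = if Odd ((4 * (S * T)).factorization 3) then
      dt n b (4 * S * T) * ∏ l ∈ ((4 * (S * T)).primeFactors.erase 2).erase 3,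
        fac n (4 * (S * T)) l else 0 := by
    rw [mul_assoc 4 S T]
    rfl
  rw [e, e1, vp4 p3 (by norm_num) hS hT]

/-! ### `3` inert, `5` split -/

/-- the class of `n` -/
theorem cls_n {A m : ℕ} (h : (Aii A ∧ Nsi m) ∨ (Ass A ∧ Nis m)) :
    (A = 1 ∨ N969.RQ.Fd A) ∧ Fn m ∧ A * m % 3 = 1 ∧ (A * m % 5 = 1 ∨ A * m % 5 = 4) := by
  rcases h with ⟨⟨h1, h2, h3⟩, h4, h5, h6⟩ | ⟨⟨h1, h2, h3⟩, h4, h5, h6⟩
  · refine ⟨Ps_Fd h1, h4, by simp [Nat.mul_mod, h2, h5], ?_⟩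
    rcases h3 with h3 | h3 <;> rcases h6 with h6 | h6 <;> simp [Nat.mul_mod, h3, h6]
  · refine ⟨Ps_Fd h1, h4, by simp [Nat.mul_mod, h2, h5], ?_⟩
    rcases h3 with h3 | h3 <;> rcases h6 with h6 | h6 <;> simp [Nat.mul_mod, h3, h6]

/-- the signs and the factor at `2` -/
theorem key_M {A m : ℕ} (hA : A = 1 ∨ N969.RQ.Fd A) (hm : Fn m) (hcop : Nat.Coprime A m)
    (h3 : A * m % 3 = 1) (h5 : A * m % 5 = 1 ∨ A * m % 5 = 4) {S T : ℕ} (hS : S ≠ 0) (hT : T ≠ 0)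
    (hST : S + T = 1 * (A * m)) (hT3 : 3 ∣ T) (ho : Odd (T.factorization 3)) :
    (∏ l ∈ m.primeFactors, eT (A * m) T l) * (L2 (A * m) S T * Fs (A * m) S T) =
      sgnE 1 A (A * m) T * (M2 (A * m) S T * Fs (A * m) S T) := by
  obtain ⟨hF, _⟩ := Fn_mul hA hm hcop
  have hFF := FF_of hF
  obtain ⟨n3, P3⟩ := Ps3_inert hFF h3
  obtain ⟨n5, P5⟩ := Ps5_split hFF h5
  have hA3 : ¬ 3 ∣ A := fun h => by have := h.mul_right m; omega
  have hA5 : ¬ 5 ∣ A := fun h => by have := h.mul_right m; omega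
  have hS3 : ¬ 3 ∣ S := by
    intro h
    have h6 : 3 ∣ 1 * (A * m) := hST ▸ dvd_add h hT3
    omega
  have m1 := main_m hA hm hcop (Or.inl rfl) hS hT hST (fun h => absurd h hA3)
    (fun h => absurd h hA5)
  have m2 := main_2 hF (Or.inl rfl) hS hT hST
  have d1 : dl (A * m) T = -1 := by
    unfold dl
    rw [if_neg n3, if_neg n5]
    have P3' : Pool.Agent.N295.P15.E.Ps (A * m) 3 = -1 := P3
    have P5' : Pool.Agent.N295.P15.E.Ps (A * m) 5 = 1 := P5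
    rw [P3', P5', one_pow, mul_one, ho.neg_one_pow]
  have d2 : dl (A * m) S = 1 := by
    unfold dl
    rw [if_neg n3, if_neg n5]
    have P5' : Pool.Agent.N295.P15.E.Ps (A * m) 5 = 1 := P5
    rw [P5', one_pow, mul_one, Nat.factorization_eq_zero_of_not_dvd hS3, pow_zero]
  have d3 : hl (A * m) S T 3 = 1 := if_neg n3
  have d5 : hl (A * m) S T 5 = 1 := if_neg n5
  rw [d1] at m1
  rw [d1, d2, d3, d5] at m2
  rw [m1]
  have m4 : L2 (A * m) S T * Fs (A * m) S T = M2 (A * m) S T * Fs (A * m) S T := by linarith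
  rw [m4]
  ring

theorem t_C2M : N973.P15G.S_C2M := by
  intro A m h hcop T hT0 hTn hT3 hS5
  obtain ⟨hA, hm, h3, h5⟩ := cls_n h
  obtain ⟨hF, _⟩ := Fn_mul hA hm hcop
  have hFF := FF_of hF
  have hA0 : A ≠ 0 := by rintro rfl; exact hFF.n0 (by rw [zero_mul])
  have hm0 : m ≠ 0 := Fn_ne hm
  obtain ⟨n3, P3⟩ := Ps3_inert hFF h3
  obtain ⟨n5, P5⟩ := Ps5_split hFF h5
  obtain ⟨S, hSdef⟩ : ∃ S, S = A * m - T := ⟨_, rfl⟩
  rw [← hSdef] at hS5 ⊢
  have hST : S + T = 1 * (A * m) := by omega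
  have hS : S ≠ 0 := by omega
  have hT : T ≠ 0 := by omega
  have hT5 : ¬ 5 ∣ T := by
    intro h
    have h6 : 5 ∣ 1 * (A * m) := hST ▸ dvd_add hS5 h
    omega
  have hS3 : ¬ 3 ∣ S := by
    intro h
    have h6 : 3 ∣ 1 * (A * m) := hST ▸ dvd_add h hT3
    omega
  rw [W2_DS hA0 hm0 hcop, DS_val lev_M hFF (Or.inl rfl) hS hT hST
    (Lc_I01 n3 P3 (Or.inl hS3)) (Lc_S10 n5 P5 hT5), sdiff_m hA0 hm0 hcop,
    sg_eq (dvd_mul_right A m) hFF.n0, l5_val hFF hS hT, ← M2_dt hF hS hT hST,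
    Nat.factorization_eq_zero_of_not_dvd hS3, Nat.factorization_eq_zero_of_not_dvd hT5,
    zero_add, add_zero]
  by_cases ho : Odd (T.factorization 3)
  · rw [if_pos ho, if_pos ho]
    have k := key_M hA hm hcop h3 h5 hS hT hST hT3 ho
    unfold Fs at *
    linear_combination (-(S.factorization 5 : ℤ)) * k
  · rw [if_neg ho, if_neg ho]
    ring

theorem t_C2L4 : N973.P15G.S_C2L4 := by
  intro A m hA' hm' hcop T hT0 hTn hT3
  obtain ⟨hA, hm, h3, h5⟩ := cls_n (Or.inr ⟨hA', hm'⟩)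
  obtain ⟨hF, _⟩ := Fn_mul hA hm hcop
  have hFF := FF_of hF
  have hA0 : A ≠ 0 := by rintro rfl; exact hFF.n0 (by rw [zero_mul])
  have hm0 : m ≠ 0 := Fn_ne hm
  obtain ⟨n3, P3⟩ := Ps3_inert hFF h3
  obtain ⟨n5, P5⟩ := Ps5_split hFF h5
  obtain ⟨S, hSdef⟩ : ∃ S, S = A * m - T := ⟨_, rfl⟩
  rw [← hSdef]
  have hST : S + T = 1 * (A * m) := by omega
  have hS : S ≠ 0 := by omega
  have hT : T ≠ 0 := by omega
  have hS3 : ¬ 3 ∣ S := by
    intro h
    have h6 : 3 ∣ 1 * (A * m) := hST ▸ dvd_add h hT3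
    omega
  rw [W3_DS hA0 hm0 hcop, DS_val lev_3 hFF (Or.inl rfl) hS hT hST
    (Lc_I01 n3 P3 (Or.inl hS3)) (Lc_5 hFF (Or.inl rfl) hS hT hST n5), sdiff_m hA0 hm0 hcop,
    sg_eq (dvd_mul_right A m) hFF.n0, l1_val hFF hS hT, ← M2_dt hF hS hT hST,
    Nat.factorization_eq_zero_of_not_dvd hS3, zero_add]
  by_cases ho : Odd (T.factorization 3)
  · rw [if_pos ho, if_pos ho]
    have k := key_M hA hm hcop h3 h5 hS hT hST hT3 ho
    unfold Fs at *
    linear_combination (-(Ff (A * m) S T 5)) * k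
  · rw [if_neg ho, if_neg ho]
    ring

theorem t_C2W4 : N973.P15G.S_C2W4 := by
  intro n hn k hk T hT0 hTn hT5 hS3
  obtain ⟨hF, h3, h5⟩ := hn
  have hF : Fn n := hF
  have hFF := FF_of hF
  obtain ⟨n3, P3⟩ := Ps3_inert hFF h3
  obtain ⟨n5, P5⟩ := Ps5_split hFF h5
  obtain ⟨S, hSdef⟩ : ∃ S, S = k * n - T := ⟨_, rfl⟩
  rw [← hSdef] at hS3 ⊢
  have hST : S + T = k * n := by omega
  have hS : S ≠ 0 := by omega
  have hT : T ≠ 0 := by omega
  have hT3 : ¬ 3 ∣ T := by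
    intro h
    have h6 : 3 ∣ k * n := hST ▸ dvd_add hS3 h
    have := dvd_cn hk p3 (by norm_num) h6
    omega
  have hS5 : ¬ 5 ∣ S := by
    intro h
    have h6 : 5 ∣ k * n := hST ▸ dvd_add h hT5
    have := dvd_cn hk p5 (by norm_num) h6
    omega
  have e0 : (if 2 ∣ n then WWe n S T else WW n S T) = DS (3 ∣ ·) (5 ∣ ·) n ∅ S T := by
    split_ifs with h2
    · exact WWe_DS ⟨Fn_two hF h2⟩ S T
    · exact WW_DS (Fn_odd hF h2) S T
  have m1 := main_T hF hk hS hT hST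
  have m2 := main_2 hF hk hS hT hST
  have P3' : Pool.Agent.N295.P15.E.Ps n 3 = -1 := P3
  have P5' : Pool.Agent.N295.P15.E.Ps n 5 = 1 := P5
  have d1 : dl n T = 1 := by
    unfold dl
    rw [if_neg n3, if_neg n5, P5', one_pow, mul_one, Nat.factorization_eq_zero_of_not_dvd hT3,
      pow_zero]
  have d2 : dl n S = (-1) ^ S.factorization 3 := by
    unfold dl
    rw [if_neg n3, if_neg n5, P3', P5', one_pow, mul_one]
  have d3 : hl n S T 3 = 1 := if_neg n3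
  have d5 : hl n S T 5 = 1 := if_neg n5
  rw [d1] at m1
  rw [d1, d2, d3, d5] at m2
  rw [e0, DS_val lev_W hFF hk hS hT hST (Lc_I10 n3 P3 hT3) (Lc_S01 n5 P5 hS5),
    Finset.sdiff_empty, l5_val hFF hS hT, l5_val' hS hT, Nat.factorization_eq_zero_of_not_dvd hT3,
    Nat.factorization_eq_zero_of_not_dvd hS5, add_zero, zero_add]
  by_cases ho : Odd (S.factorization 3)
  · rw [if_pos ho, if_pos ho, if_pos ho]
    rw [ho.neg_one_pow] at m2
    have hM : M2 n S T = dt n (2 * T - (k * n : ℕ)) (4 * S * T) +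
        if k = 2 ∧ 2 ∣ T ∧ ¬ 2 ∣ n then ep2 n * dt n 0 (S * T) else 0 := by
      unfold dt
      by_cases h2 : 2 ∣ n
      · rw [if_pos h2, if_neg (fun h : k = 2 ∧ 2 ∣ T ∧ ¬ 2 ∣ n => h.2.2 h2),
          M2_tb (Fn_two hF h2) hST, add_zero]
      · rw [if_neg h2, if_neg h2, M2_tw (Fn_odd hF h2) hk hS hT hST, mul_assoc 4 S T]
        by_cases h6 : k = 2 ∧ 2 ∣ T
        · rw [if_pos h6, if_pos (⟨h6.1, h6.2, h2⟩ : k = 2 ∧ 2 ∣ T ∧ ¬ 2 ∣ n)]
        · rw [if_neg h6, if_neg (fun h : k = 2 ∧ 2 ∣ T ∧ ¬ 2 ∣ n => h6 ⟨h.1, h.2.1⟩)]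
    have hM' : (T.factorization 5 : ℤ) * (dt n (2 * T - (k * n : ℕ)) (4 * S * T) * Fs n S T) +
        (if k = 2 ∧ 2 ∣ T ∧ ¬ 2 ∣ n then
          ep2 n * ((T.factorization 5 : ℤ) * (dt n 0 (S * T) * Fs n S T)) else 0) =
        (T.factorization 5 : ℤ) * (M2 n S T * Fs n S T) := by
      rw [hM]
      split_ifs <;> ring
    rw [hM']
    unfold Fs at *
    generalize ∏ l ∈ n.primeFactors, eT n T l = a at *
    generalize ∏ l ∈ Q' n S T, Ff n S T l = F at *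
    have m4 : L2 n S T * F = M2 n S T * F := by linarith
    linear_combination (-(T.factorization 5 : ℤ)) * m1 + (T.factorization 5 : ℤ) * m4
  · rw [if_neg ho, if_neg ho, if_neg ho]
    split_ifs <;> ring

end Pool.Agent.N871.G15
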