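import Pool.Agent.N871.P15G.Sig
import Pool.Agent.N99.P17G.Van2

/-!
# P15G: the signs of `v ↦ -v`, of the rotation of order six and of the rotation of norm `15`
-/

set_option autoImplicit false

namespace Pool.Agent.N871.P15G

open Finset
open Pool.Agent.N969.P15 (V3 Ev c2)
open Pool.Agent.N877.P21 (ip vec rr)
open Pool.Agent.N218.P21 (mem_vec)
open Pool.Agent.N969.P17G (sgp sg2 sgn sgnE t2)
open Pool.Agent.N970.P17G (hs hs_mul hs_sq_mul hs_two hs_norm hs_pm sg2_ne sg2_zero)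
open Pool.Agent.N973.P15G hiding sg P Q
open Pool.Agent.N99.P17G (jac_prod' jac_neg_one jac_neg_one' gcd_one jac_sq_mul)

/-! ### the decomposition of a unitary divisor -/

/-- the three shapes of a unitary divisor `A` of `n` (`- n` a fundamental discriminant) -/
theorem shape {n A m : ℕ} (hn : Ng n) (hm : A * m = n) (hc : Nat.Coprime A m) :
    (¬ 2 ∣ A ∧ Squarefree A ∧ ((¬ 2 ∣ m ∧ Squarefree m ∧ (A * m) % 4 = 3) ∨
      ∃ r, m = 4 * r ∧ Squarefree r ∧ ((A * r) % 4 = 1 ∨ (A * r) % 4 = 2))) ∨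
    (∃ N, A = 4 * N ∧ ¬ 2 ∣ N ∧ Squarefree N ∧ ¬ 2 ∣ m ∧ Squarefree m ∧ (N * m) % 4 = 1 ∧
      n % 16 = 4) ∨
    ∃ N, A = 8 * N ∧ ¬ 2 ∣ N ∧ Squarefree N ∧ ¬ 2 ∣ m ∧ Squarefree m ∧
      (((N * m) % 4 = 1 ∧ n % 32 = 8) ∨ ((N * m) % 4 = 3 ∧ n % 32 = 24)) := by
  rcases hn with ⟨hs, h4⟩ | ⟨k, hk, hs, h4⟩
  · left
    have h2 : ¬ 2 ∣ A := fun h => by have := h.mul_right m; omega
    have h2m : ¬ 2 ∣ m := fun h => by have := h.mul_left A; omega
    exact ⟨h2, hs.squarefree_of_dvd ⟨m, hm.symm⟩, Or.inl ⟨h2m,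
      hs.squarefree_of_dvd ⟨A, by rw [← hm]; ring⟩, by omega⟩⟩
  · by_cases h2 : 2 ∣ A
    · right
      have h2m : ¬ 2 ∣ m := fun h => by
        have := Nat.dvd_gcd h2 h
        rw [hc] at this
        omega
      have hcm : Nat.Coprime 2 m := (Nat.Prime.coprime_iff_not_dvd Nat.prime_two).2 h2m
      have h4A : 4 ∣ A := by
        have h1 : 4 ∣ A * m := ⟨k, by rw [hm, hk]⟩
        have hc4 : Nat.Coprime (2 ^ 2) m := hcm.pow_left 2
        exact hc4.dvd_of_dvd_mul_right h1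
      obtain ⟨M, rfl⟩ := h4A
      have hMk : M * m = k := by
        have : 4 * (M * m) = 4 * k := by rw [← hk, ← hm]; ring
        omega
      have hMs : Squarefree M := hs.squarefree_of_dvd ⟨m, hMk.symm⟩
      have hms : Squarefree m := hs.squarefree_of_dvd ⟨M, by rw [← hMk]; ring⟩
      by_cases hM2 : 2 ∣ M
      · right
        obtain ⟨N, rfl⟩ := hM2
        have hN2 : ¬ 2 ∣ N := by
          rintro ⟨c, rfl⟩
          have := hMs 2 ⟨c, by ring⟩
          rw [Nat.isUnit_iff] at this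
          omega
        have hNm : 2 * (N * m) = k := by rw [← hMk]; ring
        have hodd : (N * m) % 2 = 1 := by
          have : ¬ 2 ∣ N * m := fun h => (Nat.prime_two.dvd_mul.1 h).elim hN2 h2m
          omega
        refine ⟨N, by ring, hN2, hMs.squarefree_of_dvd ⟨2, by ring⟩, h2m, hms, ?_⟩
        generalize N * m = q at *
        omega
      · left
        have hodd : (M * m) % 2 = 1 := by
          have : ¬ 2 ∣ M * m := fun h => (Nat.prime_two.dvd_mul.1 h).elim hM2 h2m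
          omega
        refine ⟨M, rfl, hM2, hMs, h2m, hms, ?_, ?_⟩ <;> generalize M * m = q at * <;> omega
    · left
      have hc2 : Nat.Coprime A 2 :=
        ((Nat.Prime.coprime_iff_not_dvd Nat.prime_two).2 h2).symm
      have hc4 : Nat.Coprime A (2 ^ 2) := hc2.pow_right 2
      have hAk : A ∣ k := hc4.dvd_of_dvd_mul_left (k := A) ⟨m, by rw [hm, hk]; rfl⟩
      obtain ⟨r, hr⟩ := hAk
      have hA0 : 0 < A := by
        rcases Nat.eq_zero_or_pos A with h | h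
        · subst h
          simp at h2
        · exact h
      have hmr : m = 4 * r := by
        have : A * m = A * (4 * r) := by rw [hm, hk, hr]; ring
        exact Nat.eq_of_mul_eq_mul_left hA0 this
      refine ⟨h2, hs.squarefree_of_dvd ⟨r, hr⟩, Or.inr ⟨r, hmr,
        hs.squarefree_of_dvd ⟨A, by rw [hr]; ring⟩, by rw [← hr]; exact h4⟩⟩

/-- the product over an odd squarefree number -/
theorem prod_lo {n N : ℕ} (a T : ℤ) (hs : Squarefree N) (h2 : ¬ 2 ∣ N)
    (h : ∀ p ∈ N.primeFactors, sgp 1 n p T = jacobiSym a p) :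
    ∏ p ∈ N.primeFactors, lo n p T = jacobiSym a N := by
  rw [← jac_prod' _ hs]
  refine prod_congr rfl fun p hp => ?_
  unfold lo
  rw [if_neg, h p hp]
  rintro rfl
  exact h2 (Nat.dvd_of_mem_primeFactors hp)

theorem pf_pow {N k : ℕ} (hN : ¬ 2 ∣ N) (hk : k ≠ 0) :
    (2 ^ k * N).primeFactors = insert 2 N.primeFactors := by
  have hN0 : N ≠ 0 := by rintro rfl; simp at hN
  rw [Nat.primeFactors_mul (by positivity) hN0, Nat.primeFactors_prime_pow hk Nat.prime_two]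
  rfl

/-- the product over an even divisor -/
theorem prod_lo2 {n N k : ℕ} (a T : ℤ) (hs : Squarefree N) (h2 : ¬ 2 ∣ N) (hk : k ≠ 0)
    (h : ∀ p ∈ N.primeFactors, sgp 1 n p T = jacobiSym a p) :
    ∏ p ∈ (2 ^ k * N).primeFactors, lo n p T = sg2 1 n T * jacobiSym a N := by
  have h2N : 2 ∉ N.primeFactors := fun h => h2 (Nat.dvd_of_mem_primeFactors h)
  rw [pf_pow h2 hk, prod_insert h2N, prod_lo a T hs h2 h]
  unfold lo
  rw [if_pos rfl]

/-! ### the sign of `v ↦ -v` -/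

theorem sgp_zero (n p : ℕ) : sgp 1 n p 0 = jacobiSym (-1) p := by
  unfold sgp
  simp

theorem neg_or {n A : ℕ} (hn : Ng n) (hU : Ud n A) :
    N973.P15G.sg A n 0 = -1 ∨ ((A = 1 ∨ Ps A) ∧ Ng (n / A)) := by
  obtain ⟨⟨m, hm⟩, hc⟩ := hU
  have hn0 : n ≠ 0 := by
    rcases hn with ⟨h, -⟩ | ⟨k, rfl, h, -⟩
    · exact h.ne_zero
    · have := h.ne_zero
      omega
  have hA0 : 0 < A := by
    rcases Nat.eq_zero_or_pos A with h | h
    · subst h; rw [zero_mul] at hm; exact absurd hm hn0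
    · exact h
  have hd : n / A = m := by rw [hm]; exact Nat.mul_div_cancel_left _ hA0
  rw [hd] at hc ⊢
  rw [sg_prod ⟨m, hm⟩]
  rcases shape hn hm.symm hc with ⟨h2, hs, h⟩ | ⟨N, rfl, hN2, hNs, hm2, hms, h4, -⟩ |
    ⟨N, rfl, hN2, hNs, hm2, hms, h4⟩
  · rw [prod_lo (-1) 0 hs h2 fun p _ => sgp_zero n p]
    by_cases hA4 : A % 4 = 3
    · left
      exact jac_neg_one hA4
    · right
      have hA1 : A % 4 = 1 := by omega
      refine ⟨?_, ?_⟩
      · by_cases h1 : A = 1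
        · exact Or.inl h1
        · exact Or.inr (Or.inl ⟨hs, hA1, by omega⟩)
      · rcases h with ⟨-, hms, h4⟩ | ⟨r, rfl, hrs, h4⟩
        · left
          refine ⟨hms, ?_⟩
          rw [Nat.mul_mod, hA1, one_mul, Nat.mod_mod] at h4
          exact h4
        · right
          refine ⟨r, rfl, hrs, ?_⟩
          rw [Nat.mul_mod, hA1, one_mul, Nat.mod_mod] at h4
          exact h4
  · have e : 4 * N = 2 ^ 2 * N := by norm_num
    rw [e, prod_lo2 (-1) 0 hNs hN2 two_ne_zero fun p _ => sgp_zero n p, ← e, sg2_zero]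
    by_cases hm3 : m % 4 = 3
    · right
      have hN3 : N % 4 = 3 := by
        rw [Nat.mul_mod, hm3] at h4
        have : N % 4 < 4 := Nat.mod_lt _ (by norm_num)
        interval_cases N % 4 <;> omega
      exact ⟨Or.inr (Or.inr ⟨N, rfl, hNs, Or.inr hN3⟩), Or.inl ⟨hms, hm3⟩⟩
    · left
      have hm1 : m % 4 = 1 := by omega
      have hN1 : N % 4 = 1 := by
        rw [Nat.mul_mod, hm1, mul_one, Nat.mod_mod] at h4
        exact h4
      have hn16 : n % 16 = 4 := by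
        rw [hm]
        have e2 : 4 * N * m = 4 * (N * m) := by ring
        rw [e2]
        generalize N * m = q at *
        omega
      have hc2 : c2 n (-1) = -1 := by
        unfold c2
        rw [if_neg (by norm_num), if_pos hn16, if_neg (by norm_num)]
      rw [hc2, jac_neg_one' hN1]
      norm_num
  · have e : 8 * N = 2 ^ 3 * N := by norm_num
    rw [e, prod_lo2 (-1) 0 hNs hN2 three_ne_zero fun p _ => sgp_zero n p, ← e, sg2_zero]
    by_cases hm3 : m % 4 = 3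
    · right
      refine ⟨Or.inr (Or.inr ⟨2 * N, by ring, ?_, ?_⟩), Or.inl ⟨hms, hm3⟩⟩
      · rw [Nat.squarefree_mul_iff]
        exact ⟨(Nat.Prime.coprime_iff_not_dvd Nat.prime_two).2 hN2, Nat.prime_two.squarefree, hNs⟩
      · left; omega
    · left
      have hm1 : m % 4 = 1 := by omega
      rcases h4 with ⟨h4, h32⟩ | ⟨h4, h32⟩
      · have hN1 : N % 4 = 1 := by
          rw [Nat.mul_mod, hm1, mul_one, Nat.mod_mod] at h4
          exact h4
        have hc2 : c2 n (-1) = -1 := by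
          unfold c2
          rw [if_neg (by norm_num), if_neg (by omega), if_pos h32, if_neg (by norm_num)]
        rw [hc2, jac_neg_one' hN1]
        norm_num
      · have hN1 : N % 4 = 3 := by
          rw [Nat.mul_mod, hm1, mul_one, Nat.mod_mod] at h4
          exact h4
        have hc2 : c2 n (-1) = 1 := by
          unfold c2
          rw [if_neg (by norm_num), if_neg (by omega), if_neg (by omega), if_pos (by norm_num)]
        rw [hc2, jac_neg_one hN1]
        norm_num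

/-! ### the rotation of order six -/

theorem ip_om_self (v : V3) : 2 * ip v (om v) = ip v v + 3 * v 0 ^ 2 := by
  simp only [ip, om, Matrix.cons_val_zero, Matrix.cons_val_one, Matrix.cons_val]
  ring

theorem mem_om {n : ℤ} {v : V3} (hv : v ∈ vec n) : om v ∈ vec n := by
  rw [mem_vec] at hv ⊢
  rw [ip_om, hv]

/-- the argument of the sign of the rotation of order six -/
theorem om_T {n : ℤ} {v : V3} (hv : v ∈ vec n) :
    4 * ((n + ip v (om v)) / 2) = 3 * (v 0 ^ 2 + n) := by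
  have h1 := par (mem_vec.1 hv) (mem_vec.1 (mem_om hv))
  have h2 := ip_om_self v
  rw [mem_vec.1 hv] at h2
  linarith

theorem not_dvd_of_prime {p : ℕ} (hp : p.Prime) {k : ℕ} (hk : k.Prime) (h : p ≠ k) :
    ¬ (p : ℤ) ∣ k := by
  intro h1
  have h2 : p ∣ k := by exact_mod_cast h1
  exact h ((Nat.prime_dvd_prime_iff_eq hp hk).1 h2)

theorem jac_four {p : ℕ} (hp : p.Prime) (h2 : p ≠ 2) (x : ℤ) :
    jacobiSym (4 * x) p = jacobiSym x p := by
  have : Fact p.Prime := ⟨hp⟩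
  have e : (4 : ℤ) * x = 2 ^ 2 * x := by ring
  rw [e, jacobiSym.mul_left, jacobiSym.sq_one' (gcd_one (by
    exact_mod_cast not_dvd_of_prime hp Nat.prime_two h2)), one_mul]

/-- the sign of the rotation of order six at an odd prime -/
theorem sgp_om {n p : ℕ} (hp : p.Prime) (h2 : p ≠ 2) (h3 : p ≠ 3) (hn : p ∣ n) (hn2 : ¬ p ^ 2 ∣ n)
    {x T : ℤ} (hT : 4 * T = 3 * (x ^ 2 + n)) : sgp 1 n p T = jacobiSym 3 p := by
  have : Fact p.Prime := ⟨hp⟩
  have hpi := Nat.prime_iff_prime_int.1 hp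
  have hp0 : (p : ℤ) ≠ 0 := hpi.ne_zero
  have n3 : ¬ (p : ℤ) ∣ 3 := by exact_mod_cast not_dvd_of_prime hp Nat.prime_three h3
  have n2 : ¬ (p : ℤ) ∣ 2 := by exact_mod_cast not_dvd_of_prime hp Nat.prime_two h2
  have n4 : ¬ (p : ℤ) ∣ 4 := by
    intro h
    have e : (4 : ℤ) = 2 * 2 := by norm_num
    rw [e] at h
    exact (hpi.dvd_or_dvd h).elim n2 n2
  obtain ⟨n', hn'⟩ := hn
  have hnp : n / p = n' := by rw [hn']; exact Nat.mul_div_cancel_left _ hp.pos
  have hn0 : ¬ (p : ℤ) ∣ n' := by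
    intro h
    have h3 : p ∣ n' := by exact_mod_cast h
    obtain ⟨k, hk⟩ := h3
    exact hn2 ⟨k, by rw [hn', hk]; ring⟩
  unfold sgp
  by_cases hx : (p : ℤ) ∣ x
  · obtain ⟨y, rfl⟩ := hx
    have h4 : 4 * T = p * (3 * (p * y ^ 2 + n')) := by rw [hT, hn']; push_cast; ring
    have hpT : (p : ℤ) ∣ T := by
      have : (p : ℤ) ∣ 4 * T := ⟨_, h4⟩
      exact (hpi.dvd_or_dvd this).resolve_left n4
    obtain ⟨t, rfl⟩ := hpT
    have ht : 4 * t = 3 * (p * y ^ 2 + n') := by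
      apply mul_left_cancel₀ hp0
      linear_combination h4
    have e1 : (p : ℤ) * t / p = t := Int.mul_ediv_cancel_left _ hp0
    have hpt : ¬ (p : ℤ) ∣ t := by
      intro h
      have h5 : (p : ℤ) ∣ 3 * (p * y ^ 2 + n') := by rw [← ht]; exact h.mul_left 4
      rcases hpi.dvd_or_dvd h5 with h6 | h6
      · exact n3 h6
      · exact hn0 ((dvd_add_right (dvd_mul_right _ _)).1 h6)
    rw [if_pos (dvd_mul_right _ _), e1, if_neg hpt, hnp]
    rw [← jac_four hp h2, ← mul_assoc, ht]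
    have e2 : jacobiSym (3 * ((p : ℤ) * y ^ 2 + n') * (n' : ℤ)) p = jacobiSym (3 * (n' : ℤ) ^ 2) p := by
      apply jacobiSym.mod_left'
      apply Int.emod_emod_of_dvd _ (dvd_refl _) |>.symm.trans
      rw [Int.emod_emod_of_dvd _ (dvd_refl _)]
      apply Int.ModEq.symm
      rw [Int.modEq_iff_dvd]
      exact ⟨3 * y ^ 2 * n', by ring⟩
    rw [e2, jacobiSym.mul_left, jacobiSym.sq_one' (gcd_one hn0), mul_one]
  · have hpT : ¬ (p : ℤ) ∣ T := by
      intro h
      have h5 : (p : ℤ) ∣ 3 * (x ^ 2 + n) := by rw [← hT]; exact h.mul_left 4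
      rcases hpi.dvd_or_dvd h5 with h6 | h6
      · exact n3 h6
      · have h7 : (p : ℤ) ∣ x ^ 2 := by
          have : (p : ℤ) ∣ (n : ℤ) := ⟨n', by rw [hn']; push_cast; ring⟩
          exact (dvd_add_left this).1 h6
        exact hx (hpi.dvd_of_dvd_pow h7)
    rw [if_neg hpT, ← jac_four hp h2, hT]
    have e2 : jacobiSym (3 * (x ^ 2 + (n : ℤ))) p = jacobiSym (3 * x ^ 2) p := by
      apply jacobiSym.mod_left'
      apply Int.ModEq.symm
      rw [Int.modEq_iff_dvd]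
      exact ⟨3 * n', by rw [hn']; push_cast; ring⟩
    rw [e2, jacobiSym.mul_left, jacobiSym.sq_one' (gcd_one hx), mul_one]

theorem hs_three (n : ℕ) : hs n 3 = c2 n 3 := by
  have := Pool.Agent.N970.P17G.hs_of n (u := 3) (by norm_num) 0
  simpa using this

/-- the sign of the rotation of order six at two -/
theorem sg2_om {n : ℕ} (hn : Ev n) {x T : ℤ} (hT : 4 * T = 3 * (x ^ 2 + n)) :
    sg2 1 n T = c2 n 3 := by
  have hn0 : 0 < (n : ℤ) := by
    obtain ⟨m, rfl, hs, _⟩ := hn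
    have := hs.ne_zero
    exact_mod_cast (by omega : 0 < 4 * m)
  have hq : x ^ 2 + (n : ℤ) ≠ 0 := by positivity
  have hT0 : T ≠ 0 := by
    rintro rfl
    apply hq
    linarith
  rw [sg2_ne hT0]
  have e : hs n T = hs n (2 ^ 2 * T) := (hs_sq_mul n two_ne_zero hT0).symm
  have e2 : (2 : ℤ) ^ 2 * T = 3 * (x ^ 2 + n * 1 ^ 2) := by rw [one_pow, mul_one, ← hT]; norm_num
  rw [e, e2, hs_mul n three_ne_zero (by simpa using hq), hs_norm hn (by simpa using hq), mul_one,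
    hs_three]

theorem jac3_one {N : ℕ} (h : N % 4 = 1) : jacobiSym 3 N = jacobiSym N 3 := by
  have := jacobiSym.quadratic_reciprocity_one_mod_four' (a := 3) (b := N) (by decide) h
  exact_mod_cast this

theorem jac3_three {N : ℕ} (h : N % 4 = 3) : jacobiSym 3 N = - jacobiSym N 3 := by
  have := jacobiSym.quadratic_reciprocity_three_mod_four (a := 3) (b := N) (by norm_num) h
  exact_mod_cast this

theorem jac15_one {N : ℕ} (h : N % 4 = 1) : jacobiSym 15 N = jacobiSym N 15 := by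
  have := jacobiSym.quadratic_reciprocity_one_mod_four' (a := 15) (b := N) (by decide) h
  exact_mod_cast this

theorem jac15_three {N : ℕ} (h : N % 4 = 3) : jacobiSym 15 N = - jacobiSym N 15 := by
  have := jacobiSym.quadratic_reciprocity_three_mod_four (a := 15) (b := N) (by norm_num) h
  exact_mod_cast this

/-- the shape of a divisor belonging to a positive discriminant -/
theorem shape' {n A : ℕ} (hn : Ng n) (hU : Ud n A) (hA : A = 1 ∨ Ps A) (hm : Ng (n / A)) :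
    (¬ 2 ∣ A ∧ Squarefree A ∧ A % 4 = 1) ∨
    (∃ N, A = 4 * N ∧ ¬ 2 ∣ N ∧ Squarefree N ∧ N % 4 = 3 ∧ n % 16 = 4 ∧ Ev n) ∨
    ∃ N, A = 8 * N ∧ ¬ 2 ∣ N ∧ Squarefree N ∧
      ((N % 4 = 3 ∧ n % 32 = 8) ∨ (N % 4 = 1 ∧ n % 32 = 24)) ∧ Ev n := by
  obtain ⟨⟨m, hm'⟩, hc⟩ := hU
  have hn0 : n ≠ 0 := by
    rcases hn with ⟨h, -⟩ | ⟨k, rfl, h, -⟩
    · exact h.ne_zero
    · have := h.ne_zero
      omega
  have hA0 : 0 < A := by
    rcases Nat.eq_zero_or_pos A with h | h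
    · subst h; rw [zero_mul] at hm'; exact absurd hm' hn0
    · exact h
  have hd : n / A = m := by rw [hm']; exact Nat.mul_div_cancel_left _ hA0
  rw [hd] at hc hm
  rcases shape hn hm'.symm hc with ⟨h2, hs, h⟩ | ⟨N, rfl, hN2, hNs, hm2, hms, h4, h16⟩ |
    ⟨N, rfl, hN2, hNs, hm2, hms, h4⟩
  · left
    refine ⟨h2, hs, ?_⟩
    rcases hA with rfl | ⟨_, h, _⟩ | ⟨M, rfl, -⟩
    · rfl
    · exact h
    · exact absurd ⟨2 * M, by ring⟩ h2
  · right; left
    have hm3 : m % 4 = 3 := by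
      rcases hm with ⟨-, h⟩ | ⟨k, rfl, -⟩
      · exact h
      · exact absurd ⟨2 * k, by ring⟩ hm2
    have hEv : Ev n := by
      rcases hn with ⟨h, h'⟩ | h
      · rw [hm'] at h'
        have : 4 ∣ 4 * N * m := ⟨N * m, by ring⟩
        omega
      · exact h
    refine ⟨N, rfl, hN2, hNs, ?_, h16, hEv⟩
    rw [Nat.mul_mod, hm3] at h4
    have : N % 4 < 4 := Nat.mod_lt _ (by norm_num)
    interval_cases N % 4 <;> omega
  · right; right
    have hm3 : m % 4 = 3 := by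
      rcases hm with ⟨-, h⟩ | ⟨k, rfl, -⟩
      · exact h
      · exact absurd ⟨2 * k, by ring⟩ hm2
    have hEv : Ev n := by
      rcases hn with ⟨h, h'⟩ | h
      · rw [hm'] at h'
        have : 4 ∣ 8 * N * m := ⟨2 * (N * m), by ring⟩
        omega
      · exact h
    refine ⟨N, rfl, hN2, hNs, ?_, hEv⟩
    rcases h4 with ⟨h4, h5⟩ | ⟨h4, h5⟩
    · left
      refine ⟨?_, h5⟩
      rw [Nat.mul_mod, hm3] at h4
      have : N % 4 < 4 := Nat.mod_lt _ (by norm_num)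
      interval_cases N % 4 <;> omega
    · right
      refine ⟨?_, h5⟩
      rw [Nat.mul_mod, hm3] at h4
      have : N % 4 < 4 := Nat.mod_lt _ (by norm_num)
      interval_cases N % 4 <;> omega

theorem c2_16 {n : ℕ} (h : n % 16 = 4) (u : ℤ) (hu : u % 4 = 3) : c2 n u = -1 := by
  unfold c2
  rw [if_neg (by omega), if_pos h, if_neg (by omega)]

theorem c2_8a {n : ℕ} (h : n % 32 = 8) (u : ℤ) (hu : u % 8 = 1 ∨ u % 8 = 3) : c2 n u = 1 := by
  unfold c2
  rw [if_neg (by omega), if_neg (by omega), if_pos h, if_pos hu]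

theorem c2_8b {n : ℕ} (h : n % 32 = 8) (u : ℤ) (hu : u % 8 = 5 ∨ u % 8 = 7) : c2 n u = -1 := by
  unfold c2
  rw [if_neg (by omega), if_neg (by omega), if_pos h, if_neg (by omega)]

theorem c2_24a {n : ℕ} (h : n % 32 = 24) (u : ℤ) (hu : u % 8 = 1 ∨ u % 8 = 7) : c2 n u = 1 := by
  unfold c2
  rw [if_neg (by omega), if_neg (by omega), if_neg (by omega), if_pos hu]

theorem c2_24b {n : ℕ} (h : n % 32 = 24) (u : ℤ) (hu : u % 8 = 3 ∨ u % 8 = 5) : c2 n u = -1 := by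
  unfold c2
  rw [if_neg (by omega), if_neg (by omega), if_neg (by omega), if_neg (by omega)]

/-- the sign of the rotation of order six -/
theorem sg_om {n A : ℕ} (hn : Ng n) (hU : Ud n A) (h3 : ¬ 3 ∣ A) (hA : A = 1 ∨ Ps A)
    (hm : Ng (n / A)) {v : V3} (hv : v ∈ vec n) :
    N973.P15G.sg A n ((n + ip v (om v)) / 2) = jacobiSym A 3 := by
  have hT := om_T hv
  have hAn := hU.1
  rw [sg_prod hAn]
  have key : ∀ N : ℕ, N ∣ A → ¬ 2 ∣ N → ∀ p ∈ N.primeFactors,
      sgp 1 n p (((n : ℤ) + ip v (om v)) / 2) = jacobiSym 3 p := by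
    intro N hN h2 p hp
    have hp' := Nat.prime_of_mem_primeFactors hp
    have hpN := Nat.dvd_of_mem_primeFactors hp
    have hp2 : p ≠ 2 := by rintro rfl; exact h2 hpN
    have hp3 : p ≠ 3 := by rintro rfl; exact h3 (hpN.trans hN)
    exact sgp_om hp' hp2 hp3 ((hpN.trans hN).trans hAn) (sqf_of hn hp' hp2) hT
  rcases shape' hn hU hA hm with ⟨h2, hs, h4⟩ | ⟨N, rfl, hN2, hNs, hN4, h16, hEv⟩ |
    ⟨N, rfl, hN2, hNs, h4, hEv⟩
  · rw [prod_lo 3 _ hs h2 (key A (dvd_refl _) h2), jac3_one h4]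
  · have e : 4 * N = 2 ^ 2 * N := by norm_num
    rw [e, prod_lo2 3 _ hNs hN2 two_ne_zero (key N ⟨4, by ring⟩ hN2), sg2_om hEv hT,
      jac3_three hN4, c2_16 h16 3 (by norm_num)]
    push_cast
    rw [jacobiSym.mul_left]
    have : jacobiSym 4 3 = 1 := by decide +kernel
    rw [this]
    ring
  · have e : 8 * N = 2 ^ 3 * N := by norm_num
    rw [e, prod_lo2 3 _ hNs hN2 three_ne_zero (key N ⟨8, by ring⟩ hN2), sg2_om hEv hT]
    push_cast
    rw [jacobiSym.mul_left]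
    have : jacobiSym 8 3 = -1 := by decide +kernel
    rw [this]
    rcases h4 with ⟨h4, h32⟩ | ⟨h4, h32⟩
    · rw [jac3_three h4, c2_8a h32 3 (by norm_num)]
      ring
    · rw [jac3_one h4, c2_24b h32 3 (by norm_num)]

/-! ### the rotation of norm fifteen -/

/-- the coordinate along `(1, 1, 1)` -/
def cw (v : V3) : ℤ := (v 0 + 2 * v 1 + 2 * v 2) / 5

theorem cw_spec {v : V3} (h : (5 : ℤ) ∣ v 0 + 2 * v 1 + 2 * v 2) :
    v 0 + 2 * v 1 + 2 * v 2 = 5 * cw v := by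
  unfold cw
  omega

/-- the rotation by `π` about `(1, 1, 1)` -/
def rh (v : V3) : V3 := fun i => 2 * cw v - v i

theorem cw_rh {v : V3} (h : (5 : ℤ) ∣ v 0 + 2 * v 1 + 2 * v 2) : cw (rh v) = cw v := by
  have h1 := cw_spec h
  have h2 : rh v 0 + 2 * rh v 1 + 2 * rh v 2 = 5 * cw v := by
    unfold rh
    linarith
  have : cw (rh v) = (rh v 0 + 2 * rh v 1 + 2 * rh v 2) / 5 := rfl
  rw [this, h2]
  omega

theorem rh_rh {v : V3} (h : (5 : ℤ) ∣ v 0 + 2 * v 1 + 2 * v 2) : rh (rh v) = v := by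
  funext i
  have : rh (rh v) i = 2 * cw (rh v) - rh v i := rfl
  rw [this, cw_rh h]
  unfold rh
  ring

theorem mem_V {n : ℤ} {v : V3} : v ∈ V n ↔ ip v v = n ∧ (5 : ℤ) ∣ v 0 + 2 * v 1 + 2 * v 2 := by
  unfold V
  rw [mem_filter, mem_vec]

theorem ip_rh {v : V3} (h : (5 : ℤ) ∣ v 0 + 2 * v 1 + 2 * v 2) :
    ip v (rh v) = 30 * cw v ^ 2 - ip v v := by
  have h1 := cw_spec h
  have e : v 0 = 5 * cw v - 2 * v 1 - 2 * v 2 := by linarith
  simp only [ip, rh]
  rw [e]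
  ring

theorem mem_rh {n : ℤ} {v : V3} (hv : v ∈ V n) : rh v ∈ V n := by
  rw [mem_V] at hv ⊢
  obtain ⟨h1, h2⟩ := hv
  have h3 := cw_spec h2
  have e : v 0 = 5 * cw v - 2 * v 1 - 2 * v 2 := by linarith
  constructor
  · rw [← h1]
    simp only [ip, rh]
    rw [e]
    ring
  · refine ⟨cw v, ?_⟩
    unfold rh
    linarith

theorem rh_T {n : ℤ} {v : V3} (hv : v ∈ V n) : (n + ip v (rh v)) / 2 = 15 * cw v ^ 2 := by
  rw [mem_V] at hv
  rw [ip_rh hv.2, hv.1]
  omega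

theorem sub_V {n : ℤ} {v : V3} (hv : v ∈ V n) : v ∈ vec n := by
  rw [mem_V] at hv
  rw [mem_vec]
  exact hv.1

/-- the sign of the rotation at a prime not dividing `30` -/
theorem sgp_rh {n p : ℕ} (hp : p.Prime) (h2 : p ≠ 2) (h3 : p ≠ 3) (h5 : p ≠ 5) (hn : p ∣ n)
    (hn2 : ¬ p ^ 2 ∣ n) {v : V3} (hv : v ∈ V n) : sgp 1 n p (15 * cw v ^ 2) = jacobiSym 15 p := by
  have : Fact p.Prime := ⟨hp⟩
  have hpi := Nat.prime_iff_prime_int.1 hp
  have hp0 : (p : ℤ) ≠ 0 := hpi.ne_zero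
  have n3 : ¬ (p : ℤ) ∣ 3 := by exact_mod_cast not_dvd_of_prime hp Nat.prime_three h3
  have n5 : ¬ (p : ℤ) ∣ 5 := by exact_mod_cast not_dvd_of_prime hp Nat.prime_five h5
  have n2 : ¬ (p : ℤ) ∣ 2 := by exact_mod_cast not_dvd_of_prime hp Nat.prime_two h2
  have n15 : ¬ (p : ℤ) ∣ 15 := by
    intro h
    have e : (15 : ℤ) = 3 * 5 := by norm_num
    rw [e] at h
    exact (hpi.dvd_or_dvd h).elim n3 n5
  obtain ⟨h1, h4⟩ := mem_V.1 hv
  have h6 := cw_spec h4
  set c := cw v with hc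
  unfold sgp
  by_cases hx : (p : ℤ) ∣ c
  · obtain ⟨y, hy⟩ := hx
    have e1 : (15 : ℤ) * c ^ 2 = p * (p * (15 * y ^ 2)) := by rw [hy]; ring
    have e2 : (15 : ℤ) * c ^ 2 / p = p * (15 * y ^ 2) := by
      rw [e1]; exact Int.mul_ediv_cancel_left _ hp0
    rw [if_pos ⟨_, e1⟩, e2, if_pos (dvd_mul_right _ _)]
    -- `-15` is a square modulo `p`
    have hd : (p : ℤ) ∣ (-15) * v 2 ^ 2 - (8 * v 1 + 7 * v 2) ^ 2 := by
      have e3 : (-15) * v 2 ^ 2 - (8 * v 1 + 7 * v 2) ^ 2 =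
          -4 * ip v v + p * (y * (4 * (3 * (5 * (p * y) - 4 * v 1 - 4 * v 2) * 5))) := by
        have e : v 0 = 5 * (p * y) - 2 * v 1 - 2 * v 2 := by rw [← hy]; linarith
        simp only [ip]
        rw [e]
        ring
      rw [e3, h1]
      exact dvd_add (Dvd.dvd.mul_left (by exact_mod_cast hn) _) (dvd_mul_right _ _)
    have hv2 : ¬ (p : ℤ) ∣ v 2 := by
      rintro ⟨z, hz⟩
      have h7 : (p : ℤ) ∣ (8 * v 1 + 7 * v 2) ^ 2 := by
        have h8 : (p : ℤ) ∣ (-15) * v 2 ^ 2 := ⟨-15 * z * v 2, by rw [hz]; ring⟩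
        have := dvd_sub h8 hd
        simpa using this
      have h8 := hpi.dvd_of_dvd_pow h7
      have h9 : (p : ℤ) ∣ 2 * (2 * (2 * v 1)) := by
        have e : 2 * (2 * (2 * v 1)) = (8 * v 1 + 7 * v 2) - p * (7 * z) := by rw [hz]; ring
        rw [e]
        exact dvd_sub h8 (dvd_mul_right _ _)
      have h10 : (p : ℤ) ∣ v 1 := by
        have a1 := (hpi.dvd_or_dvd h9).resolve_left n2
        have a2 := (hpi.dvd_or_dvd a1).resolve_left n2
        exact (hpi.dvd_or_dvd a2).resolve_left n2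
      obtain ⟨w, hw⟩ := h10
      apply hn2
      have : (p : ℤ) ^ 2 ∣ (n : ℤ) := by
        rw [← h1]
        have e : v 0 = p * (5 * y - 2 * w - 2 * z) := by
          have : v 0 = 5 * c - 2 * v 1 - 2 * v 2 := by linarith
          rw [this, hy, hw, hz]; ring
        simp only [ip]
        rw [e, hw, hz]
        exact ⟨3 * (5 * y - 2 * w - 2 * z) ^ 2 + 4 * w ^ 2 + 4 * z ^ 2 + 4 * w * z, by ring⟩
      exact_mod_cast this
    have n15' : ¬ (p : ℤ) ∣ -15 := fun h => n15 ((dvd_neg (a := (p : ℤ)) (b := 15)).1 h)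
    have h7 := jac_sq_mul hv2 hd n15'
    have e3 : (-15 : ℤ) = (-1) * 15 := by norm_num
    rw [e3, jacobiSym.mul_left] at h7
    have h8 : jacobiSym 15 p * jacobiSym 15 p = 1 := by
      rw [← jacobiSym.mul_left, ← sq]
      exact jacobiSym.sq_one' (gcd_one n15)
    push_cast
    calc jacobiSym (-1) p = jacobiSym (-1) p * (jacobiSym 15 p * jacobiSym 15 p) := by
          rw [h8, mul_one]
      _ = jacobiSym 15 p := by rw [← mul_assoc, h7, one_mul]
  · have hT : ¬ (p : ℤ) ∣ 15 * c ^ 2 := by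
      intro h
      rcases hpi.dvd_or_dvd h with h | h
      · exact n15 h
      · exact hx (hpi.dvd_of_dvd_pow h)
    rw [if_neg hT, jacobiSym.mul_left, jacobiSym.sq_one' (gcd_one hx), mul_one]

/-- the sign of the rotation at two -/
theorem sg2_rh (n : ℕ) (c : ℤ) : sg2 1 n (15 * c ^ 2) = c2 n (-1) := by
  by_cases hc : c = 0
  · subst hc
    have : (15 : ℤ) * 0 ^ 2 = 0 := by norm_num
    rw [this, sg2_zero]
    simp
  · have h0 : (15 : ℤ) * c ^ 2 ≠ 0 := by positivity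
    rw [sg2_ne h0, mul_comm, hs_sq_mul n hc (by norm_num)]
    have := Pool.Agent.N970.P17G.hs_of n (u := 15) (by norm_num) 0
    simp only [pow_zero, one_mul, mul_one] at this
    rw [this]
    exact Pool.Agent.N970.P17G.c2_mod n (by norm_num)

theorem f5 : Fact (Nat.Prime 5) := ⟨Nat.prime_five⟩

/-- the sign of the rotation at five -/
theorem sgp5_rh {n : ℕ} (hn : 5 ∣ n) (hn2 : ¬ 25 ∣ n) {v : V3} (hv : v ∈ V n) :
    sgp 1 n 5 (15 * cw v ^ 2) = - jacobiSym ((n / 5 : ℕ) : ℤ) 5 := by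
  have := f5
  obtain ⟨h1, h4⟩ := mem_V.1 hv
  have h6 := cw_spec h4
  set c := cw v with hc
  obtain ⟨k, hk⟩ := hn
  have hk5 : n / 5 = k := by omega
  have hk0 : ¬ (5 : ℤ) ∣ k := by omega
  unfold sgp
  rw [hk5]
  push_cast
  have e2 : (15 : ℤ) * c ^ 2 / 5 = 3 * c ^ 2 := by
    have : (15 : ℤ) * c ^ 2 = 5 * (3 * c ^ 2) := by ring
    rw [this]; exact Int.mul_ediv_cancel_left _ (by norm_num)
  rw [if_pos ⟨3 * c ^ 2, by ring⟩, e2]
  by_cases hx : (5 : ℤ) ∣ c
  · obtain ⟨y, hy⟩ := hx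
    rw [if_pos ⟨15 * y ^ 2, by rw [hy]; ring⟩]
    -- `4 n = (8 v1 + 7 v2)^2 + 15 v2^2` modulo `25`
    have e3 : 4 * (n : ℤ) = (8 * v 1 + 7 * v 2) ^ 2 + 15 * v 2 ^ 2 +
        25 * (4 * (3 * (25 * y - 4 * v 1 - 4 * v 2) * y)) := by
      have e : v 0 = 5 * (5 * y) - 2 * v 1 - 2 * v 2 := by rw [← hy]; linarith
      rw [← h1]
      simp only [ip]
      rw [e]
      ring
    have h5 : (5 : ℤ) ∣ (8 * v 1 + 7 * v 2) ^ 2 := by
      have e4 : (8 * v 1 + 7 * v 2) ^ 2 = 5 * (4 * k - 3 * v 2 ^ 2 -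
          5 * (4 * (3 * (25 * y - 4 * v 1 - 4 * v 2) * y))) := by
        have : (n : ℤ) = 5 * k := by rw [hk]; push_cast; ring
        rw [this] at e3
        linarith
      exact ⟨_, e4⟩
    obtain ⟨z, hz⟩ : (5 : ℤ) ∣ 8 * v 1 + 7 * v 2 :=
      Int.Prime.dvd_pow' Nat.prime_five (by exact_mod_cast h5)
    have e5 : 4 * (k : ℤ) - 3 * v 2 ^ 2 = 5 * (z ^ 2 + 4 * (3 * (25 * y - 4 * v 1 - 4 * v 2) * y)) := by
      have : (n : ℤ) = 5 * k := by rw [hk]; push_cast; ring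
      rw [this, hz] at e3
      linarith
    have hv2 : ¬ (5 : ℤ) ∣ v 2 := by
      rintro ⟨w, hw⟩
      rw [hw] at e5
      generalize z ^ 2 + 4 * (3 * (25 * y - 4 * v 1 - 4 * (5 * w)) * y) = q at e5
      have : 4 * (k : ℤ) = 5 * (15 * w ^ 2 + q) := by linarith
      generalize 15 * w ^ 2 + q = q' at this
      omega
    have h7 : jacobiSym (4 * (k : ℤ)) 5 = jacobiSym (3 * v 2 ^ 2) 5 := by
      apply jacobiSym.mod_left'
      apply Int.ModEq.symm
      rw [Int.modEq_iff_dvd]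
      exact ⟨_, e5⟩
    rw [jacobiSym.mul_left, jacobiSym.mul_left 3, jacobiSym.sq_one' (gcd_one (p := 5) hv2)] at h7
    have a1 : jacobiSym 4 5 = 1 := by decide +kernel
    have a2 : jacobiSym 3 5 = -1 := by decide +kernel
    have a3 : jacobiSym (-1) 5 = 1 := by decide +kernel
    rw [a1, a2] at h7
    rw [a3]
    linarith
  · have hT : ¬ (5 : ℤ) ∣ 3 * c ^ 2 := by
      intro h
      have : (5 : ℤ) ∣ c ^ 2 := by omega
      exact hx (Int.Prime.dvd_pow' Nat.prime_five (by exact_mod_cast this))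
    rw [if_neg hT, jacobiSym.mul_left, jacobiSym.mul_left, jacobiSym.sq_one' (gcd_one (p := 5) hx)]
    have a2 : jacobiSym 3 5 = -1 := by decide +kernel
    rw [a2]
    ring

/-- the sign of the rotation, `5 ∤ A` -/
theorem sg_rh {n A : ℕ} (hn : Ng n) (hU : Ud n A) (h3 : ¬ 3 ∣ A) (h5 : ¬ 5 ∣ A)
    (hA : A = 1 ∨ Ps A) (hm : Ng (n / A)) {v : V3} (hv : v ∈ V n) :
    N973.P15G.sg A n ((n + ip v (rh v)) / 2) = jacobiSym A 15 := by
  rw [rh_T hv]
  have hAn := hU.1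
  rw [sg_prod hAn]
  have key : ∀ N : ℕ, N ∣ A → ¬ 2 ∣ N → ∀ p ∈ N.primeFactors,
      sgp 1 n p (15 * cw v ^ 2) = jacobiSym 15 p := by
    intro N hN h2 p hp
    have hp' := Nat.prime_of_mem_primeFactors hp
    have hpN := Nat.dvd_of_mem_primeFactors hp
    have hp2 : p ≠ 2 := by rintro rfl; exact h2 hpN
    have hp3 : p ≠ 3 := by rintro rfl; exact h3 (hpN.trans hN)
    have hp5 : p ≠ 5 := by rintro rfl; exact h5 (hpN.trans hN)
    exact sgp_rh hp' hp2 hp3 hp5 ((hpN.trans hN).trans hAn) (sqf_of hn hp' hp2) hv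
  rcases shape' hn hU hA hm with ⟨h2, hs, h4⟩ | ⟨N, rfl, hN2, hNs, hN4, h16, hEv⟩ |
    ⟨N, rfl, hN2, hNs, h4, hEv⟩
  · rw [prod_lo 15 _ hs h2 (key A (dvd_refl _) h2), jac15_one h4]
  · have e : 4 * N = 2 ^ 2 * N := by norm_num
    rw [e, prod_lo2 15 _ hNs hN2 two_ne_zero (key N ⟨4, by ring⟩ hN2), sg2_rh,
      jac15_three hN4, c2_16 h16 (-1) (by norm_num)]
    push_cast
    rw [jacobiSym.mul_left]
    have : jacobiSym 4 15 = 1 := by decide +kernel
    rw [this]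
    ring
  · have e : 8 * N = 2 ^ 3 * N := by norm_num
    rw [e, prod_lo2 15 _ hNs hN2 three_ne_zero (key N ⟨8, by ring⟩ hN2), sg2_rh]
    push_cast
    rw [jacobiSym.mul_left]
    have : jacobiSym 8 15 = 1 := by decide +kernel
    rw [this]
    rcases h4 with ⟨h4, h32⟩ | ⟨h4, h32⟩
    · rw [jac15_three h4, c2_8b h32 (-1) (by norm_num)]
      ring
    · rw [jac15_one h4, c2_24a h32 (-1) (by norm_num)]

/-- the product over an odd squarefree multiple of five -/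
theorem prod_lo5 {n B : ℕ} (a T : ℤ) (hs : Squarefree B) (h5 : ¬ 5 ∣ B) (h2 : ¬ 2 ∣ B)
    (h : ∀ p ∈ B.primeFactors, sgp 1 n p T = jacobiSym a p) :
    ∏ p ∈ (5 * B).primeFactors, lo n p T = sgp 1 n 5 T * jacobiSym a B := by
  have hB0 : B ≠ 0 := by rintro rfl; simp at h5
  have h5B : 5 ∉ B.primeFactors := fun h => h5 (Nat.dvd_of_mem_primeFactors h)
  rw [Nat.primeFactors_mul (by norm_num) hB0, Nat.prime_five.primeFactors,
    ← Finset.insert_eq, prod_insert h5B, prod_lo a T hs h2 h]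
  unfold lo
  rw [if_neg (by norm_num)]

theorem prod_lo52 {n B k : ℕ} (a T : ℤ) (hs : Squarefree B) (h5 : ¬ 5 ∣ B) (h2 : ¬ 2 ∣ B)
    (hk : k ≠ 0) (h : ∀ p ∈ B.primeFactors, sgp 1 n p T = jacobiSym a p) :
    ∏ p ∈ (2 ^ k * (5 * B)).primeFactors, lo n p T =
      sg2 1 n T * (sgp 1 n 5 T * jacobiSym a B) := by
  have h25 : ¬ 2 ∣ 5 * B := fun h => by
    rcases Nat.prime_two.dvd_mul.1 h with h | h
    · omega
    · exact h2 h
  have h2N : 2 ∉ (5 * B).primeFactors := fun h => h25 (Nat.dvd_of_mem_primeFactors h)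
  rw [pf_pow h25 hk, prod_insert h2N, prod_lo5 a T hs h5 h2 h]
  unfold lo
  rw [if_pos rfl]

theorem jac15 (B : ℕ) : jacobiSym B 15 = jacobiSym B 3 * jacobiSym B 5 := by
  have e : 15 = 3 * 5 := rfl
  rw [e, jacobiSym.mul_right]

/-- the sign of the rotation, `5 ∣ A` -/
theorem sg_rh5 {n A : ℕ} (hn : Ng n) (hU : Ud n A) (h3 : ¬ 3 ∣ A) (h5 : 5 ∣ A)
    (hA : A = 1 ∨ Ps A) (hm : Ng (n / A)) {v : V3} (hv : v ∈ V n) :
    N973.P15G.sg A n ((n + ip v (rh v)) / 2) = jacobiSym A 3 * jacobiSym ((n / A : ℕ) : ℤ) 5 := by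
  rw [rh_T hv]
  have hAn := hU.1
  rw [sg_prod hAn]
  have hn5 : 5 ∣ n := h5.trans hAn
  have hn25 : ¬ 25 ∣ n := sqf_of hn Nat.prime_five (by norm_num)
  have hn0 : n ≠ 0 := by rintro rfl; simp at hn25
  have hA0 : 0 < A := Nat.pos_of_ne_zero (by rintro rfl; exact hn0 (Nat.eq_zero_of_zero_dvd hAn))
  obtain ⟨m, hm'⟩ := hAn
  have hd : n / A = m := by rw [hm']; exact Nat.mul_div_cancel_left _ hA0
  have s5 := sgp5_rh hn5 hn25 hv
  have key : ∀ B : ℕ, B ∣ A → ¬ 2 ∣ B → ¬ 5 ∣ B → ∀ p ∈ B.primeFactors,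
      sgp 1 n p (15 * cw v ^ 2) = jacobiSym 15 p := by
    intro N hN h2 hN5 p hp
    have hp' := Nat.prime_of_mem_primeFactors hp
    have hpN := Nat.dvd_of_mem_primeFactors hp
    have hp2 : p ≠ 2 := by rintro rfl; exact h2 hpN
    have hp3 : p ≠ 3 := by rintro rfl; exact h3 (hpN.trans hN)
    have hp5 : p ≠ 5 := by rintro rfl; exact hN5 hpN
    exact sgp_rh hp' hp2 hp3 hp5 ((hpN.trans hN).trans hU.1) (sqf_of hn hp' hp2) hv
  have sq5 : ∀ B : ℕ, ¬ 5 ∣ B → jacobiSym B 5 * jacobiSym B 5 = 1 := by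
    intro B hB
    have := f5
    rw [← jacobiSym.mul_left, ← sq]
    exact jacobiSym.sq_one' (gcd_one (p := 5) (by exact_mod_cast hB))
  rcases shape' hn hU hA hm with ⟨h2, hs, h4⟩ | ⟨N, rfl, hN2, hNs, hN4, h16, hEv⟩ |
    ⟨N, rfl, hN2, hNs, h4, hEv⟩
  · obtain ⟨B, rfl⟩ := h5
    have hB2 : ¬ 2 ∣ B := fun h => h2 (h.mul_left 5)
    have hB5 : ¬ 5 ∣ B := by
      rintro ⟨c, rfl⟩
      have := hs 5 ⟨c, by ring⟩
      rw [Nat.isUnit_iff] at this
      omega
    have hBs : Squarefree B := hs.squarefree_of_dvd ⟨5, by ring⟩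
    have hB4 : B % 4 = 1 := by omega
    have hn5' : n / 5 = B * m := by rw [hm', mul_assoc]; exact Nat.mul_div_cancel_left _ (by norm_num)
    rw [prod_lo5 15 _ hBs hB5 hB2 (key B ⟨5, by ring⟩ hB2 hB5), s5, jac15_one hB4, jac15, hn5', hd]
    push_cast
    rw [jacobiSym.mul_left, jacobiSym.mul_left 5]
    have a : jacobiSym 5 3 = -1 := by decide +kernel
    rw [a]
    linear_combination (-jacobiSym B 3 * jacobiSym m 5) * sq5 B hB5
  · obtain ⟨B, rfl⟩ : 5 ∣ N := by omega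
    have hB2 : ¬ 2 ∣ B := fun h => hN2 (h.mul_left 5)
    have hB5 : ¬ 5 ∣ B := by
      rintro ⟨c, rfl⟩
      have := hNs 5 ⟨c, by ring⟩
      rw [Nat.isUnit_iff] at this
      omega
    have hBs : Squarefree B := hNs.squarefree_of_dvd ⟨5, by ring⟩
    have hB4 : B % 4 = 3 := by omega
    have hn5' : n / 5 = 4 * (B * m) := by
      have : n = 5 * (4 * (B * m)) := by rw [hm']; ring
      rw [this]; exact Nat.mul_div_cancel_left _ (by norm_num)
    have e : 4 * (5 * B) = 2 ^ 2 * (5 * B) := by norm_num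
    rw [e, prod_lo52 15 _ hBs hB5 hB2 two_ne_zero (key B ⟨20, by ring⟩ hB2 hB5), s5,
      jac15_three hB4, jac15, hn5', ← e, hd, sg2_rh, c2_16 h16 (-1) (by norm_num)]
    push_cast
    rw [jacobiSym.mul_left, jacobiSym.mul_left, jacobiSym.mul_left 4 (5 * (B : ℤ)),
      jacobiSym.mul_left 5]
    have a1 : jacobiSym 4 5 = 1 := by decide +kernel
    have a2 : jacobiSym 4 3 = 1 := by decide +kernel
    have a : jacobiSym 5 3 = -1 := by decide +kernel
    rw [a, a1, a2]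
    linear_combination (-jacobiSym B 3 * jacobiSym m 5) * sq5 B hB5
  · obtain ⟨B, rfl⟩ : 5 ∣ N := by omega
    have hB2 : ¬ 2 ∣ B := fun h => hN2 (h.mul_left 5)
    have hB5 : ¬ 5 ∣ B := by
      rintro ⟨c, rfl⟩
      have := hNs 5 ⟨c, by ring⟩
      rw [Nat.isUnit_iff] at this
      omega
    have hBs : Squarefree B := hNs.squarefree_of_dvd ⟨5, by ring⟩
    have hn5' : n / 5 = 8 * (B * m) := by
      have : n = 5 * (8 * (B * m)) := by rw [hm']; ring
      rw [this]; exact Nat.mul_div_cancel_left _ (by norm_num)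
    have e : 8 * (5 * B) = 2 ^ 3 * (5 * B) := by norm_num
    rw [e, prod_lo52 15 _ hBs hB5 hB2 three_ne_zero (key B ⟨40, by ring⟩ hB2 hB5), s5,
      hn5', ← e, hd, sg2_rh]
    push_cast
    rw [jacobiSym.mul_left, jacobiSym.mul_left, jacobiSym.mul_left 8 (5 * (B : ℤ)),
      jacobiSym.mul_left 5]
    have a1 : jacobiSym 8 5 = -1 := by decide +kernel
    have a2 : jacobiSym 8 3 = -1 := by decide +kernel
    have a : jacobiSym 5 3 = -1 := by decide +kernel
    rw [a, a1, a2]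
    rcases h4 with ⟨h4, h32⟩ | ⟨h4, h32⟩
    · rw [jac15_three (N := B) (by omega), jac15, c2_8b h32 (-1) (by norm_num)]
      linear_combination (jacobiSym B 3 * jacobiSym m 5) * sq5 B hB5
    · rw [jac15_one (N := B) (by omega), jac15, c2_24a h32 (-1) (by norm_num)]
      linear_combination (jacobiSym B 3 * jacobiSym m 5) * sq5 B hB5

end Pool.Agent.N871.P15G
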