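import Pool.Agent.N871.P21G.C2
import Pool.Agent.N973.P15G.Defs2

/-!
# P15G, divisor sums: the port of `N871/P21G/GenA-C` to the level primes `3` and `5`
-/

set_option autoImplicit false

namespace Pool.Agent.N871.G15

open Finset
open Pool.Agent.Z700 (hh fac)
open Pool.Agent.Y574.Z7 (chp chp_mul chp_one chp_self chp_nd chp_sq chp_pm jac_eq sum_local two_pt
  one_sum alt_sum dvd_fac nd4 fac_D mem_D chp_D jac_prod chp_prod)
open Pool.Agent.N969.P15 (Ev tw tb ep2 psp psp2 c2)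
open Pool.Agent.N969.P17G (psl psl2 sgp sg2 sgnE t2)
open Pool.Agent.N295.P15 (dvd_iff' Ff mem_ST alt_zero dvd_cn fac4 chp4 fac_ST pf_four tw_eq fac42)
open Pool.Agent.N295.P15.E (cq kq Ps wq pq Ps_one Ps_fac Ps_pm cq_sq kq_sq cq_two cq_odd cq_mul eT eS
  eT_sq eS_sq pow_sq pq_eq oc_nd pf_prime pf_dvd podd jac_four)
open Pool.Agent.N833.P21 (Ps_odd L2 pow_alt M2 tw_A tw_B M2_even e2_eq)
open Pool.Agent.N871.G17 (kap wL wR wL_eq kap_zero kap_mul kap_sq kap_kq kap_neg)
open Pool.Agent.N871.G21 (FF FF_of lq lq_eq wa wb DS hh_eq mem_er hh_four fac_four hh_ST facg_eq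
  one_zero hl hl_sq hl_nd eS_nd sT Lc Lc_R Lc_L Lc_nd Lc_out eT_odd eT_two v00 v10 v01 v11 Lc_R00
  Lc_R01 Lc_L11 Lc_O00 Lc_S10 Lc_S01 Lc_I10 Lc_I01 z_fac M2_dt M2_tb M2_tw Fn_mul Fn_two Fn_odd
  hl_hh sdiff_m sdiff_A sT_out p3 Fn_ne)
open Pool.Agent.N877.P21G (Fn dt)

variable {n : ℕ}

/-! ### the primes -/

theorem p5 : Nat.Prime 5 := by norm_num

/-- all the primes -/
def QQ (n S T : ℕ) : Finset ℕ := insert 2 (insert 5 (insert 3 (n.primeFactors ∪ (S * T).primeFactors)))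

theorem mem_QQ2 {S T : ℕ} : 2 ∈ QQ n S T := Finset.mem_insert_self _ _

theorem mem_QQ5 {S T : ℕ} : 5 ∈ QQ n S T := Finset.mem_insert_of_mem (Finset.mem_insert_self _ _)

theorem mem_QQ3 {S T : ℕ} : 3 ∈ QQ n S T :=
  Finset.mem_insert_of_mem (Finset.mem_insert_of_mem (Finset.mem_insert_self _ _))

theorem sub_QQ {S T : ℕ} : n.primeFactors ⊆ QQ n S T := fun _ hq =>
  Finset.mem_insert_of_mem (Finset.mem_insert_of_mem (Finset.mem_insert_of_mem
    (Finset.mem_union_left _ hq)))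

theorem pf_QQ {S T : ℕ} : (S * T).primeFactors ⊆ QQ n S T := fun _ hq =>
  Finset.mem_insert_of_mem (Finset.mem_insert_of_mem (Finset.mem_insert_of_mem
    (Finset.mem_union_right _ hq)))

theorem QQ_prime {S T : ℕ} : ∀ l ∈ QQ n S T, l.Prime := by
  intro l hl
  unfold QQ at hl
  rcases Finset.mem_insert.1 hl with rfl | hl
  · exact Nat.prime_two
  rcases Finset.mem_insert.1 hl with rfl | hl
  · exact p5
  rcases Finset.mem_insert.1 hl with rfl | hl
  · norm_num
  rcases Finset.mem_union.1 hl with hl | hl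
  · exact Nat.prime_of_mem_primeFactors hl
  · exact Nat.prime_of_mem_primeFactors hl

/-- the primes apart from `2`, `5` and `3` -/
def Q' (n S T : ℕ) : Finset ℕ := (((QQ n S T).erase 2).erase 5).erase 3

theorem mem_Q' {S T l : ℕ} (h : l ∈ Q' n S T) :
    l.Prime ∧ l ≠ 2 ∧ l ≠ 5 ∧ l ≠ 3 ∧ (l ∉ n.primeFactors → l ∈ (S * T).primeFactors) := by
  unfold Q' at h
  have h1 := Finset.mem_erase.1 h
  have h2 := Finset.mem_erase.1 h1.2
  have h3 := Finset.mem_erase.1 h2.2
  refine ⟨QQ_prime l h3.2, h3.1, h2.1, h1.1, fun h3' => ?_⟩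
  have h4 := h3.2
  unfold QQ at h4
  rcases Finset.mem_insert.1 h4 with h4 | h4
  · exact absurd h4 h3.1
  rcases Finset.mem_insert.1 h4 with h4 | h4
  · exact absurd h4 h2.1
  rcases Finset.mem_insert.1 h4 with h4 | h4
  · exact absurd h4 h1.1
  rcases Finset.mem_union.1 h4 with h4 | h4
  · exact absurd h4 h3'
  · exact h4

/-- the product of the local factors -/
theorem prod_Ff {S T : ℕ} :
    ∏ l ∈ Q' n S T, Ff n S T l =
      ∏ l ∈ (((S * T).primeFactors.erase 2).erase 3).erase 5, fac n (S * T) l := by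
  classical
  unfold Ff
  rw [Finset.prod_ite_mem]
  refine Finset.prod_congr ?_ fun _ _ => rfl
  ext l
  unfold Q'
  simp only [Finset.mem_inter, Finset.mem_erase]
  constructor
  · rintro ⟨⟨h1, h2, h3, _⟩, h5⟩
    exact ⟨h2, h1, h3, h5⟩
  · rintro ⟨h1, h2, h3, h5⟩
    exact ⟨⟨h2, h1, h3, pf_QQ h5⟩, h5⟩

/-- splitting off `2`, `5` and `3` -/
theorem split_QQ (S T : ℕ) (f : ℕ → ℤ) :
    ∏ l ∈ QQ n S T, f l = f 2 * (f 5 * (f 3 * ∏ l ∈ Q' n S T, f l)) := by
  rw [← Finset.mul_prod_erase _ _ (mem_QQ2 (n := n) (S := S) (T := T)),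
    ← Finset.mul_prod_erase _ _ (Finset.mem_erase.2 ⟨by norm_num, mem_QQ5 (n := n) (S := S) (T := T)⟩ :
        5 ∈ (QQ n S T).erase 2),
    ← Finset.mul_prod_erase _ _ (Finset.mem_erase.2 ⟨by norm_num, Finset.mem_erase.2
        ⟨by norm_num, mem_QQ3 (n := n) (S := S) (T := T)⟩⟩ :
        3 ∈ ((QQ n S T).erase 2).erase 5)]
  rfl


/-- the local weights; `u3`, `u7` are the level conditions -/
def Wu (u3 u7 : ℕ → ℕ → ℤ) (n : ℕ) (B : Finset ℕ) (S T l i j : ℕ) : ℤ :=
  Ps n l ^ (i + j) * (if l ∈ n.primeFactors then wb n B S T l i j else 1) *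
    (if l = 5 then u7 i j else 1) * (if l = 3 then u3 i j else 1)

/-- the level conditions are local -/
def Lev (f g : ℕ → Prop) [DecidablePred f] [DecidablePred g] (u3 u7 : ℕ → ℕ → ℤ) : Prop :=
  ∀ a a' : ℕ, a ≠ 0 → a' ≠ 0 → (if f a then (if g a' then (1 : ℤ) else 0) else 0) =
    u7 (a.factorization 5) (a'.factorization 5) * u3 (a.factorization 3) (a'.factorization 3)

theorem term_eq {f g : ℕ → Prop} [DecidablePred f] [DecidablePred g] {u3 u7 : ℕ → ℕ → ℤ}
    (hL : Lev f g u3 u7) (B : Finset ℕ) {c S T : ℕ} (hS : S ≠ 0) (hT : T ≠ 0)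
    (hST : S + T = c * n) {a a' : ℕ} (ha : a ∣ S) (ha' : a' ∣ T) :
    (if f a then (if g a' then (∏ p ∈ n.primeFactors, if p ∈ B then lq n p a a' (S / a) (T / a')
      else pq n p a a' (S / a) (T / a')) else 0) else 0) =
      ∏ l ∈ QQ n S T, Wu u3 u7 n B S T l (a.factorization l) (a'.factorization l) := by
  classical
  have a0 : a ≠ 0 := by rintro rfl; exact hS (zero_dvd_iff.1 ha)
  have b0 : a' ≠ 0 := by rintro rfl; exact hT (zero_dvd_iff.1 ha')
  have hsa : a.primeFactors ⊆ QQ n S T :=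
    (Nat.primeFactors_mono (ha.mul_right T) (mul_ne_zero hS hT)).trans pf_QQ
  have hsb : a'.primeFactors ⊆ QQ n S T :=
    (Nat.primeFactors_mono (ha'.mul_left S) (mul_ne_zero hS hT)).trans pf_QQ
  unfold Wu
  rw [Finset.prod_mul_distrib, Finset.prod_mul_distrib, Finset.prod_mul_distrib]
  have e1 : ∏ l ∈ QQ n S T, Ps n l ^ (a.factorization l + a'.factorization l) =
      Ps n a * Ps n a' := by
    rw [Ps_fac n (QQ n S T) a a0 hsa, Ps_fac n (QQ n S T) a' b0 hsb,
      ← Finset.prod_mul_distrib]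
    exact Finset.prod_congr rfl fun l _ => pow_add _ _ _
  have e2 : ∏ l ∈ QQ n S T, (if l ∈ n.primeFactors then
      wb n B S T l (a.factorization l) (a'.factorization l) else 1) =
      ∏ l ∈ n.primeFactors, wb n B S T l (a.factorization l) (a'.factorization l) := by
    rw [Finset.prod_ite_mem, Finset.inter_eq_right.2 sub_QQ]
  have e3 : ∏ l ∈ QQ n S T, (if l = 5 then u7 (a.factorization l) (a'.factorization l) else 1) =
      u7 (a.factorization 5) (a'.factorization 5) := by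
    rw [Finset.prod_ite_eq' (QQ n S T) 5 (fun l => u7 (a.factorization l) (a'.factorization l)),
      if_pos mem_QQ5]
  have e4 : ∏ l ∈ QQ n S T, (if l = 3 then u3 (a.factorization l) (a'.factorization l) else 1) =
      u3 (a.factorization 3) (a'.factorization 3) := by
    rw [Finset.prod_ite_eq' (QQ n S T) 3 (fun l => u3 (a.factorization l) (a'.factorization l)),
      if_pos mem_QQ3]
  rw [e1, e2, e3, e4]
  have e5 : (∏ p ∈ n.primeFactors, if p ∈ B then lq n p a a' (S / a) (T / a')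
      else pq n p a a' (S / a) (T / a')) = Ps n a * Ps n a' *
        ∏ l ∈ n.primeFactors, wb n B S T l (a.factorization l) (a'.factorization l) := by
    unfold Ps
    rw [← Finset.prod_mul_distrib, ← Finset.prod_mul_distrib]
    refine Finset.prod_congr rfl fun p hp => ?_
    unfold wb
    split_ifs
    · exact lq_eq (pf_prime hp) hS hT (dvd_iff' hST hp) ha ha'
    · exact pq_eq (pf_prime hp) hS hT (dvd_iff' hST hp) ha ha'
  have e6 := hL a a' a0 b0
  rw [e5]
  have e7 : ∀ x : ℤ, (if f a then (if g a' then x else 0) else 0) =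
      x * (if f a then (if g a' then (1 : ℤ) else 0) else 0) := by
    intro x
    split_ifs <;> ring
  rw [e7, e6]
  ring

/-- the sum of the local weights -/
def Lu (u3 u7 : ℕ → ℕ → ℤ) (n : ℕ) (B : Finset ℕ) (S T l : ℕ) : ℤ :=
  ∑ i ∈ range (S.factorization l + 1), ∑ j ∈ range (T.factorization l + 1), Wu u3 u7 n B S T l i j

theorem DS_eq {f g : ℕ → Prop} [DecidablePred f] [DecidablePred g] {u3 u7 : ℕ → ℕ → ℤ}
    (hL : Lev f g u3 u7) (B : Finset ℕ) {c S T : ℕ} (hS : S ≠ 0) (hT : T ≠ 0)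
    (hST : S + T = c * n) : DS f g n B S T = ∏ l ∈ QQ n S T, Lu u3 u7 n B S T l := by
  unfold Lu
  rw [← sum_local (Wu u3 u7 n B S T) (QQ n S T) QQ_prime S T hS hT
    (fun l hl hd => pf_QQ (Nat.mem_primeFactors.2 ⟨hl, hd.mul_right T, mul_ne_zero hS hT⟩))
    (fun l hl hd => pf_QQ (Nat.mem_primeFactors.2 ⟨hl, hd.mul_left S, mul_ne_zero hS hT⟩))]
  unfold DS
  rw [Finset.sum_filter]
  refine Finset.sum_congr rfl fun a ha => ?_
  rw [Finset.sum_filter]
  have ha1 := Nat.dvd_of_mem_divisors ha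
  have h1 : ∀ a' ∈ T.divisors,
      ∏ l ∈ QQ n S T, Wu u3 u7 n B S T l (a.factorization l) (a'.factorization l) =
      (if f a then (if g a' then (∏ p ∈ n.primeFactors, if p ∈ B then lq n p a a' (S / a) (T / a')
        else pq n p a a' (S / a) (T / a')) else 0) else 0) :=
    fun a' ha' => (term_eq hL B hS hT hST ha1 (Nat.dvd_of_mem_divisors ha')).symm
  rw [Finset.sum_congr rfl h1]
  by_cases h2 : f a
  · simp only [h2, if_true]
  · simp only [h2, if_false, Finset.sum_const_zero]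

variable {u3 u7 : ℕ → ℕ → ℤ} {B : Finset ℕ}

theorem Lu_gen {S T l : ℕ} (h3 : l ≠ 5) (h5 : l ≠ 3) :
    Lu u3 u7 n B S T l = Lc (fun _ _ => 1) n B S T l := by
  unfold Lu Lc Wu
  simp only [if_neg h3, if_neg h5, mul_one]

theorem Lu_seven {S T : ℕ} : Lu u3 u7 n B S T 5 = Lc u7 n B S T 5 := by
  unfold Lu Lc Wu
  simp only [if_true, show ¬ ((5 : ℕ) = 3) by norm_num, if_false, mul_one]

theorem Lu_three {S T : ℕ} : Lu u3 u7 n B S T 3 = Lc u3 n B S T 3 := by
  unfold Lu Lc Wu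
  simp only [if_true, show ¬ ((3 : ℕ) = 5) by norm_num, if_false, mul_one]

/-- the local sums away from `2`, `5` and `3` -/
theorem Lu_Q' (h : FF n) {c S T : ℕ} (hc : c = 1 ∨ c = 2) (hS : S ≠ 0) (hT : T ≠ 0)
    (hST : S + T = c * n) {l : ℕ} (hl : l ∈ Q' n S T) :
    Lu u3 u7 n B S T l = sT n B T l * Ff n S T l := by
  obtain ⟨hp, h2, h3, h5, hm⟩ := mem_Q' hl
  have hD := mem_ST hS hT hp
  rw [Lu_gen h3 h5]
  by_cases hlP : l ∈ n.primeFactors
  · have hlP' : l ∈ n.primeFactors.erase 2 := Finset.mem_erase.2 ⟨h2, hlP⟩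
    have hd := dvd_iff' hST hlP
    have hD' : l ∈ (S * T).primeFactors ↔ l ∣ T := by rw [hD, hd, or_self]
    unfold Ff
    simp only [hD']
    by_cases h1 : l ∣ T
    · rw [if_pos h1]
      have c1 := eT_sq (n := n) hp hT
      have e0 : fac n (S * T) l = 1 + eS n S l * eT n T l := by
        unfold fac
        rw [if_pos (pf_dvd hlP), hh_ST h hS hT hlP']
      unfold sT
      by_cases hB : l ∈ B
      · rw [Lc_L hS hT hST hlP hB h1, if_neg (by tauto), e0]
        ring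
      · rw [Lc_R hS hT hST hlP hB h1, if_pos ⟨hlP, hB⟩, e0]
        linear_combination (-(eS n S l)) * c1
    · rw [if_neg h1, Lc_nd hST hlP h1]
      ring
  · unfold sT
    rw [if_neg (by tauto), one_mul, Lc_out hlP]
    unfold Ff
    rw [if_pos (hm hlP), facg_eq h hS hT hp h2 hlP]
    simp only [mul_one]
    rcases one_zero h hc hS hT hST hp h2 hlP with h0 | h0
    · rw [h0, zero_add, Finset.sum_range_one, zero_add]
      exact Finset.sum_congr rfl fun j _ => by rw [zero_add]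
    · rw [h0, zero_add, add_zero]
      exact Finset.sum_congr rfl fun i _ => by rw [Finset.sum_range_one, add_zero]

theorem Lu_two {c S T : ℕ} (hS : S ≠ 0) (hT : T ≠ 0) (hST : S + T = c * n) :
    Lu u3 u7 n B S T 2 = L2 n S T * sT n B T 2 := by
  rw [Lu_gen (by norm_num) (by norm_num)]
  unfold L2
  by_cases h2 : 2 ∈ n.primeFactors
  · rw [if_pos h2]
    have c1 := eT_sq (n := n) Nat.prime_two hT
    by_cases h1 : 2 ∣ T
    · rw [if_pos h1]
      unfold sT
      by_cases hB : 2 ∈ B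
      · rw [Lc_L hS hT hST h2 hB h1, if_neg (by tauto)]
        ring
      · rw [Lc_R hS hT hST h2 hB h1, if_pos ⟨h2, hB⟩]
        linear_combination (-(eS n S 2)) * c1
    · rw [if_neg h1, Lc_nd hST h2 h1]
  · unfold sT
    rw [if_neg h2, if_neg (by tauto), mul_one, Lc_out h2, Finset.sum_mul_sum]
    refine Finset.sum_congr rfl fun i _ => Finset.sum_congr rfl fun j _ => ?_
    rw [pow_add]
    ring

/-- **the product form** -/
theorem DS_val {f g : ℕ → Prop} [DecidablePred f] [DecidablePred g] (hL : Lev f g u3 u7)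
    (h : FF n) {c S T : ℕ} (hc : c = 1 ∨ c = 2) (hS : S ≠ 0) (hT : T ≠ 0)
    (hST : S + T = c * n) {r3 r7 : ℤ} (h3 : Lc u3 n B S T 3 = r3 * sT n B T 3)
    (h7 : Lc u7 n B S T 5 = r7 * sT n B T 5) :
    DS f g n B S T = r3 * r7 * L2 n S T * (∏ l ∈ n.primeFactors \ B, eT n T l) *
      ∏ l ∈ Q' n S T, Ff n S T l := by
  classical
  rw [DS_eq hL B hS hT hST, split_QQ, Lu_two hS hT hST, Lu_seven, Lu_three, h3, h7,
    Finset.prod_congr rfl fun l (hl : l ∈ Q' n S T) => Lu_Q' h hc hS hT hST hl,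
    Finset.prod_mul_distrib]
  have e1 : ∏ l ∈ n.primeFactors \ B, eT n T l = ∏ l ∈ QQ n S T, sT n B T l := by
    unfold sT
    have e2 : ∀ l ∈ QQ n S T, (if l ∈ n.primeFactors ∧ l ∉ B then eT n T l else (1 : ℤ)) =
        if l ∈ n.primeFactors \ B then eT n T l else 1 := by
      intro l _
      simp only [Finset.mem_sdiff]
    rw [Finset.prod_congr rfl e2, Finset.prod_ite_mem, Finset.inter_eq_right.2
      (Finset.sdiff_subset.trans sub_QQ)]
  rw [e1, split_QQ]
  ring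

/-! ### the product formulas -/

/-- the powers away from `n` -/
theorem out_one (h : FF n) {c S T : ℕ} (hc : c = 1 ∨ c = 2) (hS : S ≠ 0) (hT : T ≠ 0)
    (hST : S + T = c * n) (hL : 2 ∉ n.primeFactors → L2 n S T ≠ 0)
    (hF : ∀ l ∈ Q' n S T, Ff n S T l ≠ 0) {l : ℕ} (hl : l ∈ QQ n S T)
    (hlP : l ∉ n.primeFactors) (h5 : l ≠ 3) (h3 : l ≠ 5) :
    Ps n l ^ S.factorization l = 1 ∧ Ps n l ^ T.factorization l = 1 := by
  by_cases h2 : l = 2
  · subst h2
    have h6 := hL hlP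
    unfold L2 at h6
    rw [if_neg hlP] at h6
    have hx := Ps_pm (n := n) (m := 2) (by norm_num)
    exact ⟨pow_alt hx (left_ne_zero_of_mul h6), pow_alt hx (right_ne_zero_of_mul h6)⟩
  have hl' : l ∈ Q' n S T :=
    Finset.mem_erase.2 ⟨h5, Finset.mem_erase.2 ⟨h3, Finset.mem_erase.2 ⟨h2, hl⟩⟩⟩
  obtain ⟨hp, _, _, _, hm⟩ := mem_Q' hl'
  have h6 := hF l hl'
  unfold Ff at h6
  rw [if_pos (hm hlP), facg_eq h hS hT hp h2 hlP] at h6
  have hx := Ps_pm (n := n) hp.ne_zero
  rcases one_zero h hc hS hT hST hp h2 hlP with h0 | h0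
  · rw [h0, zero_add] at h6
    rw [h0, pow_zero]
    exact ⟨rfl, pow_alt hx h6⟩
  · rw [h0, add_zero] at h6
    rw [h0, pow_zero]
    exact ⟨pow_alt hx h6, rfl⟩

/-- the factor of the level primes away from `n` -/
def dl (n T : ℕ) : ℤ := (if 3 ∈ n.primeFactors then 1 else Ps n 3 ^ T.factorization 3) *
  (if 5 ∈ n.primeFactors then 1 else Ps n 5 ^ T.factorization 5)

theorem dl_sq (n T : ℕ) : dl n T * dl n T = 1 := by
  have h3 : ∀ k : ℕ, Ps n 3 ^ k * Ps n 3 ^ k = 1 := fun k => by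
    rw [← mul_pow]
    rcases Ps_pm (n := n) (m := 3) (by norm_num) with h | h <;> rw [h] <;> norm_num
  have h7 : ∀ k : ℕ, Ps n 5 ^ k * Ps n 5 ^ k = 1 := fun k => by
    rw [← mul_pow]
    rcases Ps_pm (n := n) (m := 5) (by norm_num) with h | h <;> rw [h] <;> norm_num
  unfold dl
  split_ifs
  · norm_num
  · rw [one_mul, h7]
  · rw [mul_one, h3]
  · linear_combination (Ps n 5 ^ T.factorization 5 * Ps n 5 ^ T.factorization 5) *
      h3 (T.factorization 3) + h7 (T.factorization 5)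

theorem prod_pow_out {U : ℕ} (hU : U ≠ 0) {S T : ℕ} (hsub : U.primeFactors ⊆ QQ n S T)
    (ho : ∀ l ∈ QQ n S T, l ∉ n.primeFactors → l ≠ 3 → l ≠ 5 → Ps n l ^ U.factorization l = 1) :
    ∏ l ∈ n.primeFactors, Ps n l ^ U.factorization l = Ps n U * dl n U := by
  classical
  have e1 : Ps n U = ∏ l ∈ QQ n S T, Ps n l ^ U.factorization l := Ps_fac n _ U hU hsub
  have e2 : ∏ l ∈ QQ n S T, Ps n l ^ U.factorization l =
      (∏ l ∈ n.primeFactors, Ps n l ^ U.factorization l) *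
        ∏ l ∈ QQ n S T \ n.primeFactors, Ps n l ^ U.factorization l := by
    rw [mul_comm]
    exact (Finset.prod_sdiff sub_QQ).symm
  have e3 : ∏ l ∈ QQ n S T \ n.primeFactors, Ps n l ^ U.factorization l = dl n U := by
    have e4 : ∀ l ∈ QQ n S T \ n.primeFactors, Ps n l ^ U.factorization l =
        (if l = 3 then Ps n 3 ^ U.factorization 3 else 1) *
          (if l = 5 then Ps n 5 ^ U.factorization 5 else 1) := by
      intro l hl
      rw [Finset.mem_sdiff] at hl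
      by_cases h3 : l = 3
      · subst h3
        rw [if_pos rfl, if_neg (by norm_num), mul_one]
      by_cases h7 : l = 5
      · subst h7
        rw [if_pos rfl, if_neg (by norm_num), one_mul]
      rw [if_neg h3, if_neg h7, ho l hl.1 hl.2 h3 h7, one_mul]
    rw [Finset.prod_congr rfl e4, Finset.prod_mul_distrib,
      Finset.prod_ite_eq' _ 3 (fun _ => Ps n 3 ^ U.factorization 3),
      Finset.prod_ite_eq' _ 5 (fun _ => Ps n 5 ^ U.factorization 5)]
    unfold dl
    simp only [Finset.mem_sdiff, mem_QQ3, mem_QQ5, true_and]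
    by_cases h3 : 3 ∈ n.primeFactors <;> by_cases h7 : 5 ∈ n.primeFactors <;> simp [h3, h7]
  rw [e1, e2, e3, mul_assoc, dl_sq, mul_one]

/-- the product of the signs attached to `T` -/
theorem prod_eT (h : FF n) {c S T : ℕ} (hc : c = 1 ∨ c = 2) (hS : S ≠ 0) (hT : T ≠ 0)
    (hST : S + T = c * n) (hL : 2 ∉ n.primeFactors → L2 n S T ≠ 0)
    (hF : ∀ l ∈ Q' n S T, Ff n S T l ≠ 0) :
    ∏ l ∈ n.primeFactors, eT n T l = -dl n T := by
  have hsub : T.primeFactors ⊆ QQ n S T :=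
    (Nat.primeFactors_mono (dvd_mul_left T S) (mul_ne_zero hS hT)).trans pf_QQ
  have e4 := prod_pow_out hT hsub fun l hl hlP h3 h7 =>
    (out_one h hc hS hT hST hL hF hl hlP h3 h7).2
  have c2 : Ps n T * Ps n T = 1 := by
    rcases Ps_pm (n := n) hT with h | h <;> rw [h] <;> norm_num
  unfold eT
  rw [Finset.prod_mul_distrib, Finset.prod_mul_distrib, h.kprod, e4]
  have e5 : ∏ l ∈ n.primeFactors, cq n l T = Ps n T := rfl
  rw [e5]
  linear_combination (-(dl n T)) * c2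

/-- the product of the signs attached to `S` -/
theorem prod_eS (h : FF n) {c S T : ℕ} (hc : c = 1 ∨ c = 2) (hS : S ≠ 0) (hT : T ≠ 0)
    (hST : S + T = c * n) (hL : 2 ∉ n.primeFactors → L2 n S T ≠ 0)
    (hF : ∀ l ∈ Q' n S T, Ff n S T l ≠ 0) :
    ∏ l ∈ n.primeFactors, eS n S l = dl n S := by
  have hsub : S.primeFactors ⊆ QQ n S T :=
    (Nat.primeFactors_mono (dvd_mul_right S T) (mul_ne_zero hS hT)).trans pf_QQ
  have e4 := prod_pow_out hS hsub fun l hl hlP h3 h7 =>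
    (out_one h hc hS hT hST hL hF hl hlP h3 h7).1
  have c2 : Ps n S * Ps n S = 1 := by
    rcases Ps_pm (n := n) hS with h | h <;> rw [h] <;> norm_num
  unfold eS
  rw [Finset.prod_mul_distrib, e4]
  have e5 : ∏ l ∈ n.primeFactors, cq n l S = Ps n S := rfl
  rw [e5]
  linear_combination (dl n S) * c2

/-- the signs at the odd primes apart from `3` and `5` agree -/
theorem eS_eq (h : FF n) {c S T : ℕ} (hS : S ≠ 0) (hT : T ≠ 0)
    (hST : S + T = c * n) (hF : ∀ l ∈ Q' n S T, Ff n S T l ≠ 0) {p : ℕ}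
    (hp : p ∈ n.primeFactors.erase 2) (h5 : p ≠ 3) (h3 : p ≠ 5) : eS n S p = eT n T p := by
  have hp' := Finset.mem_of_mem_erase hp
  have hpp := pf_prime hp'
  have h2 := Finset.ne_of_mem_erase hp
  by_cases h1 : p ∣ T
  · have hl' : p ∈ Q' n S T :=
      Finset.mem_erase.2 ⟨h5, Finset.mem_erase.2 ⟨h3, Finset.mem_erase.2 ⟨h2, sub_QQ hp'⟩⟩⟩
    have h6 := hF p hl'
    unfold Ff fac at h6
    rw [if_pos ((mem_ST hS hT hpp).2 (Or.inr h1)), if_pos (pf_dvd hp'), hh_ST h hS hT hp] at h6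
    have c1 := eT_sq (n := n) hpp hT
    have c3 := eS_sq (n := n) hpp hS
    rcases mul_self_eq_one_iff.1 c1 with h7 | h7 <;> rcases mul_self_eq_one_iff.1 c3 with h8 | h8 <;>
      rw [h7, h8] at h6 ⊢ <;> norm_num at h6
  · exact eS_nd hST hp h1

/-- the product formula -/
theorem s_rel (h : FF n) {c S T : ℕ} (hc : c = 1 ∨ c = 2) (hS : S ≠ 0) (hT : T ≠ 0)
    (hST : S + T = c * n) (hL : 2 ∉ n.primeFactors → L2 n S T ≠ 0)
    (hF : ∀ l ∈ Q' n S T, Ff n S T l ≠ 0) :
    hl n S T 2 * hl n S T 3 * hl n S T 5 = -(dl n S * dl n T) := by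
  classical
  have e1 : ∏ l ∈ n.primeFactors, (eS n S l * eT n T l) = -(dl n S * dl n T) := by
    rw [Finset.prod_mul_distrib, prod_eT h hc hS hT hST hL hF, prod_eS h hc hS hT hST hL hF]
    ring
  have e2 : ∏ l ∈ n.primeFactors, (eS n S l * eT n T l) =
      ∏ l ∈ n.primeFactors, ((if l = 2 then eS n S 2 * eT n T 2 else 1) *
        (if l = 3 then eS n S 3 * eT n T 3 else 1) * (if l = 5 then eS n S 5 * eT n T 5 else 1)) := by
    refine Finset.prod_congr rfl fun l hl => ?_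
    by_cases h2 : l = 2
    · subst h2
      rw [if_pos rfl, if_neg (by norm_num), if_neg (by norm_num), mul_one, mul_one]
    by_cases h5 : l = 3
    · subst h5
      rw [if_pos rfl, if_neg (by norm_num), if_neg (by norm_num), one_mul, mul_one]
    by_cases h7 : l = 5
    · subst h7
      rw [if_pos rfl, if_neg (by norm_num), if_neg (by norm_num), one_mul, one_mul]
    rw [if_neg h2, if_neg h5, if_neg h7, eS_eq h hS hT hST hF (Finset.mem_erase.2 ⟨h2, hl⟩) h5 h7,
      eT_sq (pf_prime hl) hT, one_mul, one_mul]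
  rw [e2, Finset.prod_mul_distrib, Finset.prod_mul_distrib,
    Finset.prod_ite_eq' n.primeFactors 2 (fun _ => eS n S 2 * eT n T 2),
    Finset.prod_ite_eq' n.primeFactors 3 (fun _ => eS n S 3 * eT n T 3),
    Finset.prod_ite_eq' n.primeFactors 5 (fun _ => eS n S 5 * eT n T 5)] at e1
  exact e1

/-- the factor at `2` -/
theorem two_L2 (h : FF n) {c S T : ℕ} (hc : c = 1 ∨ c = 2) (hS : S ≠ 0) (hT : T ≠ 0)
    (hST : S + T = c * n) (hL : 2 ∉ n.primeFactors → L2 n S T ≠ 0)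
    (hF : ∀ l ∈ Q' n S T, Ff n S T l ≠ 0)
    (h2T : 2 ∈ n.primeFactors → ¬ 2 ∣ T → eS n S 2 = eT n T 2) :
    2 * L2 n S T = (1 - dl n S * dl n T * (hl n S T 3 * hl n S T 5)) * M2 n S T := by
  have e3 := s_rel h hc hS hT hST hL hF
  have q3 := hl_sq (n := n) (l := 3) hS hT
  have q7 := hl_sq (n := n) (l := 5) hS hT
  have q2 := hl_sq (n := n) (l := 2) hS hT
  have e4 : -(dl n S * dl n T * (hl n S T 3 * hl n S T 5)) = hl n S T 2 := by
    have : hl n S T 2 = (hl n S T 2 * hl n S T 3 * hl n S T 5) * (hl n S T 3 * hl n S T 5) := by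
      linear_combination (-(hl n S T 2 * hl n S T 5 * hl n S T 5)) * q3 - (hl n S T 2) * q7
    rw [this, e3]
    ring
  have e5 : 1 - dl n S * dl n T * (hl n S T 3 * hl n S T 5) = 1 + hl n S T 2 := by
    rw [← e4]; ring
  rw [e5]
  unfold L2 M2
  by_cases h2 : 2 ∈ n.primeFactors
  · rw [if_pos h2, if_pos h2]
    have e6 : hl n S T 2 = eS n S 2 * eT n T 2 := if_pos h2
    by_cases hT2 : 2 ∣ T
    · rw [if_pos hT2, if_pos hT2, e6]
      ring
    · rw [if_neg hT2, if_neg hT2, e6, h2T h2 hT2, eT_sq Nat.prime_two hT]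
      norm_num
  · have e6 : hl n S T 2 = 1 := if_neg h2
    rw [if_neg h2, if_neg h2, e6]
    ring

/-- the product of the local factors away from `30` -/
def R1 (n D : ℕ) : ℤ := ∏ l ∈ ((D.primeFactors.erase 2).erase 3).erase 5, fac n D l

/-! ### the main identities -/

/-- the factors away from `2`, `3` and `5` -/
def Fs (n S T : ℕ) : ℤ := ∏ l ∈ Q' n S T, Ff n S T l

theorem Fs_eq (S T : ℕ) : Fs n S T = R1 n (S * T) := by
  unfold Fs R1
  exact prod_Ff

theorem nv_or (n S T : ℕ) : ((∀ l ∈ Q' n S T, Ff n S T l ≠ 0) ∧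
    (2 ∉ n.primeFactors → L2 n S T ≠ 0)) ∨ (L2 n S T * Fs n S T = 0 ∧ M2 n S T * Fs n S T = 0) := by
  by_cases hF : ∀ l ∈ Q' n S T, Ff n S T l ≠ 0
  · by_cases hL : 2 ∉ n.primeFactors → L2 n S T ≠ 0
    · exact Or.inl ⟨hF, hL⟩
    · right
      push Not at hL
      have e2 : M2 n S T = 0 := by
        have := hL.2
        unfold L2 at this
        unfold M2
        rw [if_neg hL.1] at this ⊢
        exact this
      rw [hL.2, e2, zero_mul]
      exact ⟨rfl, rfl⟩
  · right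
    push Not at hF
    obtain ⟨l, hl, hl0⟩ := hF
    have : Fs n S T = 0 := Finset.prod_eq_zero hl hl0
    rw [this, mul_zero, mul_zero]
    exact ⟨rfl, rfl⟩

theorem main_T (h : Fn n) {c S T : ℕ} (hc : c = 1 ∨ c = 2) (hS : S ≠ 0) (hT : T ≠ 0)
    (hST : S + T = c * n) :
    (∏ l ∈ n.primeFactors, eT n T l) * (L2 n S T * Fs n S T) =
      -dl n T * (L2 n S T * Fs n S T) := by
  rcases nv_or n S T with ⟨hF, hL⟩ | ⟨h1, _⟩
  · rw [prod_eT (FF_of h) hc hS hT hST hL hF]
  · rw [h1, mul_zero, mul_zero]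

theorem main_2 (h : Fn n) {c S T : ℕ} (hc : c = 1 ∨ c = 2) (hS : S ≠ 0) (hT : T ≠ 0)
    (hST : S + T = c * n) :
    2 * (L2 n S T * Fs n S T) =
      (1 - dl n S * dl n T * (hl n S T 3 * hl n S T 5)) * (M2 n S T * Fs n S T) := by
  rcases nv_or n S T with ⟨hF, hL⟩ | ⟨h1, h2⟩
  · have h2T : 2 ∈ n.primeFactors → ¬ 2 ∣ T → eS n S 2 = eT n T 2 := fun h2 hT2 =>
      e2_eq ⟨Fn_two h (pf_dvd h2)⟩ hST hT2
    have := two_L2 (FF_of h) hc hS hT hST hL hF h2T
    rw [← mul_assoc, this]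
    ring
  · rw [h1, h2, mul_zero, mul_zero]

/-- the signs at the primes of `A` -/
theorem main_A {A m : ℕ} (hA : A = 1 ∨ N969.RQ.Fd A) (hm : Fn m) (hcop : Nat.Coprime A m)
    {c S T : ℕ} (hc : c = 1 ∨ c = 2) (hS : S ≠ 0) (hT : T ≠ 0) (hST : S + T = c * (A * m))
    (h3 : 3 ∣ A → ¬ 3 ∣ T) (h7 : 5 ∣ A → ¬ 5 ∣ T) :
    (∏ l ∈ A.primeFactors, eT (A * m) T l) * (L2 (A * m) S T * Fs (A * m) S T) =
      sgnE c A (A * m) T * (L2 (A * m) S T * Fs (A * m) S T) := by
  obtain ⟨hF, hk⟩ := Fn_mul hA hm hcop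
  have hFF := FF_of hF
  have hA0 : A ≠ 0 := by
    rintro rfl
    exact hFF.n0 (by rw [zero_mul])
  have hm0 : m ≠ 0 := by
    rintro rfl
    exact hFF.n0 (by rw [mul_zero])
  have hsub : A.primeFactors ⊆ (A * m).primeFactors :=
    Nat.primeFactors_mono (Dvd.intro m rfl) (Nat.mul_ne_zero hA0 hm0)
  rcases nv_or (A * m) S T with ⟨hF', hL⟩ | ⟨h1, _⟩
  · congr 1
    have e : ∏ p ∈ A.primeFactors, eT (A * m) T p =
        (∏ p ∈ A.primeFactors, kq (A * m) p) * sgnE c A (A * m) T := by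
      unfold sgnE
      rw [← Finset.prod_mul_distrib]
      refine Finset.prod_congr rfl fun p hp => ?_
      have hTn : T < c * (A * m) := by omega
      by_cases h2 : p = 2
      · subst h2
        rw [if_pos rfl, eT_two (Fn_two hF ((pf_dvd hp).mul_right m)) hT]
      · rw [if_neg h2]
        have hp' : p ∈ (A * m).primeFactors.erase 2 := Finset.mem_erase.2 ⟨h2, hsub hp⟩
        refine eT_odd hFF hT hc hTn hp' fun hpT _ => ?_
        have hp3 : p ≠ 3 := by
          rintro rfl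
          exact h3 (pf_dvd hp) hpT
        have hp5 : p ≠ 5 := by
          rintro rfl
          exact h7 (pf_dvd hp) hpT
        have e3 : c * (A * m) - T = S := by omega
        rw [e3, eS_eq hFF hS hT hST hF' hp' hp3 hp5, eT_sq (pf_prime hp) hT]
        norm_num
    rw [e, hk, one_mul]
  · rw [h1, mul_zero, mul_zero]

/-- the signs at the primes of `m` -/
theorem main_m {A m : ℕ} (hA : A = 1 ∨ N969.RQ.Fd A) (hm : Fn m) (hcop : Nat.Coprime A m)
    {c S T : ℕ} (hc : c = 1 ∨ c = 2) (hS : S ≠ 0) (hT : T ≠ 0) (hST : S + T = c * (A * m))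
    (h3 : 3 ∣ A → ¬ 3 ∣ T) (h7 : 5 ∣ A → ¬ 5 ∣ T) :
    (∏ l ∈ m.primeFactors, eT (A * m) T l) * (L2 (A * m) S T * Fs (A * m) S T) =
      -(dl (A * m) T * sgnE c A (A * m) T) * (L2 (A * m) S T * Fs (A * m) S T) := by
  obtain ⟨hF, hk⟩ := Fn_mul hA hm hcop
  have e1 := main_A hA hm hcop hc hS hT hST h3 h7
  have e2 := main_T hF hc hS hT hST
  have hFF := FF_of hF
  have hA0 : A ≠ 0 := by
    rintro rfl
    exact hFF.n0 (by rw [zero_mul])
  have hm0 : m ≠ 0 := by
    rintro rfl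
    exact hFF.n0 (by rw [mul_zero])
  rw [Nat.primeFactors_mul hA0 hm0, Finset.prod_union hcop.disjoint_primeFactors] at e2
  have e3 : (∏ l ∈ A.primeFactors, eT (A * m) T l) * ∏ l ∈ A.primeFactors, eT (A * m) T l = 1 := by
    rw [← Finset.prod_mul_distrib]
    exact Finset.prod_eq_one fun l hl => eT_sq (pf_prime hl) hT
  generalize ∏ l ∈ A.primeFactors, eT (A * m) T l = a at *
  generalize ∏ l ∈ m.primeFactors, eT (A * m) T l = b at *
  generalize L2 (A * m) S T * Fs (A * m) S T = F at *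
  linear_combination (-(b * F)) * e3 + a * e2 - (dl (A * m) T) * e1

/-! ### the densities -/

theorem R1_four (h : FF n) {D : ℕ} (hD : D ≠ 0) : R1 n (4 * D) = R1 n D := by
  unfold R1
  rw [pf_four hD]
  refine Finset.prod_congr rfl fun l hl => ?_
  have h1 := Finset.mem_erase.1 (Finset.mem_of_mem_erase (Finset.mem_of_mem_erase hl))
  exact fac_four h hD (Nat.prime_of_mem_primeFactors h1.2) h1.1


end Pool.Agent.N871.G15
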