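import Pool.Agent.N970.Sgn.Psi
import Pool.Agent.N970.P17G.Two
import Pool.Agent.N970.P17G.Odd
import Pool.Agent.N973.P15G.Lines
import Pool.Agent.N973.P15G.Defs2

/-!
# The sign functions on the vectors of the lattice ramified at `3`
-/

set_option autoImplicit false

namespace Pool.Agent.N871.P15G

open Finset
open Pool.Agent.N969.P15 (V3 Ev c2)
open Pool.Agent.N877.P21 (ip vec)
open Pool.Agent.N218.P21 (mem_vec)
open Pool.Agent.N969.P17G (sgp sg2 sgn sgnE t2)
open Pool.Agent.N844.P17G (Iso sig rel)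
open Pool.Agent.N970.P17G (sgp_rel hs hs_mul hs_sq_mul hs_two hs_norm hs_pm hs_near hs_neg_one c2_pm
  t2_pm t2_sq sg2_ne sg2_zero sqrt_neg_seven sq8)
open Pool.Agent.N970.Sgn

/-! ### the form -/

theorem frm : Frm ip 6 where
  symm := by intro v w; unfold ip; ring
  lin := by
    intro u v w x y
    simp only [ip, Pi.add_apply, Pi.smul_apply, smul_eq_mul]
    ring
  gram := by
    intro u v w
    simp only [ip, det3]
    ring

theorem ip_neg (v w : V3) : ip v (-w) = - ip v w := by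
  simp only [ip, Pi.neg_apply]; ring

theorem neg_ip (v w : V3) : ip (-v) w = - ip v w := by
  simp only [ip, Pi.neg_apply]; ring

/-- the sum is even -/
theorem par {n : ℤ} {v w : V3} (hv : ip v v = n) (hw : ip w w = n) :
    2 * ((n + ip v w) / 2) = n + ip v w := by
  have h1 : v 0 % 2 = n % 2 := by
    have : (v 0 * v 0) % 2 = n % 2 := by rw [← hv]; unfold ip; omega
    rcases Int.emod_two_eq_zero_or_one (v 0) with h | h <;>
      simp [Int.mul_emod, h] at this ⊢ <;> omega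
  have h2 : w 0 % 2 = n % 2 := by
    have : (w 0 * w 0) % 2 = n % 2 := by rw [← hw]; unfold ip; omega
    rcases Int.emod_two_eq_zero_or_one (w 0) with h | h <;>
      simp [Int.mul_emod, h] at this ⊢ <;> omega
  have h3 : (v 0 * w 0) % 2 = n % 2 := by
    rw [Int.mul_emod, h1, h2]
    rcases Int.emod_two_eq_zero_or_one n with h | h <;> rw [h] <;> rfl
  have h4 : (n + ip v w) % 2 = 0 := by unfold ip; omega
  omega

/-! ### the odd primes -/

section gen

variable {p : ℕ} [hp : Fact p.Prime]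

theorem not_dvd_six (h2 : p ≠ 2) (h3 : p ≠ 3) : ¬ (p : ℤ) ∣ 6 := by
  intro h
  have h' : p ∣ 2 * 3 := by exact_mod_cast h
  rcases (Nat.Prime.dvd_mul hp.out).1 h' with h | h
  · exact h2 ((Nat.prime_dvd_prime_iff_eq hp.out Nat.prime_two).1 h)
  · exact h3 ((Nat.prime_dvd_prime_iff_eq hp.out Nat.prime_three).1 h)

/-- the frozen sign of two vectors is the relative sign -/
theorem sgp_sig {ip : V3 → V3 → ℤ} {K : ℤ} (F : Frm ip K) (h2 : p ≠ 2) (hK : ¬ (p : ℤ) ∣ K)
    {n : ℕ} (hn : p ∣ n) (hn2 : ¬ p ^ 2 ∣ n) {v w : V3} (hv : ip v v = n) (hw : ip w w = n)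
    {T : ℤ} (hT : 2 * T = n + ip v w) : sgp 1 n p T = sig ip p v w := by
  have hpn : (p : ℤ) ∣ n := by exact_mod_cast hn
  have hn2' : ¬ (p : ℤ) ^ 2 ∣ n := fun h => hn2 (by exact_mod_cast h)
  have iv : Iso ip p v := iso_of F hv hpn hn2'
  have iw : Iso ip p w := iso_of F hw hpn hn2'
  have e1 : ∀ u x : V3, ip u ((-1 : ℤ) • x) = - ip u x := by
    intro u x
    have e : (-1 : ℤ) • x = (-1 : ℤ) • x + (0 : ℤ) • x := by rw [zero_smul, add_zero]
    rw [e, F.lin]
    ring
  have hm1 : ((-1 : ℤ) : ZMod p) ≠ 0 := by simp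
  have hc : ((1 : ℤ) : ZMod p) ≠ 0 := by simp
  have iw' : Iso ip p ((-1 : ℤ) • w) := sim_iso F F (sim_smul F (-1)) h2 hK hm1 iw
  have h1 := sig_rel F h2 hK (c := 1) hn hn2 hc hv (w := (-1 : ℤ) • w) (S := n - T) (T := T)
    (by rw [e1, F.symm, e1, F.symm, neg_neg, hw]; ring) (by ring) (by rw [e1]; linarith)
  have h5 := sgp_rel hn hn2 1 T
  push_cast at h5
  rw [one_mul] at h5
  rw [h5, ← h1, ← sig_mul F h2 hK iv iw iw', sig_smul F h2 hK hm1 iw, ← jac_eq,
    mul_comm, mul_assoc, ← jacobiSym.mul_left]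
  norm_num

end gen

/-- the local sign -/
noncomputable def lo (n p : ℕ) (T : ℤ) : ℤ := if p = 2 then sg2 1 n T else sgp 1 n p T

/-- a sign function -/
def HasP (n p : ℕ) : Prop := ∃ f : V3 → ℤ, (∀ v, f v = 1 ∨ f v = -1) ∧
  ∀ v ∈ vec n, ∀ w ∈ vec n, lo n p ((n + ip v w) / 2) = f v * f w

theorem has_odd {n p : ℕ} (hp : p.Prime) (h2 : p ≠ 2) (h3 : p ≠ 3) (hn : p ∣ n)
    (hn2 : ¬ p ^ 2 ∣ n) : HasP n p := by
  have : Fact p.Prime := ⟨hp⟩
  have hK := not_dvd_six (p := p) h2 h3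
  have hpn : (p : ℤ) ∣ n := by exact_mod_cast hn
  have hn2' : ¬ (p : ℤ) ^ 2 ∣ n := fun h => hn2 (by exact_mod_cast h)
  have iv : ∀ v ∈ vec n, Iso ip p v := fun v hv => iso_of frm (mem_vec.1 hv) hpn hn2'
  classical
  refine ⟨fun v => if v ∈ vec n then psi ip p v else 1, ?_, ?_⟩
  · intro v
    show (if v ∈ vec n then psi ip p v else 1) = 1 ∨ (if v ∈ vec n then psi ip p v else 1) = -1
    split_ifs with h
    · exact psi_pm frm h2 hK (iv v h)
    · exact Or.inl rfl
  · intro v hv w hw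
    simp only [if_pos hv, if_pos hw]
    rw [lo, if_neg h2, psi_mul frm h2 hK (iv v hv) (iv w hw)]
    exact sgp_sig frm h2 hK hn hn2 (mem_vec.1 hv) (mem_vec.1 hw)
      (par (mem_vec.1 hv) (mem_vec.1 hw))

/-! ### the prime two -/

/-- the cocycle identity -/
theorem cocyc {N : ℤ} {x y z : V3} (hx : ip x x = N) (hy : ip y y = N) (hz : ip z z = N) :
    2 * ((N + ip x y) * (N + ip y z) * (N + ip x z)) =
      (6 * det3 x y z) ^ 2 + N * (N + (ip x y + ip y z + ip x z)) ^ 2 := by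
  have h := frm.gram x y z
  rw [hx, hy, hz] at h
  linear_combination h

/-- the comparison with an arbitrary third vector -/
theorem compare (x y z : V3) :
    (ip x x * ip y y - ip x y ^ 2) * (ip x x * ip z z - ip x z ^ 2) =
      (ip x x * ip y z - ip x y * ip x z) ^ 2 + ip x x * (6 * det3 x y z) ^ 2 := by
  have h := frm.gram x y z
  linear_combination ip x x * h

/-- the sign of a pair of vectors of norm `n` -/
noncomputable def KK (n : ℕ) (x y : V3) : ℤ :=
  if (n : ℤ) + ip x y = 0 then c2 n (-1) else t2 n * hs n ((n : ℤ) + ip x y)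

theorem c2_neg_pm (n : ℕ) : c2 n (-1) = 1 ∨ c2 n (-1) = -1 := c2_pm n (by norm_num)

theorem KK_pm (n : ℕ) (x y : V3) : KK n x y = 1 ∨ KK n x y = -1 := by
  unfold KK
  split_ifs with h
  · exact c2_neg_pm n
  · rcases t2_pm n with h1 | h1 <;> rcases hs_pm n h with h2 | h2 <;> rw [h1, h2] <;> norm_num

theorem KK_sq (n : ℕ) (x y : V3) : KK n x y * KK n x y = 1 := by
  rcases KK_pm n x y with h | h <;> rw [h] <;> norm_num

theorem KK_comm (n : ℕ) (x y : V3) : KK n x y = KK n y x := by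
  unfold KK
  rw [frm.symm x y]

/-- equality in the Cauchy-Schwarz inequality -/
theorem eq_neg {n : ℕ} {x y : V3} (hx : ip x x = n) (hy : ip y y = n)
    (h : (n : ℤ) + ip x y = 0) : y = -x := by
  have h1 : ip (x + y) (x + y) = 0 := by
    have e : ip (x + y) (x + y) = ip x x + 2 * ip x y + ip y y := by
      simp only [ip, Pi.add_apply]; ring
    rw [e, hx, hy]
    linarith
  have h2 : ip (x + y) (x + y) = 3 * (x 0 + y 0) ^ 2 + 2 * (x 1 + y 1) ^ 2 + 2 * (x 2 + y 2) ^ 2 +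
      2 * ((x 1 + y 1) + (x 2 + y 2)) ^ 2 := by
    simp only [ip, Pi.add_apply]; ring
  rw [h1] at h2
  have a0 : (x 0 + y 0) ^ 2 = 0 := by
    nlinarith [sq_nonneg (x 0 + y 0), sq_nonneg (x 1 + y 1), sq_nonneg (x 2 + y 2),
      sq_nonneg ((x 1 + y 1) + (x 2 + y 2))]
  have a1 : (x 1 + y 1) ^ 2 = 0 := by
    nlinarith [sq_nonneg (x 0 + y 0), sq_nonneg (x 1 + y 1), sq_nonneg (x 2 + y 2),
      sq_nonneg ((x 1 + y 1) + (x 2 + y 2))]
  have a2 : (x 2 + y 2) ^ 2 = 0 := by
    nlinarith [sq_nonneg (x 0 + y 0), sq_nonneg (x 1 + y 1), sq_nonneg (x 2 + y 2),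
      sq_nonneg ((x 1 + y 1) + (x 2 + y 2))]
  rw [sq_eq_zero_iff] at a0 a1 a2
  funext i
  fin_cases i
  · show y 0 = - x 0
    linarith
  · show y 1 = - x 1
    linarith
  · show y 2 = - x 2
    linarith

/-- a vector of norm seven -/
def e7 : V3 := ![1, 1, 0]

theorem ip_e7 : ip e7 e7 = 7 := by
  unfold ip e7
  simp

/-- the symbol of a vector and its opposite with a third one -/
theorem KK_neg {n : ℕ} (hn : Ev n) {x y : V3} (hx : ip x x = n) (hy : ip y y = n) :
    KK n x y * KK n (-x) y = c2 n (-1) := by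
  have hn0 : (n : ℤ) ≠ 0 := by
    obtain ⟨m, rfl, hs, _⟩ := hn
    have := hs.ne_zero
    exact_mod_cast (by omega : 4 * m ≠ 0)
  have hself : ∀ z : V3, ip z z = n → KK n z z = 1 := by
    intro z hz
    unfold KK
    rw [hz, if_neg (by intro h; apply hn0; linarith)]
    have e : (n : ℤ) + n = 2 * n := by ring
    rw [e, hs_mul n two_ne_zero hn0, hs_two]
    have h1 : hs n n = 1 := by
      have := hs_norm hn (x := 0) (y := 1) (by simpa using hn0)
      simpa using this
    rw [h1, mul_one, t2_sq]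
  have hopp : ∀ z : V3, ip z z = n → KK n (-z) z = c2 n (-1) := by
    intro z hz
    unfold KK
    rw [neg_ip, hz, if_pos (by ring)]
  by_cases h1 : (n : ℤ) + ip x y = 0
  · have := eq_neg hx hy h1
    subst this
    have h2 : ip (-x) (-x) = n := hy
    rw [hself (-x) h2, KK_comm n x (-x), hopp x hx, mul_one]
  by_cases h2 : (n : ℤ) + ip (-x) y = 0
  · have hx' : ip (-x) (-x) = n := by rw [neg_ip, ip_neg, neg_neg, hx]
    have := eq_neg hx' hy h2
    rw [neg_neg] at this
    subst this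
    rw [hself y hx, hopp y hx, one_mul]
  · unfold KK
    rw [if_neg h1, if_neg h2]
    have e1 : t2 n * hs n ((n : ℤ) + ip x y) * (t2 n * hs n ((n : ℤ) + ip (-x) y)) =
        hs n (((n : ℤ) + ip x y) * ((n : ℤ) + ip (-x) y)) := by
      rw [hs_mul n h1 h2]
      linear_combination hs n ((n : ℤ) + ip x y) * hs n ((n : ℤ) + ip (-x) y) * t2_sq n
    rw [e1]
    have hg0 : ((n : ℤ) + ip x y) * ((n : ℤ) + ip (-x) y) ≠ 0 := mul_ne_zero h1 h2
    have hcmp := compare x y e7
    rw [hx, hy, ip_e7] at hcmp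
    have e2 : ((n : ℤ) + ip x y) * ((n : ℤ) + ip (-x) y) =
        n * n - ip x y ^ 2 := by rw [neg_ip]; ring
    rw [e2] at hg0 ⊢
    have hA0 : (n : ℤ) * 7 - ip x e7 ^ 2 ≠ 0 := by
      intro h
      obtain ⟨m, rfl, hs, hm⟩ := hn
      generalize ip x e7 = q at h
      push_cast at h
      rcases Int.emod_two_eq_zero_or_one q with hq | hq
      · obtain ⟨q1, rfl⟩ : ∃ t, q = 2 * t := ⟨q / 2, by omega⟩
        have h3 : q1 ^ 2 = 7 * m := by
          apply mul_left_cancel₀ (by norm_num : (4 : ℤ) ≠ 0)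
          linear_combination -h
        rcases Int.emod_two_eq_zero_or_one q1 with hq | hq
        · obtain ⟨q2, rfl⟩ : ∃ t, q1 = 2 * t := ⟨q1 / 2, by omega⟩
          have h5 : 4 * q2 ^ 2 = 7 * m := by linear_combination h3
          generalize q2 ^ 2 = r at h5
          omega
        · obtain ⟨r, hr⟩ := sq8 hq
          omega
      · obtain ⟨r, hr⟩ := sq8 hq
        omega
    have hA : hs n ((n : ℤ) * 7 - ip x e7 ^ 2) = c2 n (-1) := by
      obtain ⟨k, hk⟩ := hs_near n (neg_ne_zero.2 hA0)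
      obtain ⟨s, w, _, hw⟩ := sqrt_neg_seven k
      have h3 := hk (2 ^ 3 * (w * n))
      have e3 : -((n : ℤ) * 7 - ip x e7 ^ 2) + 2 ^ k * (2 ^ 3 * (w * n)) =
          ip x e7 ^ 2 + n * s ^ 2 := by
        have e4 : (2 : ℤ) ^ (k + 3) = 2 ^ k * 2 ^ 3 := by rw [pow_add]
        rw [e4] at hw
        linear_combination (-(n : ℤ)) * hw
      rw [e3] at h3
      have h4 : ip x e7 ^ 2 + (n : ℤ) * s ^ 2 ≠ 0 := by
        intro h0
        have hpos : 0 < (n : ℤ) := lt_of_le_of_ne (by positivity) (Ne.symm hn0)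
        have hs0 : s ≠ 0 := by
          rintro rfl
          omega
        nlinarith [sq_nonneg (ip x e7), mul_pos hpos (by positivity : 0 < s ^ 2)]
      rw [hs_norm hn h4] at h3
      have h5 : hs n ((n : ℤ) * 7 - ip x e7 ^ 2) =
          hs n (-1) * hs n (-((n : ℤ) * 7 - ip x e7 ^ 2)) := by
        rw [← hs_mul n (by norm_num) (neg_ne_zero.2 hA0)]
        congr 1
        ring
      rw [h5, ← h3, mul_one, hs_neg_one]
    have hprod : hs n (((n : ℤ) * n - ip x y ^ 2) * (n * 7 - ip x e7 ^ 2)) = 1 := by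
      rw [hcmp]
      apply hs_norm hn
      rw [← hcmp]
      exact mul_ne_zero hg0 hA0
    rw [hs_mul n hg0 hA0, hA] at hprod
    rcases c2_neg_pm n with h3 | h3 <;> rw [h3] at hprod ⊢ <;> linarith

/-- the cocycle relation -/
theorem KK_cocyc {n : ℕ} (hn : Ev n) {x y z : V3} (hx : ip x x = n)
    (hy : ip y y = n) (hz : ip z z = n) : KK n x y * KK n x z = KK n y z := by
  have hn0 : (n : ℤ) ≠ 0 := by
    obtain ⟨m, rfl, hs, _⟩ := hn
    have := hs.ne_zero
    exact_mod_cast (by omega : 4 * m ≠ 0)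
  have hneg : ∀ u w : V3, ip u u = n → ip w w = n →
      KK n (-u) w = c2 n (-1) * KK n u w := by
    intro u w hu hw
    have h1 := KK_neg hn hu hw
    rcases KK_pm n u w with h2 | h2 <;> rw [h2] at h1 ⊢ <;> linarith
  have hself : ∀ z : V3, ip z z = n → KK n z z = 1 := by
    intro z hz
    have h1 := KK_neg hn hz hz
    have h2 : KK n (-z) z = c2 n (-1) := by
      unfold KK
      rw [neg_ip, hz, if_pos (by ring)]
    rw [h2] at h1
    rcases c2_neg_pm n with h3 | h3 <;> rw [h3] at h1 <;> linarith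
  by_cases h1 : (n : ℤ) + ip x y = 0
  · have := eq_neg hx hy h1
    subst this
    rw [hneg x z hx hz]
    have h2 : KK n x (-x) = c2 n (-1) := by
      unfold KK
      rw [if_pos h1]
    rw [h2]
  by_cases h2 : (n : ℤ) + ip x z = 0
  · have := eq_neg hx hz h2
    subst this
    have h3 : KK n x (-x) = c2 n (-1) := by
      unfold KK
      rw [if_pos h2]
    rw [KK_comm n y (-x), hneg x y hx hy, h3]
    ring
  by_cases h3 : (n : ℤ) + ip y z = 0
  · have := eq_neg hy hz h3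
    subst this
    have h4 : KK n y (-y) = c2 n (-1) := by
      unfold KK
      rw [if_pos h3]
    rw [h4, KK_comm n x (-y), hneg y x hy hx, KK_comm n y x]
    linear_combination c2 n (-1) * KK_sq n x y
  · have h4 := cocyc hx hy hz
    have hne : 2 * (((n : ℤ) + ip x y) * ((n : ℤ) + ip y z) *
        ((n : ℤ) + ip x z)) ≠ 0 :=
        mul_ne_zero two_ne_zero (mul_ne_zero (mul_ne_zero h1 h3) h2)
    have h5 : hs n (2 * (((n : ℤ) + ip x y) * ((n : ℤ) + ip y z) *
        ((n : ℤ) + ip x z))) = 1 := by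
      rw [h4] at hne ⊢
      exact hs_norm hn hne
    rw [hs_mul n two_ne_zero (mul_ne_zero (mul_ne_zero h1 h3) h2),
      hs_mul n (mul_ne_zero h1 h3) h2, hs_mul n h1 h3, hs_two] at h5
    unfold KK
    rw [if_neg h1, if_neg h2, if_neg h3]
    rcases t2_pm n with a | a <;> rcases hs_pm n h1 with b | b <;> rcases hs_pm n h2 with c | c <;>
      rcases hs_pm n h3 with d | d <;> rw [a, b, c, d] at h5 ⊢ <;> linarith

theorem sg_KK {n : ℕ} {x y : V3} {T : ℤ} (h : 2 * T = (n : ℤ) + ip x y) :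
    sg2 1 n T = KK n x y := by
  unfold KK
  by_cases hT : T = 0
  · subst hT
    rw [sg2_zero, if_pos (by linarith)]
    simp
  · rw [sg2_ne hT, ← h, if_neg (by intro h0; apply hT; linarith),
      hs_mul n two_ne_zero hT, hs_two]
    linear_combination -hs n T * t2_sq n

theorem has_two {n : ℕ} (hn : Ev n) : HasP n 2 := by
  by_cases hne : ∃ e, ip e e = n
  · obtain ⟨e, he⟩ := hne
    refine ⟨fun v => KK n e v, fun v => KK_pm n _ _, ?_⟩
    intro v hv w hw
    rw [lo, if_pos rfl, sg_KK (x := v) (y := w) (par (mem_vec.1 hv) (mem_vec.1 hw)),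
      KK_cocyc hn he (mem_vec.1 hv) (mem_vec.1 hw)]
  · exact ⟨fun _ => 1, fun _ => Or.inl rfl, fun v hv => absurd ⟨_, mem_vec.1 hv⟩ hne⟩

/-! ### the products -/

theorem sg_prod {A n : ℕ} (h : A ∣ n) (T : ℤ) :
    N973.P15G.sg A n T = ∏ p ∈ A.primeFactors, lo n p T := by
  unfold N973.P15G.sg
  split_ifs with h2
  · rfl
  · unfold sgn lo
    refine Finset.prod_congr rfl fun p hp => ?_
    rw [if_neg]
    rintro rfl
    exact h2 ((Nat.dvd_of_mem_primeFactors hp).trans h)

/-- the sign of `A` is given by a sign function -/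
def HasS (A n : ℕ) : Prop := ∃ f : V3 → ℤ, (∀ v, f v = 1 ∨ f v = -1) ∧
  ∀ v ∈ vec n, ∀ w ∈ vec n, N973.P15G.sg A n ((n + ip v w) / 2) = f v * f w

theorem prod_pm {ι : Type*} (s : Finset ι) (f : ι → ℤ) (h : ∀ i ∈ s, f i = 1 ∨ f i = -1) :
    ∏ i ∈ s, f i = 1 ∨ ∏ i ∈ s, f i = -1 := by
  classical
  induction s using Finset.induction_on with
  | empty => simp
  | insert a s ha ih =>
    rw [prod_insert ha]
    rcases h a (mem_insert_self _ _) with h1 | h1 <;>
      rcases ih (fun i hi => h i (mem_insert_of_mem hi)) with h2 | h2 <;> rw [h1, h2] <;> norm_num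

theorem has_of {A n : ℕ} (hA : A ∣ n) (h : ∀ p ∈ A.primeFactors, HasP n p) : HasS A n := by
  classical
  choose! f hf using h
  refine ⟨fun v => ∏ p ∈ A.primeFactors, f p v, fun v => prod_pm _ _ fun p hp => (hf p hp).1 v, ?_⟩
  intro v hv w hw
  rw [sg_prod hA]
  simp only
  rw [← prod_mul_distrib]
  exact prod_congr rfl fun p hp => (hf p hp).2 v hv w hw

theorem sqf_of {n p : ℕ} (hn : N973.P15G.Ng n) (hp : p.Prime) (h2 : p ≠ 2) : ¬ p ^ 2 ∣ n := by
  intro hd
  rcases hn with ⟨hs, -⟩ | ⟨m, rfl, hs, -⟩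
  · exact hp.one_lt.ne' (Nat.isUnit_iff.1 (hs p (by rw [← sq]; exact hd)))
  · have hc : Nat.Coprime (p ^ 2) 4 := by
      have : Nat.Coprime p 2 := (Nat.coprime_primes hp Nat.prime_two).2 h2
      exact (Nat.Coprime.pow 2 2 this : Nat.Coprime (p ^ 2) (2 ^ 2))
    have := hc.dvd_of_dvd_mul_left hd
    exact hp.one_lt.ne' (Nat.isUnit_iff.1 (hs p (by rw [← sq]; exact this)))

theorem hasP {n p : ℕ} (hn : N973.P15G.Ng n) (hp : p.Prime) (h3 : p ≠ 3) (hd : p ∣ n) :
    HasP n p := by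
  by_cases h2 : p = 2
  · subst h2
    rcases hn with ⟨_, h4⟩ | hn
    · omega
    · exact has_two hn
  · exact has_odd hp h2 h3 hd (sqf_of hn hp h2)

/-- **the sign functions** -/
theorem has {A n : ℕ} (hn : N973.P15G.Ng n) (hA : A ∣ n) (h3 : ¬ 3 ∣ A) : HasS A n := by
  refine has_of hA fun p hp => ?_
  have hp' := Nat.prime_of_mem_primeFactors hp
  have hpA := Nat.dvd_of_mem_primeFactors hp
  refine hasP hn hp' ?_ (hpA.trans hA)
  rintro rfl
  exact h3 hpA

end Pool.Agent.N871.P15G
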