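import Pool.Agent.N871.P15G.Van

/-!
# P15G: `S_VANX`, `S_VANR`, `S_VR`, `S_VAN4`; `S_VAN` from `S_EIS`
-/

set_option autoImplicit false

namespace Pool.Agent.N871.P15G

open Finset
open Pool.Agent.N969.P15 (V3 Ev c2)
open Pool.Agent.N877.P21 (ip vec rr)
open Pool.Agent.N218.P21 (mem_vec)
open Pool.Agent.N973.P15G hiding sg P Q

/-! ### the sums as squares -/

/-- a sign function for `A` -/
def Is (A n : ℕ) (f : V3 → ℤ) : Prop := (∀ v, f v = 1 ∨ f v = -1) ∧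
  ∀ v ∈ vec n, ∀ w ∈ vec n, N973.P15G.sg A n ((n + ip v w) / 2) = f v * f w

theorem sq_sum (S : Finset V3) (g : V3 → ℤ) (F : V3 → V3 → ℤ)
    (h : ∀ v ∈ S, ∀ w ∈ S, F v w = g v * g w) : ∑ v ∈ S, ∑ w ∈ S, F v w = (∑ v ∈ S, g v) ^ 2 := by
  rw [sq, sum_mul_sum]
  exact sum_congr rfl fun v hv => sum_congr rfl fun w hw => h v hv w hw

theorem P_sq {A n : ℕ} {f : V3 → ℤ} (h : Is A n f) : N973.P15G.P A n = (∑ v ∈ V n, f v) ^ 2 :=
  sq_sum _ _ _ fun v hv w hw => h.2 v (sub_V hv) w (sub_V hw)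

theorem RR_sq {A n : ℕ} {f : V3 → ℤ} (h : Is A n f) : RR A n = (∑ v ∈ vec n, f v) ^ 2 :=
  sq_sum _ _ _ fun v hv w hw => h.2 v hv w hw

theorem Q_sq {A n : ℕ} {f : V3 → ℤ} (h : Is A n f) :
    N973.P15G.Q A n = (∑ v ∈ V n, s15 (v 1 - v 2) * f v) ^ 2 :=
  sq_sum _ (fun v => s15 (v 1 - v 2) * f v) _ fun v hv w hw => by
    rw [h.2 v (sub_V hv) w (sub_V hw)]
    ring

/-- the action of a substitution -/
theorem act {A n : ℕ} {f : V3 → ℤ} (h : Is A n f) {v w : V3} (hv : v ∈ vec n) (hw : w ∈ vec n)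
    {e : ℤ} (he : N973.P15G.sg A n ((n + ip v w) / 2) = e) : f w = e * f v := by
  rw [← he, h.2 v hv w hw]
  rcases h.1 v with h1 | h1 <;> rw [h1] <;> ring

/-- the vanishing from an involution -/
theorem zero_of {S : Finset V3} {f g : V3 → ℤ} {τ : V3 → V3} (h1 : ∀ v ∈ S, τ v ∈ S)
    (h2 : ∀ v ∈ S, τ (τ v) = v) (h3 : ∀ v ∈ S, f (τ v) = - f v) (h4 : ∀ v ∈ S, g (τ v) = g v) :
    ∑ v ∈ S, g v * f v = 0 := by
  have e1 : ∑ v ∈ S, g v * f v = ∑ v ∈ S, g (τ v) * f (τ v) :=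
    sum_nbij' τ τ h1 h1 h2 h2 (fun v hv => by rw [h2 v hv])
  have e2 : ∑ v ∈ S, g (τ v) * f (τ v) = - ∑ v ∈ S, g v * f v := by
    rw [← sum_neg_distrib]
    exact sum_congr rfl fun v hv => by rw [h3 v hv, h4 v hv]; ring
  linarith

/-! ### the substitution `v ↦ -v` -/

theorem s15_neg (t : ℤ) : s15 (-t) = s15 t := by
  unfold s15
  split_ifs <;> omega

theorem mem_neg {n : ℤ} {v : V3} (hv : v ∈ vec n) : -v ∈ vec n := by
  rw [mem_vec] at hv ⊢
  rw [neg_ip, ip_neg, neg_neg, hv]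

theorem mem_neg_V {n : ℤ} {v : V3} (hv : v ∈ V n) : -v ∈ V n := by
  rw [mem_V] at hv ⊢
  refine ⟨by rw [neg_ip, ip_neg, neg_neg, hv.1], ?_⟩
  simp only [Pi.neg_apply]
  have := (dvd_neg (α := ℤ)).2 hv.2
  have e : -v 0 + 2 * -v 1 + 2 * -v 2 = -(v 0 + 2 * v 1 + 2 * v 2) := by ring
  rw [e]
  exact this

theorem f_neg {A n : ℕ} {f : V3 → ℤ} (h : Is A n f) (h0 : N973.P15G.sg A n 0 = -1) {v : V3}
    (hv : v ∈ vec n) : f (-v) = - f v := by
  have h1 := act h hv (mem_neg hv) (e := -1) (by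
    rw [ip_neg, mem_vec.1 hv, add_neg_cancel, Int.zero_ediv, h0])
  rw [h1]; ring

theorem zero_neg {A n : ℕ} {f : V3 → ℤ} (h : Is A n f) (h0 : N973.P15G.sg A n 0 = -1) :
    ∑ v ∈ vec n, f v = 0 ∧ ∑ v ∈ V n, f v = 0 ∧ ∑ v ∈ V n, s15 (v 1 - v 2) * f v = 0 := by
  refine ⟨?_, ?_, ?_⟩
  · have := zero_of (S := vec n) (f := f) (g := fun _ => 1) (τ := fun v => -v)
      (fun v hv => mem_neg hv) (fun v _ => neg_neg v) (fun v hv => f_neg h h0 hv) (fun _ _ => rfl)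
    simpa using this
  · have := zero_of (S := V n) (f := f) (g := fun _ => 1) (τ := fun v => -v)
      (fun v hv => mem_neg_V hv) (fun v _ => neg_neg v) (fun v hv => f_neg h h0 (sub_V hv))
      (fun _ _ => rfl)
    simpa using this
  · exact zero_of (S := V n) (f := f) (g := fun v => s15 (v 1 - v 2)) (τ := fun v => -v)
      (fun v hv => mem_neg_V hv) (fun v _ => neg_neg v) (fun v hv => f_neg h h0 (sub_V hv))
      (fun v _ => by
        show s15 (-v 1 - -v 2) = s15 (v 1 - v 2)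
        rw [← s15_neg]
        congr 1
        ring)

/-! ### the rotation of norm fifteen -/

theorem zero_rh {A n : ℕ} {f : V3 → ℤ} (h : Is A n f)
    (h0 : ∀ v ∈ V n, N973.P15G.sg A n ((n + ip v (rh v)) / 2) = -1) :
    ∑ v ∈ V n, f v = 0 ∧ ∑ v ∈ V n, s15 (v 1 - v 2) * f v = 0 := by
  have hf : ∀ v ∈ V (n : ℤ), f (rh v) = - f v := by
    intro v hv
    have h1 := act h (sub_V hv) (sub_V (mem_rh hv)) (h0 v hv)
    rw [h1]; ring
  have hr : ∀ v ∈ V (n : ℤ), rh (rh v) = v := fun v hv => rh_rh (mem_V.1 hv).2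
  refine ⟨?_, ?_⟩
  · have := zero_of (S := V n) (f := f) (g := fun _ => 1) (τ := rh)
      (fun v hv => mem_rh hv) hr hf (fun _ _ => rfl)
    simpa using this
  · exact zero_of (S := V n) (f := f) (g := fun v => s15 (v 1 - v 2)) (τ := rh)
      (fun v hv => mem_rh hv) hr hf (fun v _ => by
        show s15 (rh v 1 - rh v 2) = s15 (v 1 - v 2)
        rw [← s15_neg]
        congr 1
        unfold rh
        ring)

/-! ### the rotation of order six -/

theorem sum_O6 {n : ℕ} {f : V3 → ℤ} (hf : ∀ v ∈ vec (n : ℤ), f (om v) = f v) (i : Fin 6) :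
    ∑ v ∈ vec n, (if O6 (i + 1) v then f v else 0) = ∑ v ∈ vec n, (if O6 i v then f v else 0) := by
  rw [← sum_om n (fun v => if O6 i v then f v else 0)]
  refine sum_congr rfl fun v hv => ?_
  simp only [O6_om, hf v hv]

theorem sum_O6_all {n : ℕ} {f : V3 → ℤ} (hf : ∀ v ∈ vec (n : ℤ), f (om v) = f v) (i : Fin 6) :
    ∑ v ∈ vec n, (if O6 i v then f v else 0) = ∑ v ∈ V n, f v := by
  have h0 : ∑ v ∈ vec (n : ℤ), (if O6 0 v then f v else 0) = ∑ v ∈ V n, f v := by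
    unfold V
    rw [sum_filter]
    rfl
  have h1 := sum_O6 hf 0
  have h2 := sum_O6 hf 1
  have h3 := sum_O6 hf 2
  have h4 := sum_O6 hf 3
  have h5 := sum_O6 hf 4
  rw [h0] at h1
  fin_cases i
  · exact h0
  · exact h1
  · exact h2.trans h1
  · exact h3.trans (h2.trans h1)
  · exact h4.trans (h3.trans (h2.trans h1))
  · exact h5.trans (h4.trans (h3.trans (h2.trans h1)))

theorem six_sum {n : ℕ} {f : V3 → ℤ} (hf : ∀ v ∈ vec (n : ℤ), f (om v) = f v) (k : ℤ)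
    (hk : ∀ v ∈ vec (n : ℤ), ∑ i : Fin 6, (if O6 i v then (1 : ℤ) else 0) = k) :
    6 * ∑ v ∈ V n, f v = k * ∑ v ∈ vec n, f v := by
  have h1 : ∑ i : Fin 6, ∑ v ∈ vec (n : ℤ), (if O6 i v then f v else 0) = 6 * ∑ v ∈ V n, f v := by
    rw [sum_congr rfl fun i _ => sum_O6_all hf i]
    simp
  rw [← h1, sum_comm, mul_sum]
  refine sum_congr rfl fun v hv => ?_
  rw [← hk v hv, sum_mul]
  refine sum_congr rfl fun i _ => ?_
  split_ifs <;> ring

theorem one_line {n : ℕ} (h5 : 5 ∣ n) (h25 : ¬ 25 ∣ n) {v : V3} (hv : v ∈ vec (n : ℤ)) :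
    ∑ i : Fin 6, (if O6 i v then (1 : ℤ) else 0) = 1 := by
  have h := ind_ram h5 h25 (w := v) (mem_vec.1 hv)
  rw [mem_vec.1 hv, if_pos (by exact_mod_cast h5)] at h
  refine Eq.trans (sum_congr rfl fun i _ => ?_) h
  split_ifs <;> rfl

theorem two_lines {n : ℕ} (h5 : n % 5 = 1 ∨ n % 5 = 4) {v : V3} (hv : v ∈ vec (n : ℤ)) :
    ∑ i : Fin 6, (if O6 i v then (1 : ℤ) else 0) = 2 := by
  simp only [O6_iff]
  apply two6
  rw [← ip_cast, mem_vec.1 hv]
  push_cast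
  exact sp5_cast h5

theorem f_om {A n : ℕ} {f : V3 → ℤ} (h : Is A n f) (hn : Ng n) (hU : Ud n A) (h3 : ¬ 3 ∣ A)
    (hA : A = 1 ∨ Ps A) (hm : Ng (n / A)) {v : V3} (hv : v ∈ vec (n : ℤ)) :
    f (om v) = jacobiSym A 3 * f v :=
  act h hv (mem_om hv) (sg_om hn hU h3 hA hm hv)

theorem jac3_of_one {A : ℕ} (h : A % 3 = 1) : jacobiSym A 3 = 1 := by
  have : jacobiSym A 3 = jacobiSym 1 3 := by
    apply jacobiSym.mod_left'
    push_cast
    omega
  rw [this]
  decide +kernel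

theorem jac3_of_two {A : ℕ} (h : A % 3 = 2) : jacobiSym A 3 = -1 := by
  have : jacobiSym A 3 = jacobiSym 2 3 := by
    apply jacobiSym.mod_left'
    push_cast
    omega
  rw [this]
  decide +kernel

theorem zero_om {A n : ℕ} {f : V3 → ℤ} (h : Is A n f) (hn : Ng n) (hU : Ud n A)
    (hA : A = 1 ∨ Ps A) (hm : Ng (n / A)) (h2 : A % 3 = 2) : ∑ v ∈ vec n, f v = 0 := by
  have h1 := sum_om n f
  have h3 : ∑ v ∈ vec (n : ℤ), f (om v) = - ∑ v ∈ vec n, f v := by
    rw [← sum_neg_distrib]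
    refine sum_congr rfl fun v hv => ?_
    rw [f_om h hn hU (by omega) hA hm hv, jac3_of_two h2]
    ring
  linarith

/-- **VANX** -/
theorem t_VANX : S_VANX := by
  intro n A hn hU h3 h1 hc
  obtain ⟨f, hf⟩ := has hn.1 hU.1 h3
  rcases neg_or hn.1 hU with h | ⟨hA, hm⟩
  · rw [P_sq hf, (zero_neg hf h).2.1]
    ring
  · exfalso
    rcases hA with hA | hA
    · exact h1 hA
    · rcases hc with h | h
      · exact h hA
      · exact h hm

theorem n25 {n : ℕ} (hn : Ng n) : ¬ 25 ∣ n := sqf_of hn Nat.prime_five (by norm_num)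

/-- **VANR** -/
theorem t_VANR : S_VANR := by
  intro n A hn hU h3 hm
  have h5 : 5 ∣ n := dvd_trans (by norm_num) hn.2
  obtain ⟨f, hf⟩ := has hn.1 hU.1 h3
  rcases neg_or hn.1 hU with h | ⟨hA, -⟩
  · have hz := zero_neg hf h
    rw [P_sq hf, RR_sq hf, hz.1, hz.2.1]
    norm_num
  · constructor
    · intro h2
      rw [RR_sq hf, zero_om hf hn.1 hU hA hm h2]
      ring
    · intro h1
      have e := six_sum (f := f) (fun v hv => by
        rw [f_om hf hn.1 hU h3 hA hm hv, jac3_of_one h1, one_mul]) 1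
        (fun v hv => one_line h5 (n25 hn.1) hv)
      rw [P_sq hf, RR_sq hf]
      rw [one_mul] at e
      rw [← e]
      ring

/-- **VR** -/
theorem t_VR : S_VR := by
  intro n hn
  have e := six_sum (n := n) (f := fun _ => 1) (fun _ _ => rfl) 2
    (fun v hv => two_lines hn.2.2 hv)
  simp only [sum_const, mul_one, nsmul_eq_mul] at e
  unfold rr
  linarith

/-- **VAN**, from the vanishing of the Eisenstein part -/
theorem t_VAN (hE : S_EIS) : S_VAN := by
  intro n A hn hU h3 hc h1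
  obtain ⟨f, hf⟩ := has hn.1 hU.1 h3
  rcases neg_or hn.1 hU with h | ⟨hA, hm⟩
  · rw [P_sq hf, (zero_neg hf h).2.1]
    ring
  · rcases hc with hc | ⟨h5, hc⟩ | ⟨h5, hc⟩
    · exact absurd hm hc
    · have hz := zero_rh hf (fun v hv => by rw [sg_rh hn.1 hU h3 h5 hA hm hv, hc])
      rw [P_sq hf, hz.1]
      ring
    · have hj : jacobiSym ((n / A : ℕ) : ℤ) 5 = 1 := by
        have hx : ∀ r : ℕ, (r : ℤ) % 5 = ((n / A : ℕ) : ℤ) % 5 → jacobiSym (r : ℤ) 5 = 1 →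
            jacobiSym ((n / A : ℕ) : ℤ) 5 = 1 := by
          intro r h1 h2
          rw [← h2]
          exact (jacobiSym.mod_left' h1).symm
        rcases hc with hc | hc
        · exact hx 1 (by omega) (by decide +kernel)
        · exact hx 4 (by omega) (by decide +kernel)
      by_cases h2 : A % 3 = 2
      · have hz := zero_rh hf (fun v hv => by
          rw [sg_rh5 hn.1 hU h3 h5 hA hm hv, hj, jac3_of_two h2]; norm_num)
        rw [P_sq hf, hz.1]
        ring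
      · have h21 : A % 3 = 1 := by omega
        have e1 := (t_VANR n A hn hU h3 hm).2 h21
        rw [hE n A hn hU (hA.resolve_left h1) hm h21] at e1
        linarith

/-! ### the class `(-;-1,1)` -/

theorem s15_flip {t t' : ℤ} (h3 : (3 : ℤ) ∣ t' - t) (h5 : (5 : ℤ) ∣ t' + t) :
    s15 t' = - s15 t := by
  unfold s15
  split_ifs <;> omega

theorem s15_same {t t' : ℤ} (h3 : (3 : ℤ) ∣ t' + t) (h5 : (5 : ℤ) ∣ t' + t) :
    s15 t' = s15 t := by
  unfold s15
  split_ifs <;> omega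

/-- the part of the oriented sum with a given second line -/
noncomputable def G6 (n : ℕ) (f : V3 → ℤ) (j : Fin 6) : ℤ := ∑ v ∈ vec n,
  if O6 0 v ∧ O6 j v then s15 (v 1 - v 2) * f v else 0

theorem om1 (v : V3) : om v 0 = v 0 := rfl
theorem om2 (v : V3) : om v 1 = -v 2 := rfl
theorem om3 (v : V3) : om v 2 = v 1 + v 2 := rfl

theorem G6_1 {n : ℕ} {f : V3 → ℤ} (hf : ∀ v ∈ vec (n : ℤ), f (om v) = - f v) :
    G6 n f 5 = - G6 n f 1 := by
  unfold G6
  rw [← sum_om n (fun v => if O6 0 v ∧ O6 5 v then s15 (v 1 - v 2) * f v else 0),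
    ← sum_neg_distrib]
  refine sum_congr rfl fun v hv => ?_
  simp only [O6_om]
  have e1 : ((0 : Fin 6) + 1) = 1 := rfl
  have e2 : ((5 : Fin 6) + 1) = 0 := rfl
  rw [e1, e2]
  by_cases h : O6 0 v ∧ O6 1 v
  · rw [if_pos h, if_pos h.symm, hf v hv]
    have h0 : (5 : ℤ) ∣ v 0 + 2 * v 1 + 2 * v 2 := h.1
    have h1 : (5 : ℤ) ∣ v 0 + 2 * v 1 := h.2
    have hs : s15 (om v 1 - om v 2) = s15 (v 1 - v 2) := by
      rw [om2, om3]
      apply s15_same
      · omega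
      · omega
    rw [hs]
    ring
  · rw [if_neg h, if_neg (fun h' => h h'.symm), neg_zero]

theorem G6_2 {n : ℕ} {f : V3 → ℤ} (hf : ∀ v ∈ vec (n : ℤ), f (om v) = - f v) :
    G6 n f 4 = - G6 n f 2 := by
  unfold G6
  rw [← sum_om n (fun v => if O6 0 v ∧ O6 4 v then s15 (v 1 - v 2) * f v else 0),
    ← sum_om n (fun v => if O6 0 (om v) ∧ O6 4 (om v) then s15 (om v 1 - om v 2) * f (om v) else 0),
    ← sum_neg_distrib]
  refine sum_congr rfl fun v hv => ?_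
  simp only [O6_om]
  have e1 : ((0 : Fin 6) + 1 + 1) = 2 := rfl
  have e2 : ((4 : Fin 6) + 1 + 1) = 0 := rfl
  rw [e1, e2]
  by_cases h : O6 0 v ∧ O6 2 v
  · rw [if_pos h, if_pos h.symm, hf (om v) (mem_om hv), hf v hv]
    have h0 : (5 : ℤ) ∣ v 0 + 2 * v 1 + 2 * v 2 := h.1
    have h1 : (5 : ℤ) ∣ v 0 - 2 * v 2 := h.2
    have hs : s15 (om (om v) 1 - om (om v) 2) = - s15 (v 1 - v 2) := by
      simp only [om2, om3]
      apply s15_flip
      · omega
      · omega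
    rw [hs]
    ring
  · rw [if_neg h, if_neg (fun h' => h h'.symm), neg_zero]

theorem G6_3 {n : ℕ} {f : V3 → ℤ} (hf : ∀ v ∈ vec (n : ℤ), f (om v) = - f v) :
    G6 n f 3 = - G6 n f 3 := by
  have key : G6 n f 3 = ∑ v ∈ vec (n : ℤ), (if O6 0 (om (om (om v))) ∧ O6 3 (om (om (om v))) then
      s15 (om (om (om v)) 1 - om (om (om v)) 2) * f (om (om (om v))) else 0) := by
    unfold G6
    rw [← sum_om n (fun v => if O6 0 v ∧ O6 3 v then s15 (v 1 - v 2) * f v else 0),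
      ← sum_om n (fun v => if O6 0 (om v) ∧ O6 3 (om v) then
        s15 (om v 1 - om v 2) * f (om v) else 0),
      ← sum_om n (fun v => if O6 0 (om (om v)) ∧ O6 3 (om (om v)) then
        s15 (om (om v) 1 - om (om v) 2) * f (om (om v)) else 0)]
  have key2 : ∑ v ∈ vec (n : ℤ), (if O6 0 (om (om (om v))) ∧ O6 3 (om (om (om v))) then
      s15 (om (om (om v)) 1 - om (om (om v)) 2) * f (om (om (om v))) else 0) = - G6 n f 3 := by
    unfold G6
    rw [← sum_neg_distrib]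
    refine sum_congr rfl fun v hv => ?_
    simp only [O6_om]
    have e1 : ((0 : Fin 6) + 1 + 1 + 1) = 3 := rfl
    have e2 : ((3 : Fin 6) + 1 + 1 + 1) = 0 := rfl
    rw [e1, e2]
    by_cases h : O6 0 v ∧ O6 3 v
    · rw [if_pos h, if_pos h.symm, hf _ (mem_om (mem_om hv)), hf _ (mem_om hv), hf v hv]
      have hs : s15 (om (om (om v)) 1 - om (om (om v)) 2) = s15 (v 1 - v 2) := by
        simp only [om2, om3]
        rw [← s15_neg]
        congr 1
        ring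
      rw [hs]
      ring
    · rw [if_neg h, if_neg (fun h' => h h'.symm), neg_zero]
  exact key.trans key2

/-- the oriented sum, `χ₃(A) = -1` -/
theorem zero_Q {n : ℕ} (h5 : n % 5 = 1 ∨ n % 5 = 4) {f : V3 → ℤ}
    (hf : ∀ v ∈ vec (n : ℤ), f (om v) = - f v) : ∑ v ∈ V n, s15 (v 1 - v 2) * f v = 0 := by
  have e1 : ∑ j : Fin 6, G6 n f j = 2 * ∑ v ∈ V n, s15 (v 1 - v 2) * f v := by
    unfold G6 V
    rw [sum_comm, sum_filter, mul_sum]
    refine sum_congr rfl fun v hv => ?_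
    by_cases h : (5 : ℤ) ∣ v 0 + 2 * v 1 + 2 * v 2
    · rw [if_pos h]
      have h0 : O6 0 v := h
      have h2 := two_lines h5 hv
      rw [← h2, sum_mul]
      refine sum_congr rfl fun j _ => ?_
      by_cases hj : O6 j v
      · rw [if_pos ⟨h0, hj⟩, if_pos hj, one_mul]
      · rw [if_neg (fun h' => hj h'.2), if_neg hj, zero_mul]
    · rw [if_neg h, mul_zero]
      refine sum_eq_zero fun j _ => ?_
      rw [if_neg (fun h' => h h'.1)]
  have e0 : G6 n f 0 = ∑ v ∈ V n, s15 (v 1 - v 2) * f v := by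
    unfold G6 V
    rw [sum_filter]
    refine sum_congr rfl fun v _ => ?_
    by_cases h : (5 : ℤ) ∣ v 0 + 2 * v 1 + 2 * v 2
    · rw [if_pos h, if_pos ⟨h, h⟩]
    · rw [if_neg h, if_neg (fun h' => h h'.1)]
  rw [Fin.sum_univ_six, e0] at e1
  have h1 := G6_1 hf
  have h2 := G6_2 hf
  have h3 := G6_3 hf
  linarith

/-- **VAN4** -/
theorem t_VAN4 : S_VAN4 := by
  classical
  intro n A hn hA h1
  have hA' : A ∈ n.divisors ∧ Nat.Coprime A (n / A) ∧ (A = 1 ∨ Ps A) ∧ Ng (n / A) := by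
    unfold pA at hA
    rwa [mem_filter] at hA
  obtain ⟨hd, hc, hP, hm⟩ := hA'
  have hU : Ud n A := ⟨Nat.dvd_of_mem_divisors hd, hc⟩
  obtain ⟨hN, hn3, hn5⟩ := hn
  have h3 : ¬ 3 ∣ A := fun h => by
    have := h.trans hU.1
    omega
  have h5 : ¬ 5 ∣ A := fun h => by
    have := h.trans hU.1
    omega
  obtain ⟨f, hf⟩ := has hN hU.1 h3
  refine ⟨fun hj => ?_, fun h2 => ?_, fun h2 => ?_⟩
  · have hz := zero_rh hf (fun v hv => by rw [sg_rh hN hU h3 h5 hP hm hv, hj])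
    rw [P_sq hf, Q_sq hf, hz.1, hz.2]
    norm_num
  · rw [Q_sq hf, zero_Q hn5 (f := f) (fun v hv => by
      rw [f_om hf hN hU h3 hP hm hv, jac3_of_two h2]; ring)]
    ring
  · have e := six_sum (f := f) (fun v hv => by
      rw [f_om hf hN hU h3 hP hm hv, jac3_of_one h2, one_mul]) 2 (fun v hv => two_lines hn5 hv)
    rw [P_sq hf, RR_sq hf]
    have e2 : ∑ v ∈ vec (n : ℤ), f v = 3 * ∑ v ∈ V n, f v := by linarith
    rw [e2]
    ring

end Pool.Agent.N871.P15G
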